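import Mathlib

open Filter Topology Set

namespace Pool.Agent.H.MP_3d8b4c_al

/-- dyadic rationals -/
def D : Subring ℝ where
  carrier := {x | ∃ m : ℤ, ∃ e : ℕ, x = m / 2 ^ e}
  zero_mem' := ⟨0, 0, by simp⟩
  one_mem' := ⟨1, 0, by simp⟩
  add_mem' := by
    rintro _ _ ⟨m, e, rfl⟩ ⟨n, f, rfl⟩
    exact ⟨m * 2 ^ f + n * 2 ^ e, e + f, by push_cast; field_simp; ring⟩
  mul_mem' := by
    rintro _ _ ⟨m, e, rfl⟩ ⟨n, f, rfl⟩
    exact ⟨m * n, e + f, by push_cast; field_simp; ring⟩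
  neg_mem' := by
    rintro _ ⟨m, e, rfl⟩
    exact ⟨-m, e, by push_cast; ring⟩

theorem half_mem {x : ℝ} (h : x ∈ D) : x / 2 ∈ D := by
  obtain ⟨m, e, rfl⟩ := h
  exact ⟨m, e + 1, by field_simp; ring⟩

theorem divp_mem {x : ℝ} (h : x ∈ D) (n : ℕ) : x / 2 ^ n ∈ D := by
  obtain ⟨m, e, rfl⟩ := h
  exact ⟨m, e + n, by field_simp; ring⟩

/-- powers of two -/
def Sl (s : ℝ) : Prop := ∃ k : ℤ, s = 2 ^ k

theorem Sl.pos {s : ℝ} (h : Sl s) : 0 < s := by obtain ⟨k, rfl⟩ := h; positivity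
theorem Sl.mul {s t : ℝ} (h : Sl s) (h' : Sl t) : Sl (s * t) := by
  obtain ⟨k, rfl⟩ := h; obtain ⟨l, rfl⟩ := h'
  exact ⟨k + l, (zpow_add₀ two_ne_zero _ _).symm⟩
theorem Sl.inv {s : ℝ} (h : Sl s) : Sl s⁻¹ := by
  obtain ⟨k, rfl⟩ := h; exact ⟨-k, (zpow_neg _ _).symm⟩
theorem Sl.one : Sl 1 := ⟨0, by simp⟩
theorem Sl.two : Sl 2 := ⟨1, by simp⟩
theorem Sl.pow (n : ℕ) : Sl (2 ^ n) := ⟨n, by simp⟩
theorem Sl.mem {s : ℝ} (h : Sl s) : s ∈ D := by
  obtain ⟨k, rfl⟩ := h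
  rcases k with n | n
  · exact ⟨2 ^ n, 0, by simp⟩
  · exact ⟨1, n + 1, by simp [zpow_negSucc]⟩

theorem exists_dy {x y : ℝ} (h : x < y) : ∃ z ∈ D, x < z ∧ z < y := by
  obtain ⟨n, hn⟩ := pow_unbounded_of_one_lt (y - x)⁻¹ (one_lt_two (α := ℝ))
  have hp : (0 : ℝ) < 2 ^ n := by positivity
  have h1 : 1 < (y - x) * 2 ^ n := by
    have := mul_lt_mul_of_pos_left hn (sub_pos.2 h)
    rwa [mul_inv_cancel₀ (sub_pos.2 h).ne'] at this
  refine ⟨(⌊x * 2 ^ n⌋ + 1 : ℤ) / 2 ^ n, ⟨_, n, rfl⟩, ?_, ?_⟩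
  · rw [lt_div_iff₀ hp]; push_cast; exact Int.lt_floor_add_one _
  · rw [div_lt_iff₀ hp]; push_cast; linarith [Int.floor_le (x * 2 ^ n)]

/-- dyadic piecewise affine -/
def PLp (f : ℝ → ℝ) : Prop :=
  ∀ x, ∃ s c s' c', Sl s ∧ Sl s' ∧ c ∈ D ∧ c' ∈ D ∧ (∀ᶠ t in 𝓝[≥] x, f t = s * t + c) ∧
    (∀ᶠ t in 𝓝[≤] x, f t = s' * t + c') ∧ (x ∈ D ∨ (s = s' ∧ c = c'))

theorem tendR (f : ℝ ≃o ℝ) (x : ℝ) : Tendsto f (𝓝[≥] x) (𝓝[≥] (f x)) := by
  apply tendsto_nhdsWithin_of_tendsto_nhds_of_eventually_within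
  · exact (f.continuous.tendsto x).mono_left nhdsWithin_le_nhds
  · filter_upwards [self_mem_nhdsWithin] with t ht
    exact f.monotone ht

theorem tendL (f : ℝ ≃o ℝ) (x : ℝ) : Tendsto f (𝓝[≤] x) (𝓝[≤] (f x)) := by
  apply tendsto_nhdsWithin_of_tendsto_nhds_of_eventually_within
  · exact (f.continuous.tendsto x).mono_left nhdsWithin_le_nhds
  · filter_upwards [self_mem_nhdsWithin] with t ht
    exact f.monotone ht

theorem inv_aux (f : ℝ ≃o ℝ) (s c : ℝ) (hs : Sl s) (F F' : Filter ℝ) (hF : Tendsto f.symm F' F)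
    (h : ∀ᶠ t in F, f t = s * t + c) : ∀ᶠ t in F', f.symm t = s⁻¹ * t + -(s⁻¹ * c) := by
  filter_upwards [hF.eventually h] with t ht
  simp only [OrderIso.apply_symm_apply] at ht
  have := hs.pos.ne'
  field_simp; linarith

theorem selfR {x : ℝ} {p : ℝ → Prop} (h : ∀ᶠ t in 𝓝[≥] x, p t) : p x :=
  h.self_of_nhdsWithin (le_refl x)
theorem selfL {x : ℝ} {p : ℝ → Prop} (h : ∀ᶠ t in 𝓝[≤] x, p t) : p x :=
  h.self_of_nhdsWithin (le_refl x)

def PLG : Subgroup (ℝ ≃o ℝ) where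
  carrier := {f | PLp f}
  one_mem' := fun x => ⟨1, 0, 1, 0, Sl.one, Sl.one, zero_mem _, zero_mem _,
    Eventually.of_forall fun t => by simp, Eventually.of_forall fun t => by simp, Or.inr ⟨rfl, rfl⟩⟩
  mul_mem' := by
    intro f g hf hg x
    obtain ⟨s, c, s', c', a1, a2, a3, a4, a5, a6, a7⟩ := hg x
    obtain ⟨u, d, u', d', b1, b2, b3, b4, b5, b6, b7⟩ := hf (g x)
    refine ⟨u * s, u * c + d, u' * s', u' * c' + d', b1.mul a1, b2.mul a2,
      add_mem (mul_mem b1.mem a3) b3, add_mem (mul_mem b2.mem a4) b4, ?_, ?_, ?_⟩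
    · filter_upwards [a5, (tendR g x).eventually b5] with t h1 h2
      simp only [RelIso.mul_apply]
      rw [h2, h1]; ring
    · filter_upwards [a6, (tendL g x).eventually b6] with t h1 h2
      simp only [RelIso.mul_apply]
      rw [h2, h1]; ring
    · rcases a7 with h | ⟨rfl, rfl⟩
      · exact Or.inl h
      rcases b7 with h | ⟨rfl, rfl⟩
      · left
        have e : x = s⁻¹ * (g x - c) := by
          rw [selfR a5]; have := a1.pos.ne'; field_simp; ring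
        rw [e]; exact mul_mem a1.inv.mem (sub_mem h a3)
      · exact Or.inr ⟨rfl, rfl⟩
  inv_mem' := by
    intro f hf y
    obtain ⟨s, c, s', c', a1, a2, a3, a4, a5, a6, a7⟩ := hf (f.symm y)
    refine ⟨_, _, _, _, a1.inv, a2.inv, neg_mem (mul_mem a1.inv.mem a3),
      neg_mem (mul_mem a2.inv.mem a4), inv_aux f s c a1 _ _ (tendR f.symm y) a5,
      inv_aux f s' c' a2 _ _ (tendL f.symm y) a6, ?_⟩
    rcases a7 with h | ⟨rfl, rfl⟩
    · left
      have e := selfR a5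
      simp only [OrderIso.apply_symm_apply] at e
      rw [e]; exact add_mem (mul_mem a1.mem h) a3
    · exact Or.inr ⟨rfl, rfl⟩

abbrev G : Type := ↥PLG

def ap (g : G) : ℝ → ℝ := fun t => g.1 t

instance : CoeFun G (fun _ => ℝ → ℝ) := ⟨ap⟩

@[simp] theorem mul_ap (f g : G) (t : ℝ) : (f * g) t = f (g t) := rfl
@[simp] theorem one_ap (t : ℝ) : (1 : G) t = t := rfl
@[simp] theorem inv_ap (f : G) (t : ℝ) : f⁻¹ (f t) = t := f.1.symm_apply_apply t
@[simp] theorem ap_inv (f : G) (t : ℝ) : f (f⁻¹ t) = t := f.1.apply_symm_apply t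
@[simp] theorem ap_le {f : G} {s t : ℝ} : f s ≤ f t ↔ s ≤ t := f.1.le_iff_le
@[simp] theorem ap_lt {f : G} {s t : ℝ} : f s < f t ↔ s < t := f.1.lt_iff_lt
theorem mono (f : G) {s t : ℝ} (h : s ≤ t) : f s ≤ f t := ap_le.2 h
theorem smono (f : G) {s t : ℝ} (h : s < t) : f s < f t := ap_lt.2 h
theorem ext {f g : G} (h : ∀ t, f t = g t) : f = g := Subtype.ext (OrderIso.ext (funext h))
theorem inv_eq {f : G} {s t : ℝ} (h : f s = t) : f⁻¹ t = s := by rw [← h, inv_ap]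
theorem inv_le {f : G} {s t : ℝ} : f⁻¹ t ≤ s ↔ t ≤ f s := by
  rw [← ap_le (f := f), ap_inv]
theorem le_inv {f : G} {s t : ℝ} : s ≤ f⁻¹ t ↔ f s ≤ t := by
  rw [← ap_le (f := f), ap_inv]
theorem inv_lt {f : G} {s t : ℝ} : f⁻¹ t < s ↔ t < f s := by
  rw [← ap_lt (f := f), ap_inv]
theorem lt_inv {f : G} {s t : ℝ} : s < f⁻¹ t ↔ f s < t := by
  rw [← ap_lt (f := f), ap_inv]
theorem plp (g : G) : PLp g := g.2

theorem mk_G (F : ℝ → ℝ) (h1 : StrictMono F) (h2 : Function.Surjective F) (h3 : PLp F) :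
    ∃ g : G, ∀ t, g t = F t :=
  ⟨⟨h1.orderIsoOfSurjective F h2, h3⟩, fun _ => rfl⟩

theorem ap_mem (g : G) {x : ℝ} (h : x ∈ D) : g x ∈ D := by
  obtain ⟨s, c, s', c', a1, -, a3, -, a5, -⟩ := plp g x
  rw [selfR a5]; exact add_mem (mul_mem a1.mem h) a3

theorem cont (g : G) : Continuous g := g.1.continuous

theorem exists_aff (a b : ℝ) (ha : Sl a) (hb : b ∈ D) : ∃ g : G, ∀ t, g t = a * t + b := by
  have := ha.pos
  apply mk_G
  · intro s t h; simp only; nlinarith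
  · intro y; exact ⟨(y - b) / a, by field_simp; ring⟩
  · intro x
    exact ⟨a, b, a, b, ha, ha, hb, hb, Eventually.of_forall fun t => rfl,
      Eventually.of_forall fun t => rfl, Or.inr ⟨rfl, rfl⟩⟩

open Classical in
noncomputable def tr (c : ℝ) : G := if h : c ∈ D then (exists_aff 1 c Sl.one h).choose else 1
theorem tr_ap {c : ℝ} (h : c ∈ D) (t : ℝ) : tr c t = t + c := by
  rw [tr, dif_pos h, (exists_aff 1 c Sl.one h).choose_spec]; ring
theorem tr_inv_ap {c : ℝ} (h : c ∈ D) (t : ℝ) : (tr c)⁻¹ t = t - c := inv_eq (by simp [tr_ap h])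
@[simp] theorem tr_int (n : ℤ) (t : ℝ) : tr n t = t + n := tr_ap (intCast_mem _ n) t
@[simp] theorem tr_inv_int (n : ℤ) (t : ℝ) : (tr n)⁻¹ t = t - n := tr_inv_ap (intCast_mem _ n) t
@[simp] theorem tr_one (t : ℝ) : tr 1 t = t + 1 := tr_ap (one_mem _) t

theorem plp_loc {F : ℝ → ℝ} (x : ℝ) (g h : G) (h1 : ∀ᶠ t in 𝓝[≥] x, F t = g t)
    (h2 : ∀ᶠ t in 𝓝[≤] x, F t = h t) (h3 : x ∈ D ∨ g = h) :
    ∃ s c s' c', Sl s ∧ Sl s' ∧ c ∈ D ∧ c' ∈ D ∧ (∀ᶠ t in 𝓝[≥] x, F t = s * t + c) ∧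
    (∀ᶠ t in 𝓝[≤] x, F t = s' * t + c') ∧ (x ∈ D ∨ (s = s' ∧ c = c')) := by
  obtain ⟨s, c, s', c', a1, a2, a3, a4, a5, a6, a7⟩ := plp g x
  rcases h3 with h3 | rfl
  · obtain ⟨u, d, u', d', b1, b2, b3, b4, b5, b6, b7⟩ := plp h x
    refine ⟨s, c, u', d', a1, b2, a3, b4, ?_, ?_, Or.inl h3⟩
    · filter_upwards [h1, a5] with t e1 e2; rw [e1, e2]
    · filter_upwards [h2, b6] with t e1 e2; rw [e1, e2]
  · refine ⟨s, c, s', c', a1, a2, a3, a4, ?_, ?_, a7⟩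
    · filter_upwards [h1, a5] with t e1 e2; rw [e1, e2]
    · filter_upwards [h2, a6] with t e1 e2; rw [e1, e2]

theorem glue (g h : G) (p : ℝ) (hD : p ∈ D) (hp : g p = h p) :
    ∃ k : G, (∀ t, t ≤ p → k t = g t) ∧ ∀ t, p ≤ t → k t = h t := by
  classical
  let F : ℝ → ℝ := fun t => if t ≤ p then g t else h t
  have F1 : ∀ t, t ≤ p → F t = g t := fun t ht => if_pos ht
  have F2 : ∀ t, p ≤ t → F t = h t := fun t ht => by
    rcases ht.eq_or_lt with rfl | ht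
    · rw [F1 _ le_rfl, hp]
    · exact if_neg (not_le.2 ht)
  obtain ⟨k, hk⟩ := mk_G F (by
    intro s t hst
    rcases le_total t p with h1 | h1
    · rw [F1 _ h1, F1 _ (by linarith)]; exact smono g hst
    rcases lt_or_ge s p with h2 | h2
    · rw [F1 _ h2.le, F2 _ h1]
      have := smono g h2
      have := mono h h1
      linarith
    · rw [F2 _ h2, F2 _ h1]; exact smono h hst) (by
    intro y
    rcases le_total y (g p) with h1 | h1
    · exact ⟨g⁻¹ y, by rw [F1 _ (inv_le.2 h1), ap_inv]⟩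
    · exact ⟨h⁻¹ y, by rw [F2 _ (le_inv.2 (hp ▸ h1)), ap_inv]⟩) (by
    intro x
    rcases lt_trichotomy x p with h1 | rfl | h1
    · have : ∀ᶠ t in 𝓝 x, F t = g t := by
        filter_upwards [Iio_mem_nhds h1] with t h3 using F1 _ (le_of_lt h3)
      exact plp_loc x g g (nhdsWithin_le_nhds this) (nhdsWithin_le_nhds this) (Or.inr rfl)
    · exact plp_loc x h g (by filter_upwards [self_mem_nhdsWithin] with t h3 using F2 _ h3)
        (by filter_upwards [self_mem_nhdsWithin] with t h3 using F1 _ h3) (Or.inl hD)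
    · have : ∀ᶠ t in 𝓝 x, F t = h t := by
        filter_upwards [Ioi_mem_nhds h1] with t h3 using F2 _ (le_of_lt h3)
      exact plp_loc x h h (nhdsWithin_le_nhds this) (nhdsWithin_le_nhds this) (Or.inr rfl))
  exact ⟨k, fun t ht => by rw [hk, F1 _ ht], fun t ht => by rw [hk, F2 _ ht]⟩

theorem exists_sig (p l : ℝ) (hp : p ∈ D) (hl : Sl l) :
    ∃ g : G, (∀ t, t ≤ p → g t = t) ∧ ∀ t, p ≤ t → g t = p + l * (t - p) := by
  obtain ⟨a, ha⟩ := exists_aff l (p - l * p) hl (sub_mem hp (mul_mem hl.mem hp))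
  obtain ⟨k, k1, k2⟩ := glue 1 a p hp (by simp [ha])
  exact ⟨k, k1, fun t ht => by rw [k2 t ht, ha]; ring⟩

theorem interp_nat (n : ℕ) : ∃ g : G, g 0 = 0 ∧ g 1 = n + 1 := by
  induction n with
  | zero => exact ⟨1, rfl, by simp⟩
  | succ n ih =>
    obtain ⟨g, g0, g1⟩ := ih
    obtain ⟨k, k1, k2⟩ := exists_sig n 2 (natCast_mem _ n) Sl.two
    exact ⟨k * g, by rw [mul_ap, g0, k1 0 (by positivity)],
      by rw [mul_ap, g1, k2 _ (by linarith)]; push_cast; ring⟩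

theorem interp_one {x x' : ℝ} (hx : x < x') (h : x ∈ D) (h' : x' ∈ D) :
    ∃ g : G, g 0 = x ∧ g 1 = x' := by
  obtain ⟨m, e, he⟩ := sub_mem h' h
  have hp : (0 : ℝ) < 2 ^ e := by positivity
  have hm : 0 < m := by
    have : (0 : ℝ) < m / 2 ^ e := by linarith
    have := (div_pos_iff_of_pos_right hp).1 this
    exact_mod_cast this
  obtain ⟨n, rfl⟩ : ∃ n : ℕ, m = n + 1 := ⟨(m - 1).toNat, by omega⟩
  obtain ⟨g, g0, g1⟩ := interp_nat n
  obtain ⟨a, ha⟩ := exists_aff (2 ^ e)⁻¹ x (Sl.pow e).inv h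
  refine ⟨a * g, by simp [g0, ha], ?_⟩
  rw [mul_ap, g1, ha]
  push_cast at he
  rw [← div_eq_inv_mul, ← he]; ring

theorem exists_interp {x x' y y' : ℝ} (hx : x < x') (hy : y < y') (h1 : x ∈ D) (h2 : x' ∈ D)
    (h3 : y ∈ D) (h4 : y' ∈ D) : ∃ g : G, g x = y ∧ g x' = y' := by
  obtain ⟨g, g0, g1⟩ := interp_one hx h1 h2
  obtain ⟨k, k0, k1⟩ := interp_one hy h3 h4
  exact ⟨k * g⁻¹, by rw [mul_ap, inv_eq g0, k0], by rw [mul_ap, inv_eq g1, k1]⟩

/-- unbounded in both directions -/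
def Unb (c : ℤ → ℝ) : Prop := ∀ x, (∃ i, x < c i) ∧ ∃ i, c i < x

theorem idxR {c : ℤ → ℝ} (hc : StrictMono c) (hu : Unb c) (x : ℝ) :
    ∃ i, c i ≤ x ∧ x < c (i + 1) := by
  classical
  obtain ⟨⟨i1, h1⟩, ⟨i0, h0⟩⟩ := hu x
  obtain ⟨i, hi, hm⟩ := Int.exists_greatest_of_bdd (P := fun i => c i ≤ x)
    ⟨i1, fun z hz => (hc.lt_iff_lt.1 (lt_of_le_of_lt hz h1)).le⟩ ⟨i0, h0.le⟩
  refine ⟨i, hi, ?_⟩
  by_contra h
  have := hm (i + 1) (not_lt.1 h)
  omega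

theorem idxL {c : ℤ → ℝ} (hc : StrictMono c) (hu : Unb c) (x : ℝ) :
    ∃ i, c i < x ∧ x ≤ c (i + 1) := by
  obtain ⟨i, h1, h2⟩ := idxR hc hu x
  rcases h1.eq_or_lt with h | h
  · refine ⟨i - 1, ?_, by simp [h]⟩
    rw [← h]; exact hc (by omega)
  · exact ⟨i, h, h2.le⟩

theorem zglue (c : ℤ → ℝ) (g : ℤ → G) (hc : StrictMono c) (hu : Unb c) (hD : ∀ i, c i ∈ D)
    (hg : ∀ i, g i (c (i + 1)) = g (i + 1) (c (i + 1))) (hd : Unb fun i => g i (c i)) :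
    ∃ k : G, ∀ i t, c i ≤ t → t ≤ c (i + 1) → k t = g i t := by
  choose idx h1 h2 using idxR hc hu
  let F : ℝ → ℝ := fun t => g (idx t) t
  have hidx : ∀ i t, c i ≤ t → t < c (i + 1) → idx t = i := by
    intro i t a b
    have e1 := hc.lt_iff_lt.1 (lt_of_le_of_lt a (h2 t))
    have e2 := hc.lt_iff_lt.1 (lt_of_le_of_lt (h1 t) b)
    omega
  have hF : ∀ i t, c i ≤ t → t ≤ c (i + 1) → F t = g i t := by
    intro i t a b
    rcases b.eq_or_lt with rfl | b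
    · simp only [F]
      rw [hidx (i + 1) _ le_rfl (hc (by omega)), hg]
    · simp only [F]; rw [hidx i t a b]
  have hds : StrictMono fun i => g i (c i) := by
    apply strictMono_int_of_lt_succ
    intro i
    rw [← hg]; exact smono _ (hc (by omega))
  obtain ⟨k, hk⟩ := mk_G F (by
    intro s t hst
    rcases lt_or_ge t (c (idx s + 1)) with h | h
    · rw [hF (idx s) s (h1 s) (h2 s).le, hF (idx s) t (by linarith [h1 s]) h.le]
      exact smono _ hst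
    · have e1 : idx s + 1 ≤ idx t := by
        have := hc.lt_iff_lt.1 (lt_of_le_of_lt h (h2 t))
        omega
      have e2 := hds.monotone e1
      have e3 := smono (g (idx s)) (h2 s)
      have e4 := mono (g (idx t)) (h1 t)
      rw [hg] at e3
      simp only [F] at e2 ⊢
      linarith) (by
    intro y
    obtain ⟨i, a, b⟩ := idxR hds hd y
    rw [← hg] at b
    exact ⟨(g i)⁻¹ y, by rw [hF i _ (le_inv.2 a) (inv_le.2 b.le), ap_inv]⟩) (by
    intro x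
    obtain ⟨i, a, b⟩ := idxR hc hu x
    have e0 : ∀ᶠ t in 𝓝[≥] x, F t = g i t := by
      filter_upwards [self_mem_nhdsWithin, mem_nhdsWithin_of_mem_nhds (Iio_mem_nhds b)]
        with t e2 e3 using hF i t (le_trans a e2) (le_of_lt e3)
    rcases a.eq_or_lt with a' | a'
    · refine plp_loc x (g i) (g (i - 1)) e0 ?_ (Or.inl (a' ▸ hD i))
      have : c (i - 1) < x := a' ▸ hc (by omega)
      filter_upwards [self_mem_nhdsWithin, mem_nhdsWithin_of_mem_nhds (Ioi_mem_nhds this)]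
        with t e2 e3 using hF _ t (le_of_lt e3) (by simpa [a'] using e2)
    · refine plp_loc x (g i) (g i) e0 ?_ (Or.inr rfl)
      filter_upwards [self_mem_nhdsWithin, mem_nhdsWithin_of_mem_nhds (Ioi_mem_nhds a')]
        with t e2 e3 using hF _ t (le_of_lt e3) (le_trans e2 b.le))
  exact ⟨k, fun i t a b => by rw [hk, hF i t a b]⟩

theorem lin_mono (a b : ℝ) (ha : 0 < a) : StrictMono fun i : ℤ => a * i + b := by
  intro i j h
  have : (i : ℝ) < j := by exact_mod_cast h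
  simp only; nlinarith

theorem lin_unb (a b : ℝ) (ha : 0 < a) : Unb fun i : ℤ => a * i + b := by
  intro x
  obtain ⟨n, hn⟩ := exists_int_gt ((x - b) / a)
  obtain ⟨m, hm⟩ := exists_int_lt ((x - b) / a)
  rw [div_lt_iff₀ ha] at hn
  rw [lt_div_iff₀ ha] at hm
  exact ⟨⟨n, by simp only; linarith⟩, ⟨m, by simp only; linarith⟩⟩

/-- supported in the interval (a,b) -/
def Supp (a b : ℝ) (g : G) : Prop := ∀ t, t ≤ a ∨ b ≤ t → g t = t

theorem Supp.one (a b : ℝ) : Supp a b 1 := fun _ _ => rfl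
theorem Supp.mul {a b : ℝ} {g h : G} (hg : Supp a b g) (hh : Supp a b h) : Supp a b (g * h) :=
  fun t ht => by rw [mul_ap, hh t ht, hg t ht]
theorem Supp.inv {a b : ℝ} {g : G} (hg : Supp a b g) : Supp a b g⁻¹ :=
  fun t ht => inv_eq (hg t ht)
theorem Supp.mono {a b a' b' : ℝ} {g : G} (hg : Supp a b g) (h1 : a' ≤ a) (h2 : b ≤ b') :
    Supp a' b' g := fun t ht => hg t (by rcases ht with h | h; left; linarith; right; linarith)
theorem Supp.conj {a b : ℝ} {g : G} (hg : Supp a b g) (s : G) :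
    Supp (s a) (s b) (s * g * s⁻¹) := fun t ht => by
  simp only [mul_ap]
  rw [hg _ (by rcases ht with h | h; exact Or.inl (inv_le.2 h); exact Or.inr (le_inv.2 h)), ap_inv]

theorem comm_of {p : ℝ} {g h : G} (hg : ∀ t, p ≤ t → g t = t) (hh : ∀ t, t ≤ p → h t = t) :
    g * h = h * g := by
  apply ext
  intro t
  simp only [mul_ap]
  rcases le_total t p with h1 | h1
  · have := mono g h1
    rw [hg p le_rfl] at this
    rw [hh t h1, hh _ this]
  · have := mono h h1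
    rw [hh p le_rfl] at this
    rw [hg t h1, hg _ this]

theorem Supp.comm {a b c d : ℝ} {g h : G} (hg : Supp a b g) (hh : Supp c d h) (hbc : b ≤ c) :
    g * h = h * g :=
  comm_of (p := b) (fun t ht => hg t (Or.inr ht)) (fun t ht => hh t (Or.inl (by linarith)))

theorem cut (g : G) {x y : ℝ} (hxy : x ≤ y) (dx : x ∈ D) (dy : y ∈ D) (hx : g x = x)
    (hy : g y = y) : ∃ k : G, Supp x y k ∧ ∀ t, x ≤ t → t ≤ y → k t = g t := by
  obtain ⟨k1, a1, a2⟩ := glue g 1 y dy (by simp [hy])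
  obtain ⟨k, b1, b2⟩ := glue 1 k1 x dx (by simp [a1 x hxy, hx])
  refine ⟨k, ?_, fun t h1 h2 => by rw [b2 t h1, a1 t h2]⟩
  rintro t (h | h)
  · simp [b1 t h]
  · rw [b2 t (by linarith), a2 t h, one_ap]

theorem agree (g : G) {x y a b : ℝ} (hab : a ≤ b) (h1 : x < a) (h2 : b < y) (h3 : x < g a)
    (h4 : g b < y) (dx : x ∈ D) (dy : y ∈ D) (da : a ∈ D) (db : b ∈ D) :
    ∃ k : G, Supp x y k ∧ ∀ t, a ≤ t → t ≤ b → k t = g t := by
  obtain ⟨l, l1, l2⟩ := exists_interp h1 h3 dx da dx (ap_mem g da)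
  obtain ⟨r, r1, r2⟩ := exists_interp h2 h4 db dy (ap_mem g db) dy
  obtain ⟨k1, a1, a2⟩ := glue g r b db r1.symm
  obtain ⟨k2, b1, b2⟩ := glue l k1 a da (by rw [l2, a1 a hab])
  obtain ⟨k, c1, c2⟩ := cut k2 (x := x) (y := y) (by linarith) dx dy (by rw [b1 x h1.le, l1])
    (by rw [b2 y (by linarith), a2 y h2.le, r2])
  exact ⟨k, c1, fun t e1 e2 => by rw [c2 t (by linarith) (by linarith), b2 t e1, a1 t e2]⟩

/-- affine on [x,y] -/
def AffOn (g : G) (x y : ℝ) : Prop := ∃ s c, Sl s ∧ c ∈ D ∧ ∀ t, x ≤ t → t ≤ y → g t = s * t + c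

theorem affR (g : G) (x : ℝ) : ∃ y, x < y ∧ AffOn g x y := by
  obtain ⟨s, c, -, -, a1, -, a3, -, hs, -⟩ := plp g x
  obtain ⟨y, h1, h2⟩ := mem_nhdsGE_iff_exists_Icc_subset.1 hs
  exact ⟨y, h1, s, c, a1, a3, fun t a b => h2 ⟨a, b⟩⟩

theorem affL (g : G) (x : ℝ) : ∃ y, y < x ∧ ∀ z, y ≤ z → z ≤ x → AffOn g z x := by
  obtain ⟨-, -, s, c, -, a1, -, a3, -, hs, -⟩ := plp g x
  obtain ⟨y, h1, h2⟩ := mem_nhdsLE_iff_exists_Icc_subset.1 hs
  exact ⟨y, h1, fun z a b => ⟨s, c, a1, a3, fun t c d => h2 ⟨by linarith, d⟩⟩⟩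

theorem aff2 (g : G) {x : ℝ} (hx : x ∉ D) : ∃ y z, y < x ∧ x < z ∧ AffOn g y z := by
  obtain ⟨s, c, s', c', a1, -, a3, -, h1, h2, h | ⟨rfl, rfl⟩⟩ := plp g x
  · exact absurd h hx
  obtain ⟨z, h3, h4⟩ := mem_nhdsGE_iff_exists_Icc_subset.1 h1
  obtain ⟨y, h5, h6⟩ := mem_nhdsLE_iff_exists_Icc_subset.1 h2
  refine ⟨y, z, h5, h3, s, c, a1, a3, fun t a b => ?_⟩
  rcases le_total t x with h | h
  exacts [h6 ⟨a, h⟩, h4 ⟨h, b⟩]

theorem aff_eq {s c s' c' x y : ℝ} (h : x ≠ y) (h1 : s * x + c = s' * x + c')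
    (h2 : s * y + c = s' * y + c') : s = s' ∧ c = c' := by
  have e3 : (s - s') * (x - y) = 0 := by linarith
  have e4 : s = s' := by
    rcases mul_eq_zero.1 e3 with h' | h'
    · linarith
    · exact absurd (by linarith) h
  subst e4
  exact ⟨rfl, by linarith⟩

theorem plInd (g : G) (P : ℝ → Prop) {a b : ℝ} (hab : a ≤ b) (h0 : P a)
    (hs : ∀ x y, x ≤ y → AffOn g x y → P x → P y) : P b := by
  let S := {x | a ≤ x ∧ x ≤ b ∧ P x}
  have hne : S.Nonempty := ⟨a, le_rfl, hab, h0⟩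
  have hbd : BddAbove S := ⟨b, fun x hx => hx.2.1⟩
  have h1 : P (sSup S) := by
    obtain ⟨y, hy, hz⟩ := affL g (sSup S)
    obtain ⟨z, hzS, hyz⟩ := exists_lt_of_lt_csSup hne hy
    exact hs z _ (le_csSup hbd hzS) (hz z hyz.le (le_csSup hbd hzS)) hzS.2.2
  have h2 : sSup S ≤ b := csSup_le hne fun x hx => hx.2.1
  have h3 : a ≤ sSup S := le_csSup hbd ⟨le_rfl, hab, h0⟩
  rcases h2.eq_or_lt with h | h
  · rwa [← h]
  · exfalso
    obtain ⟨y, hy, s, c0, s1, s2, hz⟩ := affR g (sSup S)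
    have h4 : sSup S < min y b := lt_min hy h
    have : min y b ∈ S := ⟨by linarith, min_le_right _ _, hs _ _ h4.le
      ⟨s, c0, s1, s2, fun t c d => hz t c (le_trans d (min_le_left _ _))⟩ h1⟩
    have := le_csSup hbd this
    linarith

end Pool.Agent.H.MP_3d8b4c_al
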