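import Pool.Agent.H.MP_3d8b4c_al.A

open Filter Topology Set
open scoped commutatorElement

namespace Pool.Agent.H.MP_3d8b4c_al

theorem abs_perf {Q : Type*} [Group Q] (P : Q → ℝ → ℝ → Prop) (s0 : ℝ → Q)
    (hmul : ∀ x y l b l' b', P x l b → P y l' b' → P (x * y) (l * l') (l * b' + b))
    (hinv : ∀ x l b, P x l b → P x⁻¹ l⁻¹ (-b / l))
    (hpos : ∀ x l b, P x l b → 0 < l)
    (hcen : ∀ z, P z 1 0 → ∀ q, z * q = q * z)
    (huniq : ∀ x l b l' b', P x l b → P x l' b' → l = l' ∧ b = b')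
    (hs0 : ∀ l, Sl l → P (s0 l) l 0)
    (hs1 : ∀ l m, Sl l → Sl m → s0 (l * m) = s0 l * s0 m)
    (hD : ∀ x l b, P x l b → b ∈ D) (hex : ∀ a ∈ D, ∃ x, P x 1 a) :
    ∃ M : Q → Prop, M 1 ∧ (∀ q τ p l, Sl l → M q → P τ 1 p → M (τ * s0 l * τ⁻¹ * q)) ∧
      ∀ q, M q → P q 1 0 → q = 1 := by
  have cg : ∀ {x l b l' b'}, P x l b → l = l' → b = b' → P x l' b' := by
    rintro x l b l' b' h rfl rfl; exact h
  have tm : ∀ {x y a b}, P x 1 a → P y 1 b → P (x * y) 1 (a + b) := fun h1 h2 =>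
    cg (hmul _ _ _ _ _ _ h1 h2) (by ring) (by ring)
  have ti : ∀ {x a}, P x 1 a → P x⁻¹ 1 (-a) := fun h1 => cg (hinv _ _ _ h1) (by simp) (by simp)
  have tc : ∀ {g l b x a}, P g l b → P x 1 a → P (g * x * g⁻¹) 1 (l * a) := by
    intro g l b x a h1 h2
    have := (hpos _ _ _ h1).ne'
    exact cg (hmul _ _ _ _ _ _ (hmul _ _ _ _ _ _ h1 h2) (hinv _ _ _ h1)) (by field_simp)
      (by field_simp; ring)
  set S := s0 2 with hS
  have hSP : P S 2 0 := hs0 2 Sl.two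
  have sq : ∀ {x a}, P x 1 a → ∃ z, P z 1 0 ∧ S * x * S⁻¹ = x * x * z := by
    intro x a h
    refine ⟨(x * x)⁻¹ * (S * x * S⁻¹), cg (tm (ti (tm h h)) (tc hSP h)) rfl (by ring), by group⟩
  have s1 : s0 1 = 1 := by
    have := hs1 1 1 Sl.one Sl.one
    rw [mul_one] at this
    exact (mul_eq_left.1 this.symm)
  have P1 : P 1 1 0 := s1 ▸ hs0 1 Sl.one
  have tz : ∀ {x a} (n : ℤ), P x 1 a → P (x ^ n) 1 (n * a) := by
    intro x a n h
    induction n using Int.induction_on with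
    | zero => simpa using P1
    | succ n ih => rw [zpow_add_one]; exact cg (tm ih h) rfl (by push_cast; ring)
    | pred n ih => rw [zpow_sub_one]; exact cg (tm ih (ti h)) rfl (by push_cast; ring)
  have comm : ∀ {x y a b}, P x 1 a → P y 1 b → x * y = y * x := by
    intro x y a b h1 h2
    obtain ⟨m, e, rfl⟩ := hD _ _ _ h1
    obtain ⟨n, f, rfl⟩ := hD _ _ _ h2
    obtain ⟨t, ht⟩ := hex (1 / 2 ^ (e + f)) (divp_mem (one_mem _) _)
    have k1 := hcen _ (cg (tm (ti (tz (m * 2 ^ f) ht)) h1) rfl (by push_cast; field_simp; ring))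
    have k2 := hcen _ (cg (tm (ti (tz (n * 2 ^ e) ht)) h2) rfl (by push_cast; field_simp; ring))
    have k3 : t ^ (m * 2 ^ f) * t ^ (n * 2 ^ e) = t ^ (n * 2 ^ e) * t ^ (m * 2 ^ f) := by group
    generalize t ^ (m * 2 ^ f) = u at *
    generalize t ^ (n * 2 ^ e) = v at *
    calc x * y = u * ((u⁻¹ * x) * v) * (v⁻¹ * y) := by group
      _ = u * v * ((u⁻¹ * x) * (v⁻¹ * y)) := by rw [k1]; group
      _ = v * (u * ((v⁻¹ * y) * (u⁻¹ * x))) := by rw [k3, k1]; group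
      _ = v * ((u * (v⁻¹ * y)) * (u⁻¹ * x)) := by group
      _ = _ := by rw [← k2]; group
  let R : Q → Prop := fun y => (∃ a, P y 1 a) ∧ S * y * S⁻¹ = y * y
  have Rm : ∀ {x y}, R x → R y → R (x * y) := by
    rintro x y ⟨⟨a, h1⟩, e1⟩ ⟨⟨b, h2⟩, e2⟩
    refine ⟨⟨_, tm h1 h2⟩, ?_⟩
    calc S * (x * y) * S⁻¹ = (S * x * S⁻¹) * (S * y * S⁻¹) := by group
      _ = x * (x * y) * y := by rw [e1, e2]; group
      _ = x * (y * x) * y := by rw [comm h1 h2]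
      _ = _ := by group
  have Ri : ∀ {x}, R x → R x⁻¹ := by
    rintro x ⟨⟨a, h1⟩, e1⟩
    refine ⟨⟨_, ti h1⟩, ?_⟩
    calc S * x⁻¹ * S⁻¹ = (S * x * S⁻¹)⁻¹ := by group
      _ = _ := by rw [e1]; group
  have Rc : ∀ {g l b y}, P g l b → R y → R (g * y * g⁻¹) := by
    rintro g l b y hg ⟨⟨a, h1⟩, e1⟩
    have h2 := tc hg h1
    refine ⟨⟨_, h2⟩, ?_⟩
    have hl := (hpos _ _ _ hg).ne'
    have h3 : P (S * g * S⁻¹ * g⁻¹) 1 b :=
      cg (hmul _ _ _ _ _ _ (hmul _ _ _ _ _ _ (hmul _ _ _ _ _ _ hSP hg) (hinv _ _ _ hSP))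
        (hinv _ _ _ hg)) (by field_simp) (by field_simp; ring)
    have h4 := comm h3 (tm h2 h2)
    calc S * (g * y * g⁻¹) * S⁻¹ =
          (S * g * S⁻¹ * g⁻¹) * (g * (S * y * S⁻¹) * g⁻¹) * (S * g * S⁻¹ * g⁻¹)⁻¹ := by group
      _ = (S * g * S⁻¹ * g⁻¹) * (g * y * g⁻¹ * (g * y * g⁻¹)) * (S * g * S⁻¹ * g⁻¹)⁻¹ := by
          rw [e1]; group
      _ = _ := by rw [h4]; group
  have Rex : ∀ {τ p}, P τ 1 p → ∃ y z, R y ∧ P z 1 0 ∧ τ * z = y := by
    intro τ p h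
    obtain ⟨z, hz, e⟩ := sq h
    refine ⟨τ * z, z, ⟨⟨_, tm h hz⟩, ?_⟩, hz, rfl⟩
    calc S * (τ * z) * S⁻¹ = S * τ * (z * S⁻¹) := by group
      _ = (S * τ * S⁻¹) * z := by rw [hcen z hz]; group
      _ = τ * (τ * z) * z := by rw [e]; group
      _ = τ * (z * τ) * z := by rw [← hcen z hz τ]
      _ = _ := by group
  refine ⟨fun q => ∃ l, Sl l ∧ ∃ y, R y ∧ q = s0 l * y, ⟨1, Sl.one, 1, ⟨⟨0, P1⟩, by group⟩,
    by rw [s1, mul_one]⟩, ?_, ?_⟩
  · rintro q τ p l hl ⟨m, hm, y, hy, rfl⟩ hτ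
    obtain ⟨y1, z, hy1, hz, e⟩ := Rex hτ
    have a1 := Rc (hinv _ _ _ (hs0 l hl)) hy1
    have a2 := Rc (hinv _ _ _ (hs0 m hm)) (Rm a1 (Ri hy1))
    refine ⟨l * m, hl.mul hm, _, Rm a2 hy, ?_⟩
    rw [hs1 l m hl hm, ← e]
    calc τ * s0 l * τ⁻¹ * (s0 m * y) = τ * (s0 l * z) * z⁻¹ * τ⁻¹ * (s0 m * y) := by group
      _ = _ := by rw [← hcen z hz]; group
  · rintro q ⟨l, hl, y, ⟨⟨a, ha⟩, e⟩, rfl⟩ hq
    obtain ⟨rfl, -⟩ := huniq _ _ _ _ _ hq (cg (hmul _ _ _ _ _ _ (hs0 l hl) ha) (mul_one l) rfl)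
    rw [s1, one_mul] at hq ⊢
    rw [← hcen y hq, mul_assoc, mul_inv_cancel, mul_one] at e
    exact mul_eq_left.1 e.symm

def K : Subgroup G where
  carrier := {g | ∃ a b, Supp a b g}
  one_mem' := ⟨0, 0, Supp.one _ _⟩
  mul_mem' := by
    rintro g h ⟨a, b, hg⟩ ⟨c, d, hh⟩
    exact ⟨min a c, max b d, (hg.mono (min_le_left _ _) (le_max_left _ _)).mul
      (hh.mono (min_le_right _ _) (le_max_right _ _))⟩
  inv_mem' := by
    rintro g ⟨a, b, hg⟩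
    exact ⟨a, b, hg.inv⟩

instance : K.Normal := ⟨by
  rintro g ⟨a, b, hg⟩ s
  exact ⟨_, _, hg.conj s⟩⟩

theorem comm2 {a b : ℝ} {k h : G} (hab : a ≤ b) (hk : Supp a b k)
    (hh : ∀ t, a ≤ t → t ≤ b → h t = t) : h * k = k * h := by
  apply ext
  intro t
  simp only [mul_ap]
  rcases le_total t a with h1 | h1
  · have := mono h h1
    rw [hh a le_rfl hab] at this
    rw [hk t (Or.inl h1), hk _ (Or.inl this)]
  rcases le_total b t with h2 | h2
  · have := mono h h2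
    rw [hh b hab le_rfl] at this
    rw [hk t (Or.inr h2), hk _ (Or.inr this)]
  · have e1 := mono k h1
    have e2 := mono k h2
    rw [hk a (Or.inl le_rfl)] at e1
    rw [hk b (Or.inr le_rfl)] at e2
    rw [hh t h1 h2, hh _ e1 e2]

def Germ (g : G) (l b : ℝ) : Prop :=
  (Sl l ∧ b ∈ D) ∧ (∃ a, ∀ t, t ≤ a → g t = t) ∧ ∃ c, ∀ t, c ≤ t → g t = l * t + b

theorem exists_big (x y z : ℝ) : ∃ L ∈ D, 0 < L ∧ -L < x ∧ x < L ∧ -L < y ∧ y < L ∧
    -L < z ∧ z < L := by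
  obtain ⟨n, hn⟩ := exists_nat_gt (|x| + |y| + |z|)
  have := abs_nonneg x; have := abs_nonneg y; have := abs_nonneg z
  have := le_abs_self x; have := le_abs_self y; have := le_abs_self z
  have := neg_abs_le x; have := neg_abs_le y; have := neg_abs_le z
  refine ⟨n, natCast_mem _ n, ?_, ?_, ?_, ?_, ?_, ?_, ?_⟩ <;> linarith

theorem exists_tau (p : ℝ) (hp : p ∈ D) : ∃ τ : G, Germ τ 1 p ∧ ∀ t, 0 ≤ t → τ t = t + p := by
  obtain ⟨L, hL, h0, h2, -⟩ := exists_big p p p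
  have h1 : -L < 0 := by linarith
  obtain ⟨l, l1, l2⟩ := exists_interp h1 h2 (neg_mem hL) (zero_mem _) (neg_mem hL) hp
  obtain ⟨k1, a1, a2⟩ := glue l (tr p) 0 (zero_mem _) (by simp [l2, tr_ap hp])
  obtain ⟨k, b1, b2⟩ := glue 1 k1 (-L) (neg_mem hL) (by rw [a1 _ h1.le, l1, one_ap])
  have : ∀ t, 0 ≤ t → k t = t + p := fun t ht => by rw [b2 t (by linarith), a2 t ht, tr_ap hp]
  exact ⟨k, ⟨⟨Sl.one, hp⟩, ⟨_, b1⟩, 0, fun t ht => by rw [this t ht]; ring⟩, this⟩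

theorem perfect (g : G) (hg : g ∈ K) : g ∈ ⁅K, K⁆ := by
  have hsg : ∀ l : ℝ, ∃ g : G, Sl l → (∀ t, t ≤ 0 → g t = t) ∧ ∀ t, 0 ≤ t → g t = l * t := by
    intro l
    by_cases hl : Sl l
    · obtain ⟨k, k1, k2⟩ := exists_sig 0 l (zero_mem _) hl
      exact ⟨k, fun _ => ⟨k1, fun t ht => by rw [k2 t ht]; ring⟩⟩
    · exact ⟨1, fun h => absurd h hl⟩
  choose sg hsg using hsg
  let π : G →* G ⧸ ⁅K, K⁆ := QuotientGroup.mk' _
  have hker : ∀ x, π x = 1 ↔ x ∈ ⁅K, K⁆ := fun x => QuotientGroup.eq_one_iff x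
  have hNK : ⁅K, K⁆ ≤ K := Subgroup.commutator_le_left _ _
  obtain ⟨M, M1, M2, M3⟩ := abs_perf (fun q l b => ∃ g, π g = q ∧ Germ g l b) (fun l => π (sg l))
    (by
      rintro _ _ l b l' b' ⟨x, rfl, h1, ⟨a, h2⟩, c, h3⟩ ⟨y, rfl, h4, ⟨a', h5⟩, c', h6⟩
      refine ⟨x * y, map_mul _ _ _, ⟨h1.1.mul h4.1, add_mem (mul_mem h1.1.mem h4.2) h1.2⟩, ⟨min a a', fun t ht => ?_⟩,
        max c' (y⁻¹ c), fun t ht => ?_⟩
      · rw [mul_ap, h5 t (le_trans ht (min_le_right _ _)), h2 t (le_trans ht (min_le_left _ _))]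
      · rw [mul_ap, h3 _ (inv_le.1 (le_trans (le_max_right _ _) ht)),
          h6 t (le_trans (le_max_left _ _) ht)]; ring)
    (by
      rintro _ l b ⟨x, rfl, h1, ⟨a, h2⟩, c, h3⟩
      refine ⟨x⁻¹, map_inv _ _, ⟨h1.1.inv, div_eq_mul_inv (-b) l ▸ mul_mem (neg_mem h1.2)
        h1.1.inv.mem⟩, ⟨a, fun t ht => inv_eq (h2 t ht)⟩, x c, fun t ht => ?_⟩
      have h1 := h1.1.pos
      have := h3 _ (le_inv.2 ht)
      rw [ap_inv] at this
      have e : x⁻¹ t = (t - b) / l := by rw [eq_div_iff h1.ne']; linarith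
      rw [e]; field_simp; ring)
    (by rintro _ l b ⟨x, rfl, h1, -⟩; exact h1.1.pos)
    (by
      rintro _ ⟨k, rfl, -, ⟨a, h2⟩, c, h3⟩ q
      obtain ⟨x, rfl⟩ := QuotientGroup.mk'_surjective _ q
      obtain ⟨L, hL, l0, l1, -, -, l2, -⟩ := exists_big a c c
      have hk : Supp (-L) L k := by
        rintro t (h | h)
        · exact h2 t (by linarith)
        · rw [h3 t (by linarith)]; ring
      obtain ⟨L', hL', -, m1, m2, m3, -, -, m4⟩ := exists_big L (x (-L)) (x L)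
      obtain ⟨x', h4, h5⟩ := agree x (x := -L') (y := L') (a := -L) (b := L) (by linarith)
        (by linarith) m2 m3 m4 (neg_mem hL') hL' (neg_mem hL) hL
      have h6 := comm2 (h := x'⁻¹ * x) (by linarith) hk
        (fun t e1 e2 => by rw [mul_ap, ← h5 t e1 e2, inv_ap])
      have h7 : π ⁅k, x'⁆ = 1 :=
        (hker _).2 (Subgroup.commutator_mem_commutator ⟨_, _, hk⟩ ⟨_, _, h4⟩)
      have h8 : k * x = ⁅k, x'⁆ * (x * k) := by
        calc k * x = ⁅k, x'⁆ * x' * (k * (x'⁻¹ * x)) := by rw [commutatorElement_def]; group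
          _ = _ := by rw [← h6]; group
      show π k * π x = π x * π k
      rw [← map_mul, h8, map_mul, h7, one_mul, map_mul])
    (by
      rintro _ l b l' b' ⟨x, rfl, -, -, c, h3⟩ ⟨y, h, -, -, c', h6⟩
      obtain ⟨u, v, huv⟩ := hNK ((hker (x⁻¹ * y)).1 (by rw [map_mul, map_inv, h, inv_mul_cancel]))
      have key : ∀ t, max v (max c c') ≤ t → l * t + b = l' * t + b' := fun t ht => by
        have e1 := huv t (Or.inr (le_trans (le_max_left _ _) ht))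
        rw [mul_ap] at e1
        have e2 : y t = x t := by rw [← ap_inv x (y t), e1]
        rw [← h3 t (le_trans (le_trans (le_max_left _ _) (le_max_right _ _)) ht),
          ← h6 t (le_trans (le_trans (le_max_right _ _) (le_max_right _ _)) ht), e2]
      have k1 := key _ le_rfl
      have k2 := key (max v (max c c') + 1) (by linarith)
      have : l = l' := by linarith
      subst this
      exact ⟨rfl, by linarith⟩)
    (fun l hl => ⟨sg l, rfl, ⟨hl, zero_mem _⟩, ⟨0, (hsg l hl).1⟩, 0, fun t ht => by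
      rw [(hsg l hl).2 t ht, add_zero]⟩)
    (by
      intro l m hl hm
      rw [← map_mul]
      congr 1
      apply ext
      intro t
      rcases le_total t 0 with h | h
      · rw [mul_ap, (hsg m hm).1 t h, (hsg l hl).1 t h, (hsg _ (hl.mul hm)).1 t h]
      · rw [mul_ap, (hsg m hm).2 t h, (hsg l hl).2 _ (mul_nonneg hm.pos.le h),
          (hsg _ (hl.mul hm)).2 t h]; ring)
    (by rintro _ l b ⟨x, rfl, h1, -⟩; exact h1.2)
    (fun a ha => by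
      obtain ⟨τ, h, -⟩ := exists_tau a ha
      exact ⟨_, τ, rfl, h⟩)
  have step : ∀ x s s' (m : G), x ∈ D → Sl s → Sl s' → M (π m) → (∀ t, t ≤ x → m t = g t) →
      (∀ t, x ≤ t → m t = g x + s * (t - x)) → ∃ m' : G, M (π m') ∧ (∀ t, t ≤ x → m' t = g t) ∧
      ∀ t, x ≤ t → m' t = g x + s' * (t - x) := by
    intro x s s' m hx hs hs' hM h1 h2
    obtain ⟨τ, h3, h4⟩ := exists_tau (g x) (ap_mem g hx)
    have hl : Sl (s' / s) := div_eq_mul_inv s' s ▸ hs'.mul hs.inv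
    have hs := hs.pos
    refine ⟨τ * sg (s' / s) * τ⁻¹ * m, ?_, fun t ht => ?_, fun t ht => ?_⟩
    · simp only [map_mul, map_inv]
      exact M2 _ _ _ _ hl hM ⟨τ, rfl, h3⟩
    · simp only [mul_ap]
      rw [h1 t ht, (hsg _ hl).1 _ (inv_le.2 (by rw [h4 0 le_rfl, zero_add]; exact mono g ht)),
        ap_inv]
    · simp only [mul_ap]
      have e0 : 0 ≤ s * (t - x) := mul_nonneg hs.le (by linarith)
      have e1 : τ⁻¹ (m t) = s * (t - x) := inv_eq (by rw [h4 _ e0, h2 t ht]; ring)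
      rw [e1, (hsg _ hl).2 _ e0, h4 _ (mul_nonneg hl.pos.le e0)]
      field_simp; ring
  obtain ⟨a, b, hab⟩ := hg
  obtain ⟨L, hL, l0, l1, -, -, l2, -⟩ := exists_big a b b
  have hab' : Supp (-L) L g := hab.mono l1.le l2.le
  have main := plInd g (fun x => ∃ m : G, M (π m) ∧ (∀ t, t ≤ x → m t = g t) ∧
      ∃ s, Sl s ∧ ∀ t, x ≤ t → m t = g x + s * (t - x)) (show -L ≤ L by linarith)
    ⟨1, by rw [map_one]; exact M1, fun t ht => by rw [hab' t (Or.inl ht), one_ap], 1, Sl.one,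
      fun t _ => by rw [hab' _ (Or.inl le_rfl), one_ap]; ring⟩
    (by
      rintro x y hxy ⟨s', c', e3, -, hs'⟩ ⟨m, h1, h2, s, h3, h4⟩
      rcases hxy.eq_or_lt with rfl | hxy
      · exact ⟨m, h1, h2, s, h3, h4⟩
      have e1 := hs' x le_rfl hxy.le
      have e2 := hs' y hxy.le le_rfl
      obtain ⟨m', k1, k2, k3⟩ : ∃ m' : G, M (π m') ∧ (∀ t, t ≤ x → m' t = g t) ∧
          ∀ t, x ≤ t → m' t = g x + s' * (t - x) := by
        by_cases hx : x ∈ D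
        · exact step x s s' m hx h3 e3 h1 h2 h4
        obtain ⟨y1, z1, a1, a2, s1, c1, -, -, a3⟩ := aff2 g hx
        obtain ⟨y2, z2, b1, b2, s2, c2, -, -, b3⟩ := aff2 m hx
        have c1' : max y1 y2 < x := max_lt a1 b1
        have d1 : s1 = s2 := (aff_eq c1'.ne (by
          rw [← a3 _ (le_max_left _ _) (by linarith), ← b3 _ (le_max_right _ _) (by linarith),
            h2 _ c1'.le]) (by rw [← a3 _ a1.le a2.le, ← b3 _ b1.le b2.le, h2 _ le_rfl])).1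
        have c2' : x < min z1 y := lt_min a2 hxy
        have d2 : s1 = s' := (aff_eq c2'.ne (by rw [← a3 _ a1.le a2.le, e1]) (by
          rw [← a3 _ (by linarith) (min_le_left _ _), hs' _ c2'.le (min_le_right _ _)])).1
        have d3 : s2 = s := (aff_eq (c' := g x - s * x) b2.ne (by
          rw [← b3 _ b1.le b2.le, h2 _ le_rfl]; ring) (by
          rw [← b3 _ (by linarith) le_rfl, h4 _ b2.le]; ring)).1
        exact ⟨m, h1, h2, fun t ht => by rw [h4 t ht, ← d3, ← d1, d2]⟩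
      refine ⟨m', k1, fun t ht => ?_, s', e3, fun t ht => ?_⟩
      · rcases le_total t x with h | h
        · exact k2 t h
        · rw [k3 t h, hs' t h ht, e1]; ring
      · rw [k3 t (by linarith), e2, e1]; ring)
  obtain ⟨m, h1, h2, s, h3, h4⟩ := main
  obtain ⟨m', k1, k2, k3⟩ := step _ s 1 m hL h3 Sl.one h1 h2 h4
  have e : m' = g := by
    apply ext
    intro t
    rcases le_total t L with h | h
    · exact k2 t h
    · rw [k3 t h, hab' t (Or.inr h), hab' _ (Or.inr le_rfl)]; ring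
  rw [e] at k1
  exact (hker g).1 (M3 _ k1 ⟨g, rfl, ⟨Sl.one, zero_mem _⟩, ⟨a, fun t ht => hab t (Or.inl ht)⟩, b,
    fun t ht => by rw [hab t (Or.inr ht)]; ring⟩)

theorem squeeze {x y x' y' : ℝ} (L : ℝ) (hxy : x ≤ y) (h1 : x' < x) (h2 : y < y') :
    ∃ γ : G, (∀ t, x ≤ t → t ≤ y → γ t = t) ∧ x' < γ (-L) ∧ γ L < y' := by
  obtain ⟨x1, d1, a1, a2⟩ := exists_dy h1
  obtain ⟨x2, d2, a3, a4⟩ := exists_dy a2
  obtain ⟨y1, d3, a5, a6⟩ := exists_dy h2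
  obtain ⟨y2, d4, a7, a8⟩ := exists_dy a5
  obtain ⟨L', hL, -, c1, c2, c3, -, -, c4⟩ := exists_big L x2 y2
  obtain ⟨l, l1, l2⟩ := exists_interp c3 a3 (neg_mem hL) d2 d1 d2
  obtain ⟨r, r1, r2⟩ := exists_interp c4 a8 d4 hL d4 d3
  obtain ⟨k1, e1, e2⟩ := glue 1 r y2 d4 (by rw [r1, one_ap])
  obtain ⟨γ, b1, b2⟩ := glue l k1 x2 d2 (by rw [l2, e1 x2 (by linarith), one_ap])
  have g1 : γ (-L') = x1 := by rw [b1 _ c3.le, l1]
  have g2 : γ L' = y1 := by rw [b2 _ (by linarith), e2 _ c4.le, r2]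
  refine ⟨γ, fun t e3 e4 => by rw [b2 t (by linarith), e1 t (by linarith), one_ap], ?_, ?_⟩
  · linarith [mono γ (show -L' ≤ -L by linarith)]
  · linarith [mono γ c2.le]

theorem Supp.commutator {a b : ℝ} {g h : G} (hg : Supp a b g) (hh : Supp a b h) :
    Supp a b ⁅g, h⁆ := by
  rw [commutatorElement_def]; exact ((hg.mul hh).mul hg.inv).mul hh.inv

theorem twoComm {g : G} {x y d e : ℝ} (hg : Supp x y g) (hxy : x ≤ y) (hd : d < x) (he : y < e)
    (dd : d ∈ D) (de : e ∈ D) :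
    ∃ A B Y s : G, Supp d e A ∧ Supp d e B ∧ Supp d e Y ∧ Supp d e s ∧ g = ⁅A, B⁆ * ⁅Y, s⁆ := by
  obtain ⟨x', dx, hx1, hx2⟩ := exists_dy hd
  obtain ⟨y', dy, hy1, hy2⟩ := exists_dy he
  have dz := sub_mem dy dx
  obtain ⟨s, hs1, hs2⟩ := agree (tr (y' - x')) (x := d) (y := e) (le_refl x') hx1 (by linarith)
    (by rw [tr_ap dz]; linarith) (by rw [tr_ap dz]; linarith) dd de dx dx
  have hs3 : s x' = y' := by simpa [tr_ap dz] using hs2 x' le_rfl le_rfl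
  have hs4 : s e = e := hs1 e (Or.inr le_rfl)
  let W : G → Prop := fun g => Supp x' y' g ∧
    ∃ A B Y : G, Supp x' e A ∧ Supp x' e B ∧ Supp x' e Y ∧ g = ⁅A, B⁆ * ⁅Y, s⁆
  have W1 : W 1 := ⟨Supp.one _ _, 1, 1, 1, Supp.one _ _, Supp.one _ _, Supp.one _ _, by simp⟩
  have Wm : ∀ a b g', Supp x' y' a → Supp x' y' b → W g' → W (⁅a, b⁆ * g') := by
    rintro a b g' ha hb ⟨hg', A, B, Y, hA, hB, hY, eg⟩
    have cA := hA.conj s
    have cB := hB.conj s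
    have cY := hY.conj s
    rw [hs3, hs4] at cA cB cY
    have hle : x' ≤ y' := by linarith
    refine ⟨(ha.commutator hb).mul hg', a * (s * A * s⁻¹), b * (s * B * s⁻¹), g' * (s * Y * s⁻¹),
      (ha.mono le_rfl hy2.le).mul (cA.mono hle le_rfl),
      (hb.mono le_rfl hy2.le).mul (cB.mono hle le_rfl),
      (hg'.mono le_rfl hy2.le).mul (cY.mono hle le_rfl), ?_⟩
    have e1 : s * g' * s⁻¹ = ⁅s * A * s⁻¹, s * B * s⁻¹⁆ * ⁅s * Y * s⁻¹, s⁆ := by
      rw [eg]; simp only [commutatorElement_def]; group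
    generalize s * A * s⁻¹ = A' at *
    generalize s * B * s⁻¹ = B' at *
    generalize s * Y * s⁻¹ = Y' at *
    have e2 : ⁅a * A', b * B'⁆ = ⁅a, b⁆ * ⁅A', B'⁆ := by
      have c1 := hb.comm cA le_rfl
      have c2 := ha.inv.comm ((cA.mul cB).mul cA.inv) le_rfl
      have c3 := hb.inv.comm (cA.commutator cB) le_rfl
      simp only [commutatorElement_def] at c3 ⊢
      calc a * A' * (b * B') * (a * A')⁻¹ * (b * B')⁻¹
          = a * (A' * b) * B' * A'⁻¹ * a⁻¹ * B'⁻¹ * b⁻¹ := by group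
        _ = a * b * (A' * B' * A'⁻¹ * a⁻¹) * B'⁻¹ * b⁻¹ := by rw [← c1]; group
        _ = a * b * a⁻¹ * (A' * B' * A'⁻¹ * B'⁻¹ * b⁻¹) := by rw [← c2]; group
        _ = _ := by rw [← c3]; group
    have c4 := hg'.comm (cA.commutator cB) le_rfl
    have e3 : ⁅g' * Y', s⁆ = g' * ⁅Y', s⁆ * (s * g' * s⁻¹)⁻¹ := by
      simp only [commutatorElement_def]; group
    rw [e2, e3, e1]
    calc ⁅a, b⁆ * g' = ⁅a, b⁆ * (g' * ⁅A', B'⁆) * ⁅A', B'⁆⁻¹ := by group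
      _ = _ := by rw [c4]; group
  have key : ∀ n ∈ ⁅K, K⁆, ∃ L, ∀ γ : G, x' ≤ γ (-L) → γ L ≤ y' → W (γ * n * γ⁻¹) := by
    have one : ∀ a b n, a ∈ K → b ∈ K →
        (∃ L, ∀ γ : G, x' ≤ γ (-L) → γ L ≤ y' → W (γ * n * γ⁻¹)) →
        ∃ L, ∀ γ : G, x' ≤ γ (-L) → γ L ≤ y' → W (γ * (⁅a, b⁆ * n) * γ⁻¹) := by
      rintro a b n ⟨a1, a2, ha⟩ ⟨b1, b2, hb⟩ ⟨L, hL⟩
      obtain ⟨L', h1, h2, h3, h4, h5⟩ : ∃ L', L ≤ L' ∧ -L' ≤ a1 ∧ -L' ≤ b1 ∧ a2 ≤ L' ∧ b2 ≤ L' :=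
        ⟨|L| + |a1| + |b1| + |a2| + |b2|, by
          have := abs_nonneg L; have := abs_nonneg a1; have := abs_nonneg b1
          have := abs_nonneg a2; have := abs_nonneg b2
          have := le_abs_self L; have := neg_abs_le a1; have := neg_abs_le b1
          have := le_abs_self a2; have := le_abs_self b2
          refine ⟨?_, ?_, ?_, ?_, ?_⟩ <;> linarith⟩
      refine ⟨L', fun γ g1 g2 => ?_⟩
      have := Wm _ _ _ (((ha.mono h2 h4).conj γ).mono g1 g2) (((hb.mono h3 h5).conj γ).mono g1 g2)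
        (hL γ (le_trans g1 (mono γ (by linarith))) (le_trans (mono γ h1) g2))
      have e : γ * (⁅a, b⁆ * n) * γ⁻¹ = ⁅γ * a * γ⁻¹, γ * b * γ⁻¹⁆ * (γ * n * γ⁻¹) := by
        simp only [commutatorElement_def]; group
      rwa [e]
    intro n hn
    rw [Subgroup.commutator_def] at hn
    induction hn using Subgroup.closure_induction_left with
    | one => exact ⟨0, fun γ _ _ => by simpa using W1⟩
    | mul_left c hc n _ ih =>
      obtain ⟨a, ha, b, hb, rfl⟩ := hc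
      exact one a b n ha hb ih
    | inv_mul_cancel c hc n _ ih =>
      obtain ⟨a, ha, b, hb, rfl⟩ := hc
      rw [commutatorElement_inv]
      exact one b a n hb ha ih
  obtain ⟨L, hL⟩ := key g (perfect g ⟨_, _, hg⟩)
  obtain ⟨γ, g0, g1, g2⟩ := squeeze L hxy hx2 hy1
  have g3 := comm2 (h := γ) hxy hg g0
  obtain ⟨-, A, B, Y, hA, hB, hY, eg⟩ := hL γ g1.le g2.le
  rw [g3, mul_assoc, mul_inv_cancel, mul_one] at eg
  exact ⟨A, B, Y, s, hA.mono hx1.le le_rfl, hB.mono hx1.le le_rfl, hY.mono hx1.le le_rfl, hs1, eg⟩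

end Pool.Agent.H.MP_3d8b4c_al
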