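import Pool.Agent.H.MP_3d8b4c_al.V4

open Filter Topology Set
open scoped commutatorElement

namespace Pool.Agent.H.MP_3d8b4c_al

theorem dy_ev {p : ℝ} (hp : p ∈ D) : ∀ᶠ N in atTop, ∀ x y, fl N y = fl N x → (p ≤ x ↔ p ≤ y) := by
  obtain ⟨m, e, rfl⟩ := hp
  filter_upwards [eventually_ge_atTop e] with N hN x y h
  have h1 := fl_lev hN h
  have hp : (0 : ℝ) < 2 ^ e := by positivity
  rw [div_le_iff₀ hp, div_le_iff₀ hp, ← Int.le_floor, ← Int.le_floor]
  simp only [fl] at h1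
  rw [h1]

def Gen : Set (Equiv.Perm ℝ) := {σ : Equiv.Perm ℝ |
  (∀ x : ℝ, x ∉ Set.Ico (0:ℝ) 1 → σ x = x) ∧
  ∃ n : ℕ, ∃ a : ℕ → ℝ, ∃ k : ℕ → ℤ, ∃ c : ℕ → ℝ,
    a 0 = 0 ∧ a n = 1 ∧ (∀ i < n, a i < a (i + 1)) ∧
    (∀ i ≤ n, ∃ m : ℤ, ∃ e : ℕ, a i = (m : ℝ) / 2 ^ e) ∧
    (∀ i < n, ∃ m : ℤ, ∃ e : ℕ, c i = (m : ℝ) / 2 ^ e) ∧
    ∀ i < n, ∀ x ∈ Set.Ico (a i) (a (i + 1)), σ x = (2:ℝ) ^ (k i) * x + c i}

theorem gen_eq : Subgroup.closure Gen = VG := by
  classical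
  apply le_antisymm
  · rw [Subgroup.closure_le]
    rintro σ ⟨h0, n, a, k, c, a0, a1, -, a3, a4, a5⟩
    refine ⟨h0, ?_⟩
    have : ∀ i ∈ Finset.range (n + 1), ∀ᶠ N in atTop, ∀ x y, fl N y = fl N x →
        (a i ≤ x ↔ a i ≤ y) := fun i hi => dy_ev (a3 i (by simpa [Nat.lt_succ_iff] using hi))
    filter_upwards [(eventually_all_finset _).2 this] with N hN x hx
    have hex : ∃ i, x < a i := ⟨n, a1 ▸ hx.2⟩
    obtain ⟨i, hi⟩ := Nat.exists_eq_add_one_of_ne_zero (n := Nat.find hex) fun e => by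
      have := Nat.find_spec hex
      rw [e, a0] at this
      exact absurd hx.1 (not_le.2 this)
    have b1 : x < a (i + 1) := hi ▸ Nat.find_spec hex
    have b2 : a i ≤ x := not_lt.1 (Nat.find_min hex (by omega))
    have b3 : i + 1 ≤ n := hi ▸ Nat.find_min' hex (a1 ▸ hx.2)
    refine ⟨_, _, ⟨k i, rfl⟩, a4 i b3, fun y e => a5 i b3 y ⟨?_, ?_⟩⟩
    · exact (hN i (by simp; omega) x y e).1 b2
    · exact not_le.1 fun h => absurd ((hN (i + 1) (by simp; omega) x y e).2 h) (not_le.2 b1)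
  · rintro σ ⟨h0, h1⟩
    apply Subgroup.subset_closure
    obtain ⟨N, hN⟩ := h1.exists
    have hp : (0 : ℝ) < 2 ^ N := by positivity
    have key : ∀ i : ℕ, ∃ (k : ℤ) (c : ℝ), i < 2 ^ N → c ∈ D ∧
        ∀ x ∈ Ico ((i : ℝ) / 2 ^ N) (((i + 1 : ℕ) : ℝ) / 2 ^ N), σ x = 2 ^ k * x + c := by
      intro i
      by_cases hi : i < 2 ^ N
      · obtain ⟨s, c, ⟨k, rfl⟩, b2, b3⟩ := hN (i / 2 ^ N) ⟨by positivity, by
          rw [div_lt_one hp]; exact_mod_cast hi⟩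
        refine ⟨k, c, fun _ => ⟨b2, fun x hx => b3 x ?_⟩⟩
        obtain ⟨c1, c2⟩ := hx
        rw [div_le_iff₀ hp] at c1
        rw [lt_div_iff₀ hp] at c2
        rw [show fl N (i / 2 ^ N) = i from fl_eq.2 (by simp [div_mul_cancel₀ _ hp.ne']), fl_eq]
        push_cast at c2 ⊢
        exact ⟨c1, c2⟩
      · exact ⟨0, 0, fun h => absurd h hi⟩
    choose k c hk using key
    refine ⟨h0, 2 ^ N, fun i => i / 2 ^ N, k, c, by simp, by simp, fun i _ => ?_,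
      fun i _ => ⟨i, N, by simp⟩, fun i hi => (hk i hi).1, fun i hi => (hk i hi).2⟩
    apply div_lt_div_of_pos_right _ hp
    push_cast; linarith

def toP : G →* Equiv.Perm ℝ where
  toFun g := g.1.toEquiv
  map_one' := rfl
  map_mul' _ _ := rfl

theorem toP_ap (g : G) (t : ℝ) : toP g t = g t := rfl

theorem G_la (g : G) : LA g I := by
  refine LA.mono (A := Icc 0 1) ?_ Ico_subset_Icc_self
  refine isCompact_Icc.induction_on (p := LA g) (Eventually.of_forall fun _ _ h => h.elim)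
    (fun s t h h' => h'.mono h) (fun s t => LA.union) fun x _ => ?_
  obtain ⟨y, z, a1, a2, a3, a4, a5⟩ : ∃ y z, y < x ∧ x < z ∧ AffOn g y x ∧ AffOn g x z ∧
      (x ∈ D ∨ AffOn g y z) := by
    by_cases h : x ∈ D
    · obtain ⟨z, b1, b2⟩ := affR g x
      obtain ⟨y, b3, b4⟩ := affL g x
      exact ⟨y, z, b3, b1, b4 y le_rfl b3.le, b2, Or.inl h⟩
    · obtain ⟨y, z, b1, b2, s, c, b3, b4, b5⟩ := aff2 g h
      exact ⟨y, z, b1, b2, ⟨s, c, b3, b4, fun t e1 e2 => b5 t e1 (by linarith)⟩,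
        ⟨s, c, b3, b4, fun t e1 e2 => b5 t (by linarith) e2⟩, Or.inr ⟨s, c, b3, b4, b5⟩⟩
  obtain ⟨p, dp, p1, p2⟩ := exists_dy a1
  obtain ⟨q, dq, q1, q2⟩ := exists_dy a2
  refine ⟨Ico p q, mem_nhdsWithin_of_mem_nhds (Ico_mem_nhds p2 q1), ?_⟩
  rcases a5 with h | ⟨s, c, b1, b2, b3⟩
  · filter_upwards [dy_ev dp, dy_ev dq, dy_ev h] with N h1 h2 h3 t ht
    rcases le_or_gt x t with e | e
    · obtain ⟨s, c, b1, b2, b3⟩ := a4
      exact ⟨s, c, b1, b2, fun u e' => b3 u ((h3 t u e').1 e)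
        (by linarith [not_le.1 fun h => absurd ((h2 t u e').2 h) (not_le.2 ht.2)])⟩
    · obtain ⟨s, c, b1, b2, b3⟩ := a3
      exact ⟨s, c, b1, b2, fun u e' => b3 u (by linarith [(h1 t u e').1 ht.1])
        (not_le.1 fun h => absurd ((h3 t u e').2 h) (not_le.2 e)).le⟩
  · filter_upwards [dy_ev dp, dy_ev dq] with N h1 h2 t ht
    exact ⟨s, c, b1, b2, fun u e' => b3 u (by linarith [(h1 t u e').1 ht.1])
      (by linarith [not_le.1 fun h => absurd ((h2 t u e').2 h) (not_le.2 ht.2)])⟩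

def K01 : Subgroup G where
  carrier := {g | Supp 0 1 g}
  one_mem' := Supp.one _ _
  mul_mem' := Supp.mul
  inv_mem' := Supp.inv

theorem notI {x : ℝ} (h : x ∉ I) : x ≤ 0 ∨ 1 ≤ x := by
  simp only [I, mem_Ico, not_and_or, not_le, not_lt] at h
  exact h.imp le_of_lt id

theorem toP_V {g : G} (h : g ∈ K01) : toP g ∈ VG := ⟨fun x hx => h x (notI hx), G_la g⟩

theorem toG {σ : Equiv.Perm ℝ} (h : σ ∈ VG) (hm : StrictMonoOn σ I) : ∃ g ∈ K01, toP g = σ := by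
  have hI : ∀ x ∈ I, σ x ∈ I := fun x hx => perm_I h.1 hx
  have o1 : ∀ x, x < 0 → σ x = x := fun x hx => h.1 x fun e => by linarith [e.1]
  have o2 : ∀ x, 1 ≤ x → σ x = x := fun x hx => h.1 x fun e => by linarith [e.2]
  have sm : StrictMono σ := fun s t hst => by
    rcases lt_or_ge s 0 with a | a
    · rw [o1 s a]
      rcases lt_or_ge t 0 with b | b
      · rwa [o1 t b]
      rcases lt_or_ge t 1 with c | c
      · linarith [(hI t ⟨b, c⟩).1]
      · rwa [o2 t c]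
    rcases lt_or_ge t 1 with c | c
    · exact hm ⟨a, by linarith⟩ ⟨by linarith, c⟩ hst
    rw [o2 t c]
    rcases lt_or_ge s 1 with b | b
    · linarith [(hI s ⟨a, b⟩).2]
    · rwa [o2 s b]
  have ct : Continuous σ := (sm.orderIsoOfSurjective σ σ.surjective).continuous
  obtain ⟨N, hN⟩ := h.2.exists
  have hN' : ∀ x, Loc σ N x := fun x => by
    by_cases hx : x ∈ I
    · exact hN x hx
    · exact ⟨1, 0, Sl.one, zero_mem _, fun y e => by rw [h.1 y fun h => hx (fl_I e.symm h)]; ring⟩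
  have hp : (0 : ℝ) < 2 ^ N := by positivity
  obtain ⟨g, hg⟩ := mk_G σ sm σ.surjective fun x => by
    obtain ⟨s, c, a1, a2, a3⟩ := hN' x
    obtain ⟨b1, b2⟩ := (fl_eq (n := N) (x := x)).1 rfl
    have r : ∀ᶠ t in 𝓝[≥] x, σ t = s * t + c := by
      filter_upwards [self_mem_nhdsWithin, mem_nhdsWithin_of_mem_nhds
        (Iio_mem_nhds ((lt_div_iff₀ hp).2 b2))] with t e1 e2
      exact a3 t (fl_eq.2 ⟨le_trans b1 (mul_le_mul_of_nonneg_right e1 hp.le),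
        (lt_div_iff₀ hp).1 e2⟩)
    rcases b1.eq_or_lt with b1 | b1
    · obtain ⟨s', c', d1, d2, d3⟩ := hN' ((fl N x - 1) / 2 ^ N)
      have l : ∀ᶠ t in 𝓝[<] x, σ t = s' * t + c' := by
        filter_upwards [self_mem_nhdsWithin, mem_nhdsWithin_of_mem_nhds
          (Ioi_mem_nhds ((div_lt_iff₀ hp).2 (show (fl N x : ℝ) - 1 < x * 2 ^ N by linarith)))]
          with t e1 e2
        refine d3 t ?_
        rw [show fl N ((fl N x - 1) / 2 ^ N) = fl N x - 1 from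
          fl_eq.2 (by simp [div_mul_cancel₀ _ hp.ne']), fl_eq]
        push_cast
        exact ⟨((div_lt_iff₀ hp).1 e2).le, by
          have := mul_lt_mul_of_pos_right (show t < x from e1) hp; linarith⟩
      have e : σ x = s' * x + c' := tendsto_nhds_unique
        ((ct.tendsto x).mono_left (nhdsWithin_le_nhds (s := Iio x)))
        (((by fun_prop : Continuous fun t => s' * t + c').tendsto x).mono_left nhdsWithin_le_nhds
          |>.congr' (l.mono fun t h => h.symm))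
      refine ⟨s, c, s', c', a1, d1, a2, d2, r, ?_, Or.inl ⟨fl N x, N, by rw [b1]; field_simp⟩⟩
      rw [← Iio_union_right, nhdsWithin_union, eventually_sup, nhdsWithin_singleton]
      exact ⟨l, e⟩
    · refine ⟨s, c, s, c, a1, a1, a2, a2, r, ?_, Or.inr ⟨rfl, rfl⟩⟩
      filter_upwards [self_mem_nhdsWithin, mem_nhdsWithin_of_mem_nhds
        (Ioi_mem_nhds ((div_lt_iff₀ hp).2 b1))] with t e1 e2
      exact a3 t (fl_eq.2 ⟨((div_lt_iff₀ hp).1 e2).le,
        lt_of_le_of_lt (mul_le_mul_of_nonneg_right e1 hp.le) b2⟩)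
  refine ⟨g, fun t ht => ?_, Equiv.ext hg⟩
  rw [hg]
  rcases ht with ht | ht
  · rcases ht.eq_or_lt with rfl | ht
    · have a := perm_I (inv_mem h).1 (show (0 : ℝ) ∈ I from ⟨le_rfl, one_pos⟩)
      have b := sm.monotone a.1
      rw [show σ (σ⁻¹ 0) = 0 from σ.apply_symm_apply 0] at b
      exact le_antisymm b (hI 0 ⟨le_rfl, one_pos⟩).1
    · exact o1 t ht
  · exact o2 t ht

theorem F_eq : Subgroup.closure {σ : Equiv.Perm ℝ | σ ∈ VG ∧ StrictMonoOn (⇑σ) (Ico (0:ℝ) 1)} =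
    K01.map toP := by
  apply le_antisymm
  · rw [Subgroup.closure_le]
    exact fun σ h => toG h.1 h.2
  · rintro _ ⟨g, hg, rfl⟩
    exact Subgroup.subset_closure ⟨toP_V hg, fun s _ t _ h => smono g h⟩

def N01 : Subgroup G where
  carrier := {g | ∃ x y, 0 < x ∧ y < 1 ∧ Supp x y g}
  one_mem' := ⟨1, 0, one_pos, one_pos, Supp.one _ _⟩
  mul_mem' := by
    rintro g h ⟨a, b, a1, a2, hg⟩ ⟨c, d, b1, b2, hh⟩
    exact ⟨min a c, max b d, lt_min a1 b1, max_lt a2 b2,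
      (hg.mono (min_le_left _ _) (le_max_left _ _)).mul
      (hh.mono (min_le_right _ _) (le_max_right _ _))⟩
  inv_mem' := by
    rintro g ⟨a, b, a1, a2, hg⟩
    exact ⟨a, b, a1, a2, hg.inv⟩

theorem comm_N : ⁅K01, K01⁆ ≤ N01 := by
  rw [Subgroup.commutator_le]
  intro a ha b hb
  have hc : Supp 0 1 ⁅a, b⁆ := Supp.commutator ha hb
  have e : ∀ t, a (b ((b * a)⁻¹ t)) = b (a ((b * a)⁻¹ t)) → ⁅a, b⁆ t = t := fun t h => by
    rw [commutatorElement_def, mul_assoc, ← mul_inv_rev, mul_ap, mul_ap, h, ← mul_ap, ap_inv]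
  have hba : Supp 0 1 (b * a)⁻¹ := (Supp.mul hb ha).inv
  have h0 : ∀ᶠ t in 𝓝[≥] (0 : ℝ), ⁅a, b⁆ t = t := by
    obtain ⟨s, c, -, -, -, -, -, -, a1, -⟩ := plp a 0
    obtain ⟨s', c', -, -, -, -, -, -, b1, -⟩ := plp b 0
    have a0 := ha 0 (Or.inl le_rfl)
    have b0 := hb 0 (Or.inl le_rfl)
    have a2 := selfR a1
    have b2 := selfR b1
    have t1 := tendR a.1 0
    have t2 := tendR b.1 0
    have t3 := tendR (b * a)⁻¹.1 0
    rw [show a.1 0 = 0 from a0] at t1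
    rw [show b.1 0 = 0 from b0] at t2
    rw [show (b * a)⁻¹.1 0 = 0 from hba 0 (Or.inl le_rfl)] at t3
    have : ∀ᶠ t in 𝓝[≥] (0 : ℝ), a (b t) = b (a t) := by
      filter_upwards [a1, b1, t1.eventually b1, t2.eventually a1] with t e1 e2 e3 e4
      change b (a t) = s' * a t + c' at e3
      change a (b t) = s * b t + c at e4
      rw [e3, e4, e1, e2, show c = 0 by linarith, show c' = 0 by linarith]; ring
    filter_upwards [t3.eventually this] with t h using e t h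
  have h1 : ∀ᶠ t in 𝓝[≤] (1 : ℝ), ⁅a, b⁆ t = t := by
    obtain ⟨-, -, s, c, -, -, -, -, -, a1, -⟩ := plp a 1
    obtain ⟨-, -, s', c', -, -, -, -, -, b1, -⟩ := plp b 1
    have a0 := ha 1 (Or.inr le_rfl)
    have b0 := hb 1 (Or.inr le_rfl)
    have a2 := selfL a1
    have b2 := selfL b1
    have t1 := tendL a.1 1
    have t2 := tendL b.1 1
    have t3 := tendL (b * a)⁻¹.1 1
    rw [show a.1 1 = 1 from a0] at t1
    rw [show b.1 1 = 1 from b0] at t2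
    rw [show (b * a)⁻¹.1 1 = 1 from hba 1 (Or.inr le_rfl)] at t3
    have : ∀ᶠ t in 𝓝[≤] (1 : ℝ), a (b t) = b (a t) := by
      filter_upwards [a1, b1, t1.eventually b1, t2.eventually a1] with t e1 e2 e3 e4
      change b (a t) = s' * a t + c' at e3
      change a (b t) = s * b t + c at e4
      rw [e3, e4, e1, e2, show c = 1 - s by linarith, show c' = 1 - s' by linarith]; ring
    filter_upwards [t3.eventually this] with t h using e t h
  obtain ⟨x, x1, x2⟩ := mem_nhdsGE_iff_exists_Icc_subset.1 h0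
  obtain ⟨y, y1, y2⟩ := mem_nhdsLE_iff_exists_Icc_subset.1 h1
  refine ⟨x, y, x1, y1, ?_⟩
  rintro t (h | h)
  · rcases le_total t 0 with e | e
    exacts [hc t (Or.inl e), x2 ⟨e, h⟩]
  · rcases le_total t 1 with e | e
    exacts [y2 ⟨h, e⟩, hc t (Or.inr e)]

theorem N_comm {g : G} (h : g ∈ N01) : ∃ a ∈ N01, ∃ b ∈ N01, g = ⁅a, b⁆ := by
  obtain ⟨x, y, h1, h2, h3⟩ := h
  obtain ⟨A, B, d, e, a1, a2, a3, a4, a5⟩ := oneComm (d := 0) (e := 1)
    (h3.mono (min_le_left x (1 / 2)) (le_max_left y (1 / 2)))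
    ((min_le_right _ _).trans (le_max_right _ _)) (lt_min h1 (by norm_num))
    (max_lt h2 (by norm_num))
  exact ⟨A, ⟨d, e, a1, a2, a3⟩, B, ⟨d, e, a1, a2, a4⟩, a5⟩

theorem N_K : N01 ≤ K01 := fun _ ⟨_, _, a, b, c⟩ => c.mono a.le b.le

theorem N_eq : ⁅K01, K01⁆ = N01 := le_antisymm comm_N fun g h => by
  obtain ⟨a, ha, b, hb, rfl⟩ := N_comm h
  exact Subgroup.commutator_mem_commutator (N_K ha) (N_K hb)

theorem N_ne : ∃ g ∈ N01, toP g ≠ 1 := by
  have d4 := half_mem (half_mem (one_mem D))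
  have d2 := half_mem (one_mem D)
  obtain ⟨k, k1, k2⟩ := agree (tr (1 / 2 / 2 / 2)) (x := 1 / 2 / 2) (y := 1 / 2 + 1 / 2 / 2)
    (le_refl (1 / 2)) (by norm_num) (by norm_num) (by rw [tr_ap (half_mem d4)]; norm_num)
    (by rw [tr_ap (half_mem d4)]; norm_num) d4 (add_mem d2 d4) d2 d2
  refine ⟨k, ⟨_, _, by norm_num, by norm_num, k1⟩, fun e => ?_⟩
  have := k2 _ le_rfl le_rfl
  rw [← toP_ap, e, tr_ap (half_mem d4)] at this
  norm_num at this

def CG : Subgroup G where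
  carrier := {a | Cm a}
  one_mem' := fun _ => rfl
  mul_mem' := Cm.mul
  inv_mem' := Cm.inv

open Classical in
noncomputable def prf (a : G) (x : ℝ) : ℝ := if x ∈ I then Int.fract (a x) else x

theorem prf_in (a : G) {x : ℝ} (h : x ∈ I) : prf a x = Int.fract (a x) := if_pos h
theorem prf_out (a : G) {x : ℝ} (h : x ∉ I) : prf a x = x := if_neg h

theorem fract_I (x : ℝ) : Int.fract x ∈ I := ⟨Int.fract_nonneg x, Int.fract_lt_one x⟩

theorem Cm.fract {a : G} (ha : Cm a) (x : ℝ) : Int.fract (a (Int.fract x)) = Int.fract (a x) := by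
  have := ha.int (-⌊x⌋) x
  push_cast at this
  rw [Int.fract, ← sub_eq_add_neg] at *
  rw [Int.fract, this, ← Int.fract, ← sub_eq_add_neg, Int.fract_sub_intCast, Int.fract]

noncomputable def pr : CG →* Equiv.Perm ℝ := MonoidHom.toHomPerm
  { toFun := fun a => prf a.1
    map_one' := funext fun x => by
      simp only [prf, OneMemClass.coe_one, one_ap]
      split_ifs with h
      exacts [Int.fract_eq_self.2 h, rfl]
    map_mul' := fun a b => funext fun x => by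
      show prf (a.1 * b.1) x = prf a.1 (prf b.1 x)
      by_cases h : x ∈ I
      · rw [prf_in _ h, prf_in _ h, prf_in _ (fract_I _), mul_ap]
        exact (Cm.fract a.2 _).symm
      · rw [prf_out _ h, prf_out _ h, prf_out _ h] }

theorem pr_in (a : CG) {x : ℝ} (h : x ∈ I) : pr a x = Int.fract (a.1 x) := if_pos h
theorem pr_out (a : CG) {x : ℝ} (h : x ∉ I) : pr a x = x := if_neg h

theorem pr_V (a : CG) : pr a ∈ VG := by
  refine ⟨fun x => pr_out a, LA.congr (φ := fun x => Int.fract (a.1 x)) ?_ Clo.I fun x => pr_in a⟩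
  filter_upwards [G_la a.1, (G_la a.1).uc le_rfl 0] with N h1 h2 x hx
  obtain ⟨s, c, a1, a2, a3⟩ := h1 x hx
  refine ⟨s, c - ⌊a.1 x⌋, a1, sub_mem a2 (intCast_mem _ _), fun y e => ?_⟩
  have := h2 x hx y e
  simp only [fl, pow_zero, mul_one] at this
  simp only [Int.fract]
  rw [this, a3 y e]; ring

theorem cm_tr {c : ℝ} (h : c ∈ D) : Cm (tr c) := fun t => by rw [tr_ap h, tr_ap h]; ring

theorem pr_tr (n : ℤ) : pr ⟨tr n, cm_tr (intCast_mem _ n)⟩ = 1 := Equiv.ext fun x => by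
  by_cases h : x ∈ I
  · rw [pr_in _ h]; simpa [I] using h
  · rw [pr_out _ h]; rfl

theorem pr_one {a : CG} (h : pr a = 1) : ∃ n : ℤ, a.1 = tr n := by
  have h1 : ∀ x ∈ I, Int.fract (a.1 x) = x := fun x hx => by rw [← pr_in a hx, h]; rfl
  have h0 : a.1 0 = ⌊a.1 0⌋ := by
    have := h1 0 ⟨le_rfl, one_pos⟩
    rw [Int.fract] at this; linarith
  have h2 : a.1 1 = a.1 0 + 1 := by simpa using a.2 0
  refine ⟨⌊a.1 0⌋, Cm.ext a.2 (cm_tr (intCast_mem _ _)) 0 fun t e1 e2 => ?_⟩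
  rw [zero_add] at e2
  rw [tr_int]
  rcases e2.eq_or_lt with rfl | e2
  · linarith
  · have h3 := h1 t ⟨e1, e2⟩
    have h4 : ⌊a.1 t⌋ = ⌊a.1 0⌋ :=
      Int.floor_eq_iff.2 ⟨by linarith [mono a.1 e1], by linarith [smono a.1 e2]⟩
    rw [Int.fract, h4] at h3; linarith

theorem pr_K {g : G} (h : g ∈ K01) : toP g ∈ pr.range := by
  obtain ⟨a, p, c⟩ := Supp.per (e := 0) (c := g) (by rwa [zero_add]) (zero_mem _)
  refine ⟨⟨a, p.1⟩, Equiv.ext fun x => ?_⟩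
  by_cases hx : x ∈ I
  · rw [pr_in _ hx, toP_ap, ← c.2 x hx.1 (by linarith [hx.2])]
    exact Int.fract_eq_self.2 (perm_I (toP_V h).1 hx)
  · rw [pr_out _ hx, (toP_V h).1 x hx]

theorem T_eq : Subgroup.closure {σ : Equiv.Perm ℝ | σ ∈ VG ∧ ∃ t ∈ Set.Ico (0:ℝ) 1,
    ContinuousOn (⇑σ) (Set.Ico (0:ℝ) t) ∧ ContinuousOn (⇑σ) (Set.Ico t 1) ∧
    StrictMonoOn (⇑σ) (Set.Ico (0:ℝ) t) ∧ StrictMonoOn (⇑σ) (Set.Ico t 1) ∧ σ t = 0} =
    pr.range := by
  apply le_antisymm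
  · rw [Subgroup.closure_le]
    rintro σ ⟨hV, t, ht, -, c2, m1, m2, h0⟩
    have dt : t ∈ D := by
      obtain ⟨N, hN⟩ := hV.2.exists
      obtain ⟨s, c, a1, a2, a3⟩ := hN t ht
      have e := a3 t rfl
      have := a1.pos.ne'
      rw [show t = -(s⁻¹ * c) by field_simp; linarith]
      exact neg_mem (mul_mem a1.inv.mem a2)
    have lt : ∀ x y, t ≤ x → x < 1 → 0 ≤ y → y < t → σ x < σ y := fun x y a b c d => by
      by_contra e
      have := intermediate_value_Icc a (c2.mono fun u (h : u ∈ Icc t x) => ⟨h.1, by linarith [h.2]⟩)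
        (show σ y ∈ Icc (σ t) (σ x) from ⟨h0 ▸ (perm_I hV.1 ⟨c, by linarith⟩).1, not_lt.1 e⟩)
      obtain ⟨u, u1, u2⟩ := this
      rw [σ.injective u2] at u1
      linarith [u1.1]
    let ρ : CG := ⟨tr t, cm_tr dt⟩
    have r1 : ∀ u ∈ I, u + t < 1 → pr ρ u = u + t := fun u hu e => by
      rw [pr_in _ hu, tr_ap dt]; exact Int.fract_eq_self.2 ⟨by linarith [hu.1, ht.1], e⟩
    have r2 : ∀ u ∈ I, 1 ≤ u + t → pr ρ u = u + t - 1 := fun u hu e => by
      rw [pr_in _ hu, tr_ap dt, ← Int.fract_sub_one]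
      exact Int.fract_eq_self.2 ⟨by linarith, by linarith [hu.2, ht.2]⟩
    obtain ⟨g, hg, e⟩ := toG (mul_mem hV (pr_V ρ)) fun u hu v hv h => by
      simp only [Equiv.Perm.mul_apply]
      have := hu.1; have := hu.2; have := hv.1; have := hv.2; have := ht.1; have := ht.2
      rcases lt_or_ge (v + t) 1 with a | a
      · rw [r1 u hu (by linarith), r1 v hv a]
        exact m2 ⟨by linarith, by linarith⟩ ⟨by linarith, a⟩ (by linarith)
      rcases lt_or_ge (u + t) 1 with b | b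
      · rw [r1 u hu b, r2 v hv a]
        exact lt _ _ (by linarith) b (by linarith) (by linarith)
      · rw [r2 u hu b, r2 v hv a]
        exact m1 ⟨by linarith, by linarith⟩ ⟨by linarith, by linarith⟩ (by linarith)
    have := mul_mem (pr_K hg) (inv_mem (show pr ρ ∈ pr.range from ⟨ρ, rfl⟩))
    rwa [e, mul_inv_cancel_right] at this
  · rintro _ ⟨a, rfl⟩
    apply Subgroup.subset_closure
    obtain ⟨t, ht, m, hm⟩ : ∃ t ∈ I, ∃ m : ℤ, a.1 t = m := by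
      refine ⟨_, fract_I (a.1⁻¹ 0), -⌊a.1⁻¹ 0⌋, ?_⟩
      have := Cm.int a.2 (-⌊a.1⁻¹ 0⌋) (a.1⁻¹ 0)
      rw [ap_inv, zero_add] at this
      rw [← this, Int.fract]; push_cast; rfl
    have h1 : a.1 (t + 1) = m + 1 := by rw [a.2, hm]
    have h2 : a.1 (t - 1) = m - 1 := by
      have := a.2 (t - 1)
      rw [sub_add_cancel] at this; linarith
    have r1 : EqOn (pr a) (fun x => a.1 x - (m - 1 : ℤ)) (Ico 0 t) := fun x hx => by
      rw [pr_in _ ⟨hx.1, by linarith [hx.2, ht.2]⟩, ← Int.fract_sub_intCast _ (m - 1)]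
      push_cast
      exact Int.fract_eq_self.2 ⟨by linarith [mono a.1 (show t - 1 ≤ x by linarith [hx.1, ht.2])],
        by linarith [smono a.1 hx.2]⟩
    have r2 : EqOn (pr a) (fun x => a.1 x - m) (Ico t 1) := fun x hx => by
      rw [pr_in _ ⟨by linarith [hx.1, ht.1], hx.2⟩, ← Int.fract_sub_intCast _ m]
      exact Int.fract_eq_self.2 ⟨by linarith [mono a.1 hx.1],
        by linarith [smono a.1 (show x < t + 1 by linarith [hx.2, ht.1])]⟩
    refine ⟨pr_V a, t, ht, (((cont a.1).sub continuous_const).continuousOn).congr r1,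
      (((cont a.1).sub continuous_const).continuousOn).congr r2, fun x hx y hy h => ?_,
      fun x hx y hy h => ?_, ?_⟩
    · rw [r1 hx, r1 hy]; simpa using h
    · rw [r2 hx, r2 hy]; simpa using h
    · rw [r2 ⟨le_rfl, ht.2⟩]; simp [hm]

theorem T_two (g : Equiv.Perm ℝ) (hg : g ∈ pr.range) : ∃ a ∈ pr.range, ∃ b ∈ pr.range,
    ∃ c ∈ pr.range, ∃ d ∈ pr.range, g = (a * b * a⁻¹ * b⁻¹) * (c * d * c⁻¹ * d⁻¹) := by
  obtain ⟨θ, rfl⟩ := hg
  obtain ⟨n, A, B, A', B', a1, a2, a3, a4, e⟩ := cm_two θ.2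
  refine ⟨_, ⟨⟨A, a1⟩, rfl⟩, _, ⟨⟨B, a2⟩, rfl⟩, _, ⟨⟨A', a3⟩, rfl⟩, _, ⟨⟨B', a4⟩, rfl⟩, ?_⟩
  simp only [← map_mul, ← map_inv]
  rw [← one_mul (pr (_ * _)), ← pr_tr n, ← map_mul]
  congr 1
  exact Subtype.ext e

theorem F_part : ⁅⁅K01.map toP, K01.map toP⁆, ⁅K01.map toP, K01.map toP⁆⁆ ≠ ⊥ ∧
    ∀ g ∈ ⁅⁅K01.map toP, K01.map toP⁆, ⁅K01.map toP, K01.map toP⁆⁆,
      ∃ a ∈ ⁅K01.map toP, K01.map toP⁆, ∃ b ∈ ⁅K01.map toP, K01.map toP⁆, g = a * b * a⁻¹ * b⁻¹ := by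
  have e : ⁅N01, N01⁆ = N01 := le_antisymm (Subgroup.commutator_le.2 fun a ha b hb =>
      mul_mem (mul_mem (mul_mem ha hb) (inv_mem ha)) (inv_mem hb)) fun g h => by
    obtain ⟨a, ha, b, hb, rfl⟩ := N_comm h
    exact Subgroup.commutator_mem_commutator ha hb
  simp only [← Subgroup.map_commutator, N_eq, e]
  constructor
  · obtain ⟨g, h1, h2⟩ := N_ne
    exact fun h => h2 (Subgroup.mem_bot.1 (h ▸ Subgroup.mem_map_of_mem toP h1))
  · rintro _ ⟨g, hg, rfl⟩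
    obtain ⟨a, ha, b, hb, rfl⟩ := N_comm hg
    exact ⟨_, ⟨a, ha, rfl⟩, _, ⟨b, hb, rfl⟩, by simp [commutatorElement_def]⟩

theorem V_all (g : Equiv.Perm ℝ) (hg : g ∈ VG) : ∃ a ∈ VG, ∃ b ∈ VG, g = a * b * a⁻¹ * b⁻¹ := by
  obtain ⟨a, b, e⟩ := V_comm ⟨g, hg⟩
  exact ⟨a, a.2, b, b.2, congrArg Subtype.val e⟩

theorem V_ne : ⁅VG, VG⁆ ≠ ⊥ := by
  obtain ⟨g, h1, h2⟩ := N_ne
  obtain ⟨a, ha, b, hb, e⟩ := V_all _ (toP_V (N_K h1))
  exact fun h => h2 (Subgroup.mem_bot.1 (h ▸ e ▸ Subgroup.commutator_mem_commutator ha hb))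

end Pool.Agent.H.MP_3d8b4c_al
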