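import Pool.Agent.H.MP_3d8b4c_al.B

open Filter Topology Set
open scoped commutatorElement

namespace Pool.Agent.H.MP_3d8b4c_al

theorem ofn_mem (n : ℕ) [n.AtLeastTwo] : (OfNat.ofNat n : ℝ) ∈ D := ofNat_mem _ n
@[simp] theorem tr_three (t : ℝ) : tr 3 t = t + 3 := tr_ap (ofn_mem 3) t
@[simp] theorem tr_inv_three (t : ℝ) : (tr 3)⁻¹ t = t - 3 := tr_inv_ap (ofn_mem 3) t
@[simp] theorem tr_inv_one (t : ℝ) : (tr 1)⁻¹ t = t - 1 := tr_inv_ap (one_mem _) t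

/-- commutes with the unit translation -/
def Cm (a : G) : Prop := ∀ t, a (t + 1) = a t + 1

theorem Cm.mul {a b : G} (ha : Cm a) (hb : Cm b) : Cm (a * b) := fun t => by
  rw [mul_ap, mul_ap, hb, ha]
theorem Cm.inv {a : G} (ha : Cm a) : Cm a⁻¹ := fun t => inv_eq (by rw [ha, ap_inv])
theorem Cm.int {a : G} (ha : Cm a) (n : ℤ) (t : ℝ) : a (t + n) = a t + n := by
  induction n using Int.induction_on with
  | zero => simp
  | succ n ih => push_cast at ih ⊢; rw [← add_assoc, ha, ih]; ring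
  | pred n ih =>
    push_cast at ih ⊢
    have := ha (t + (-n - 1))
    rw [show t + (-(n : ℝ) - 1) + 1 = t + -n by ring, ih] at this
    linarith
theorem Cm.ext {a b : G} (ha : Cm a) (hb : Cm b) (e : ℝ)
    (h : ∀ t, e ≤ t → t ≤ e + 1 → a t = b t) : a = b := by
  apply MP_3d8b4c_al.ext
  intro t
  have h1 := Int.floor_le (t - e)
  have h2 := Int.lt_floor_add_one (t - e)
  have h3 := ha.int ⌊t - e⌋ (t - ⌊t - e⌋)
  have h4 := hb.int ⌊t - e⌋ (t - ⌊t - e⌋)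
  rw [sub_add_cancel] at h3 h4
  rw [h3, h4, h _ (by linarith) (by linarith)]

structure Per (e : ℝ) (a : G) : Prop where
  cm : Cm a
  fx : a e = e
  dy : e ∈ D

theorem Per.mul {e : ℝ} {a b : G} (ha : Per e a) (hb : Per e b) : Per e (a * b) :=
  ⟨ha.1.mul hb.1, by simp [ha.2, hb.2], ha.3⟩
theorem Per.inv {e : ℝ} {a : G} (ha : Per e a) : Per e a⁻¹ := ⟨ha.1.inv, inv_eq ha.2, ha.3⟩
theorem Per.commutator {e : ℝ} {a b : G} (ha : Per e a) (hb : Per e b) : Per e ⁅a, b⁆ := by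
  rw [commutatorElement_def]; exact ((ha.mul hb).mul ha.inv).mul hb.inv
theorem Per.move {e e' : ℝ} {a : G} (ha : Per e a) (n : ℤ) (h : e' = e + n) : Per e' a :=
  ⟨ha.1, by rw [h, ha.1.int, ha.2], h ▸ add_mem ha.3 (intCast_mem _ n)⟩

theorem exists_cm (g : G) (e : ℝ) (he : e ∈ D) (h1 : g (e + 1) = g e + 1) :
    ∃ a : G, Cm a ∧ ∀ t, e ≤ t → t ≤ e + 1 → a t = g t := by
  have hm := lin_mono 1 e one_pos
  have hu := lin_unb 1 e one_pos
  obtain ⟨a, ha⟩ := zglue (fun i : ℤ => 1 * (i : ℝ) + e) (fun i => tr i * g * (tr i)⁻¹) hm hu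
    (fun i => add_mem (mul_mem (one_mem _) (intCast_mem _ i)) he)
    (fun i => by
      simp only [mul_ap, tr_int, tr_inv_int]
      push_cast
      rw [show 1 * ((i : ℝ) + 1) + e - i = e + 1 by ring,
        show 1 * ((i : ℝ) + 1) + e - (i + 1) = e by ring, h1]; ring)
    (by
      have : (fun i : ℤ => (tr i * g * (tr i)⁻¹) (1 * (i : ℝ) + e)) =
          fun i : ℤ => 1 * (i : ℝ) + g e := by
        funext i
        simp only [mul_ap, tr_int, tr_inv_int]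
        rw [show 1 * (i : ℝ) + e - i = e by ring]; ring
      rw [this]; exact lin_unb 1 _ one_pos)
  have h2 : ∀ t, e ≤ t → t ≤ e + 1 → a t = g t := fun t e1 e2 => by
    rw [ha 0 t (by simpa using e1) (by simp; linarith)]
    simp only [mul_ap, tr_int, tr_inv_int]; simp
  refine ⟨a, fun t => ?_, h2⟩
  obtain ⟨i, e1, e2⟩ := idxR hm hu t
  push_cast at e2
  rw [ha i t e1 (by push_cast; linarith), ha (i + 1) (t + 1) (by push_cast; linarith)
    (by push_cast; linarith)]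
  simp only [mul_ap, tr_int, tr_inv_int]
  push_cast
  rw [show t + 1 - ((i : ℝ) + 1) = t - i by ring]; ring

def IsCut (p : ℝ) (c a : G) : Prop := Supp p (p + 1) c ∧ ∀ t, p ≤ t → t ≤ p + 1 → c t = a t

theorem Supp.mem {a b t : ℝ} {g : G} (hg : Supp a b g) (h1 : a ≤ t) (h2 : t ≤ b) :
    a ≤ g t ∧ g t ≤ b := by
  have e1 := MP_3d8b4c_al.mono g h1
  have e2 := MP_3d8b4c_al.mono g h2
  rw [hg a (Or.inl le_rfl)] at e1
  rw [hg b (Or.inr le_rfl)] at e2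
  exact ⟨e1, e2⟩

theorem IsCut.mul {p : ℝ} {c a c' a' : G} (h : IsCut p c a) (h' : IsCut p c' a') :
    IsCut p (c * c') (a * a') :=
  ⟨h.1.mul h'.1, fun t e1 e2 => by
    rw [mul_ap, mul_ap, h.2 _ (h'.1.mem e1 e2).1 (h'.1.mem e1 e2).2, h'.2 t e1 e2]⟩
theorem IsCut.inv {p : ℝ} {c a : G} (h : IsCut p c a) : IsCut p c⁻¹ a⁻¹ :=
  ⟨h.1.inv, fun t e1 e2 => (inv_eq (by
    rw [← h.2 _ (h.1.inv.mem e1 e2).1 (h.1.inv.mem e1 e2).2, ap_inv])).symm⟩
theorem IsCut.commutator {p : ℝ} {c a c' a' : G} (h : IsCut p c a) (h' : IsCut p c' a') :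
    IsCut p ⁅c, c'⁆ ⁅a, a'⁆ := by
  simp only [commutatorElement_def]; exact ((h.mul h').mul h.inv).mul h'.inv
theorem IsCut.shift {p p' e : ℝ} {c a : G} (h : IsCut p c a) (ha : Per e a)
    (hp : p' = p - 3) : IsCut p' ((tr 3)⁻¹ * c * tr 3) a := by
  subst hp
  refine ⟨fun t ht => ?_, fun t e1 e2 => ?_⟩
  · simp only [mul_ap, tr_three, tr_inv_three]
    rw [h.1 _ (by rcases ht with h | h; left; linarith; right; linarith)]; ring
  · simp only [mul_ap, tr_three, tr_inv_three]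
    have := ha.1.int 3 t
    push_cast at this
    rw [h.2 _ (by linarith) (by linarith), this]; ring
theorem Per.cut {e : ℝ} {a : G} (ha : Per e a) : ∃ c, IsCut e c a :=
  MP_3d8b4c_al.cut a (by linarith) ha.3 (add_mem ha.3 (one_mem _)) ha.2 (by rw [ha.1, ha.2])
theorem Supp.per {e : ℝ} {c : G} (hc : Supp e (e + 1) c) (he : e ∈ D) :
    ∃ a, Per e a ∧ IsCut e c a := by
  obtain ⟨a, h1, h2⟩ := exists_cm c e he (by rw [hc _ (Or.inl le_rfl), hc _ (Or.inr le_rfl)])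
  exact ⟨a, ⟨h1, by rw [h2 e le_rfl (by linarith), hc _ (Or.inl le_rfl)], he⟩, hc,
    fun t e1 e2 => (h2 t e1 e2).symm⟩

def Hol (c : G) (x y : ℝ) (θ : G) : Prop :=
  Supp x y c ∧ ∃ w : G, (∀ t, t ≤ x → w t = t) ∧ (∀ t, y ≤ t → w t = θ t) ∧
    tr 1 * c * w = w * tr 1

theorem Hol.mono {c θ : G} {x y x' y' : ℝ} (h : Hol c x y θ) (h1 : x' ≤ x) (h2 : y ≤ y') :
    Hol c x' y' θ := by
  obtain ⟨h0, w, a, b, e⟩ := h
  exact ⟨h0.mono h1 h2, w, fun t ht => a t (by linarith), fun t ht => b t (by linarith), e⟩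

theorem hol_elem {p : ℝ} {c a : G} (ha : Per p a) (h : IsCut p c a) : Hol c p (p + 1) a := by
  have h1 : a (p + 1) = p + 1 := by rw [ha.1, ha.2]
  obtain ⟨w, w1, w2⟩ := glue 1 a (p + 1) (add_mem ha.3 (one_mem _)) (by simp [h1])
  refine ⟨h.1, w, fun t ht => by simp [w1 t (by linarith)], w2, ext fun t => ?_⟩
  simp only [mul_ap, tr_one]
  rcases le_total t p with e1 | e1
  · rw [w1 t (by linarith), w1 _ (by linarith), one_ap, one_ap, h.1 t (Or.inl e1)]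
  rcases le_total t (p + 1) with e2 | e2
  · rw [w1 t e2, w2 _ (by linarith), one_ap, h.2 t e1 e2, ha.1]
  · rw [w2 t e2, w2 _ (by linarith), h.1 _ (Or.inr (h1 ▸ mono a e2)), ha.1]

theorem hol_comp {c1 c2 θ1 θ2 : G} {x y y' z z' : ℝ} (h1 : Hol c1 x y θ1) (h2 : Hol c2 y' z θ2)
    (a1 : x ≤ y') (a2 : y ≤ y') (a3 : y ≤ z') (a4 : z ≤ z') (a5 : z ≤ θ1 z') :
    Hol (c2 * c1) x z' (θ2 * θ1) := by
  obtain ⟨s1, w1, b1, b2, b3⟩ := h1
  obtain ⟨s2, w2, d1, d2, d3⟩ := h2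
  refine ⟨(s2.mono a1 a4).mul (s1.mono le_rfl a3), w2 * w1, fun t ht => ?_, fun t ht => ?_, ?_⟩
  · rw [mul_ap, b1 t ht, d1 t (by linarith)]
  · rw [mul_ap, b2 t (by linarith), d2 _ (le_trans a5 (mono _ ht)), mul_ap]
  · have := comm_of (p := y) (g := c1) (h := w2) (fun t ht => s1 t (Or.inr ht))
      (fun t ht => d1 t (by linarith))
    calc tr 1 * (c2 * c1) * (w2 * w1) = tr 1 * c2 * (c1 * w2) * w1 := by group
      _ = (tr 1 * c2 * w2) * c1 * w1 := by rw [this]; group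
      _ = w2 * (tr 1 * c1 * w1) := by rw [d3]; group
      _ = _ := by rw [b3]; group

def Gad (x y : ℝ) (θ : G) : Prop :=
  ∃ v : G, Supp (x + 3) (y - 3) v ∧ Hol ((tr 3)⁻¹ * v * tr 3 * v⁻¹) x y θ

theorem gad_comp {x y y' z z' : ℝ} {θ1 θ2 : G} (h1 : Gad x y θ1)
    (h2 : Gad y' z θ2) (a1 : x ≤ y') (a2 : y ≤ y') (a3 : y ≤ z') (a4 : z ≤ z')
    (a5 : z ≤ θ1 z') : Gad x z' (θ2 * θ1) := by
  obtain ⟨v1, s1, h1⟩ := h1
  obtain ⟨v2, s2, h2⟩ := h2
  refine ⟨v1 * v2, (s1.mono le_rfl (by linarith)).mul (s2.mono (by linarith) (by linarith)), ?_⟩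
  have h3 := s1.conj (tr 3)⁻¹
  rw [inv_inv, tr_inv_three, tr_inv_three] at h3
  have h4 := h3.comm h2.1 (by linarith)
  have : (tr 3)⁻¹ * (v1 * v2) * tr 3 * (v1 * v2)⁻¹ =
      ((tr 3)⁻¹ * v2 * tr 3 * v2⁻¹) * ((tr 3)⁻¹ * v1 * tr 3 * v1⁻¹) := by
    calc _ = ((tr 3)⁻¹ * v1 * tr 3 * ((tr 3)⁻¹ * v2 * tr 3 * v2⁻¹)) * v1⁻¹ := by group
      _ = _ := by rw [h4]; group
  rw [this]
  exact hol_comp h1 h2 a1 a2 a3 a4 a5

theorem gadget {e : ℝ} {a b : G} (ha : Per e a) (hb : Per e b) :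
    Gad (e - 3) (e + 5) ⁅a, b⁆ := by
  have hg := hb.inv
  have hh := ha.inv
  have e2 : ⁅a, b⁆ = (a⁻¹⁻¹ * b⁻¹⁻¹) * (a⁻¹ * b⁻¹) := by rw [commutatorElement_def]; group
  generalize a⁻¹ = h at *
  generalize b⁻¹ = g at *
  obtain ⟨g0, hg0⟩ := hg.cut
  have hh1' : Per (e + 1) h := hh.move 1 (by simp)
  obtain ⟨h1, hh1⟩ := hh1'.cut
  have hg3 : IsCut (e - 3) _ g := hg0.shift hg (by ring)
  have hh2 : IsCut (e - 2) _ h := hh1.shift hh (by ring)
  refine ⟨g0 * h1, (hg0.1.mono (by linarith) (by linarith)).mul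
    (hh1.1.mono (by linarith) (by linarith)), ?_⟩
  have H1 := hol_elem (hg.move (-3) (by simp; ring)) hg3
  have H2 := hol_elem (hh.move (-2) (by simp; ring)) hh2
  have H3 := hol_elem hg.inv hg0.inv
  have H4 := hol_elem hh1'.inv hh1.inv
  have H5 := hol_comp (z' := e) H1 H2 (by linarith) (by linarith) (by linarith) (by linarith)
    (by rw [hg.2]; linarith)
  have H6 := hol_comp (z' := e + 2) H3 H4 (by linarith) le_rfl (by linarith) (by linarith)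
    (by rw [(hg.inv.move 2 (by simp) : Per (e + 2) _).2]; linarith)
  have H7 := hol_comp (z' := e + 5) H5 H6 (by linarith) le_rfl (by linarith) (by linarith)
    (by rw [((hh.mul hg).move 5 (by simp) : Per (e + 5) _).2]; linarith)
  have c1 := hg3.1.comm hh2.1 (by linarith)
  have c2 := H5.1.comm H6.1 le_rfl
  have e1 : (tr 3)⁻¹ * (g0 * h1) * tr 3 * (g0 * h1)⁻¹ = (h1⁻¹ * g0⁻¹) *
      ((tr 3)⁻¹ * h1 * tr 3 * ((tr 3)⁻¹ * g0 * tr 3)) := by
    rw [← c2, ← c1]; group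
  rw [e1, e2]
  exact H7

theorem gad_two {e : ℝ} {k : G} {x y : ℝ} (he : e ∈ D) (hk : Supp x y k) (hxy : x ≤ y)
    (h1 : e < x) (h2 : y < e + 1) :
    ∃ θ, Per e θ ∧ IsCut e k θ ∧ ∀ (n : ℤ) (e' : ℝ), e' = e + n → Gad (e' - 3) (e' + 13) θ := by
  obtain ⟨A, B, Y, s, hA, hB, hY, hs, rfl⟩ := twoComm hk hxy h1 h2 he (add_mem he (one_mem _))
  obtain ⟨A', pA, cA⟩ := hA.per he
  obtain ⟨B', pB, cB⟩ := hB.per he
  obtain ⟨Y', pY, cY⟩ := hY.per he
  obtain ⟨s', ps, cs⟩ := hs.per he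
  refine ⟨⁅A', B'⁆ * ⁅Y', s'⁆, (pA.commutator pB).mul (pY.commutator ps),
    (cA.commutator cB).mul (cY.commutator cs), fun n e' he => ?_⟩
  have g1 := gadget (pY.move n he) (ps.move n he)
  have g2 := gadget (e := e' + 8) ((pA.move n he).move 8 (by simp))
    ((pB.move n he).move 8 (by simp))
  exact gad_comp g1 g2 (by linarith) (by linarith) (by linarith) (by linarith)
    (by rw [(((pY.commutator ps).move n he).move 13 (by simp) : Per (e' + 13) _).2]; linarith)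

/-- splitting an element commuting with the translation into two periodic pieces -/
theorem split_cm {E : ℝ} {θ : G} (hE : E ∈ D) (hθ : Cm θ) (h0 : E ≤ θ E) (h1 : θ E < E + 1) :
    ∃ e x y x' y' : ℝ, ∃ k k' : G, e ∈ D ∧ E - 1 < e ∧ e < E ∧ Supp x y k ∧ x ≤ y ∧ e < x ∧
      y < e + 1 ∧ Supp x' y' k' ∧ x' ≤ y' ∧ E < x' ∧ y' < E + 1 ∧
      ∀ θ2 θ1, Per e θ2 → IsCut e k θ2 → Per E θ1 → IsCut E k' θ1 → θ = θ2 * θ1 := by
  obtain ⟨e, de, e1, e2⟩ := exists_dy (show θ E - 1 < E by linarith)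
  obtain ⟨x, dx, x1, x2⟩ := exists_dy e2
  obtain ⟨y, dy, y1, y2⟩ := exists_dy (show θ E < e + 1 by linarith)
  obtain ⟨a, da, a1, a2⟩ := exists_dy (show max x (θ⁻¹ x) < E from
    max_lt x2 (inv_lt.2 (by linarith)))
  obtain ⟨b, db, b1, b2⟩ := exists_dy (show E < min (min y (x + 1)) (θ⁻¹ y) from
    lt_min (lt_min (by linarith) (by linarith)) (lt_inv.2 y1))
  rw [max_lt_iff, inv_lt] at a1
  rw [lt_min_iff, lt_min_iff, lt_inv] at b2
  obtain ⟨k, k1, k2⟩ := agree θ (x := x) (y := y) (a := a) (b := b) (by linarith)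
    a1.1 b2.1.1 a1.2 b2.2 dx dy da db
  have k1' : Supp e (e + 1) k := k1.mono x1.le y2.le
  obtain ⟨θ2, p2, c2⟩ := k1'.per de
  have f1 : ∀ t, a ≤ t → t ≤ b → (θ2⁻¹ * θ) t = t := fun t e1 e2 => by
    rw [mul_ap]
    exact inv_eq (by rw [← c2.2 t (by linarith) (by linarith), k2 t e1 e2])
  have p1 : Per E (θ2⁻¹ * θ) := ⟨p2.inv.1.mul hθ, f1 E a2.le b1.le, hE⟩
  have f2 : ∀ t, a + 1 ≤ t → t ≤ b + 1 → (θ2⁻¹ * θ) t = t := fun t e1 e2 => by
    have := p1.1 (t - 1)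
    rw [f1 (t - 1) (by linarith) (by linarith), sub_add_cancel] at this
    exact this
  obtain ⟨k', m1, m2⟩ := cut (θ2⁻¹ * θ) (x := b) (y := a + 1) (by linarith) db
    (add_mem da (one_mem _)) (f1 b (by linarith) le_rfl) (f2 _ le_rfl (by linarith))
  refine ⟨e, x, y, b, a + 1, k, k', de, by linarith, e2, k1, by linarith, x1, y2, m1,
    by linarith, b1, by linarith, fun θ2' θ1 q2 d2 q1 d1 => ?_⟩
  have : θ2' = θ2 := q2.1.ext p2.1 e fun t e1 e2 => by rw [← d2.2 t e1 e2, c2.2 t e1 e2]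
  subst this
  have : θ1 = θ2'⁻¹ * θ := q1.1.ext p1.1 E fun t e1 e2 => by
    rw [← d1.2 t e1 e2]
    rcases le_total t b with h | h
    · rw [m1 t (Or.inl h), f1 t (by linarith) h]
    rcases le_total t (a + 1) with h' | h'
    · exact m2 t h h'
    · rw [m1 t (Or.inr h'), f2 t h' (by linarith)]
  rw [this]; group

theorem realize {c : ℝ} {θ : G} (hc : c ∈ D) (hθ : Cm θ) (h0 : c + 40 ≤ θ (c + 40))
    (h1 : θ (c + 40) < c + 40 + 1) : Gad (c + 1) (c + 40) θ := by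
  have hE : c + 40 ∈ D := add_mem hc (ofn_mem 40)
  obtain ⟨e, x, y, x', y', k, k', de, e1, e2, k1, k2, k3, k4, m1, m2, m3, m4, H⟩ :=
    split_cm hE hθ h0 h1
  obtain ⟨θ2, p2, c2, g2⟩ := gad_two de k1 k2 k3 k4
  obtain ⟨θ1, p1, c1, g1⟩ := gad_two hE m1 m2 m3 m4
  rw [H _ _ p2 c2 p1 c1]
  have G1 := g1 (-36) (c + 4) (by push_cast; ring)
  have G2 := g2 (-19) (e - 19) (by push_cast; ring)
  rw [show c + 4 - 3 = c + 1 by ring] at G1
  exact gad_comp G1 G2 (by linarith) (by linarith) (by linarith) (by linarith)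
    (by rw [p1.2]; linarith)

end Pool.Agent.H.MP_3d8b4c_al
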