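import Pool.Agent.H.MP_3d8b4c_al.C

open Filter Topology Set
open scoped commutatorElement

namespace Pool.Agent.H.MP_3d8b4c_al

theorem extF (a r w : G) (s0 s : ℝ) (ds : s ∈ D) (h0 : s0 ≤ s) (h1 : s ≤ a s)
    (hc : ∀ t, s0 ≤ t → t ≤ s → w (a t) = r (w t)) (n : ℕ) :
    ∃ w' : G, s ≤ (a ^ n) s ∧ (∀ t, s0 ≤ t → t ≤ (a ^ n) s → w' (a t) = r (w' t)) ∧
      (∀ t, t ≤ a s → w' t = w t) ∧ w' ((a ^ n) s) = (r ^ n) (w s) := by
  induction n with
  | zero => exact ⟨w, by simp, by simpa using hc, fun _ _ => rfl, by simp⟩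
  | succ n ih =>
    obtain ⟨w1, e0, e1, e2, e3⟩ := ih
    rw [pow_succ', pow_succ', mul_ap, mul_ap]
    have d1 := ap_mem (a ^ n) ds
    generalize (a ^ n) s = s' at *
    have e4 := e1 s' (by linarith) le_rfl
    obtain ⟨k, k1, k2⟩ := glue w1 (r * w1 * a⁻¹) (a s') (ap_mem a d1) (by simp [e4])
    refine ⟨k, le_trans h1 (mono a e0), fun t b1 b2 => ?_,
      fun t ht => by rw [k1 t (le_trans ht (mono a e0)), e2 t ht], by rw [k1 _ le_rfl, e4, e3]⟩
    rw [k1 t b2]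
    rcases le_total t s' with h | h
    · rw [k1 _ (mono a h), e1 t b1 h]
    · rw [k2 _ (mono a h)]; simp

theorem extB (a r w : G) (s s1 : ℝ) (ds : s ∈ D) (h0 : s ≤ s1) (h1 : s ≤ a s)
    (hc : ∀ t, s ≤ t → t ≤ s1 → w (a t) = r (w t)) (n : ℕ) :
    ∃ w' : G, (a⁻¹ ^ n) s ≤ s ∧ (∀ t, (a⁻¹ ^ n) s ≤ t → t ≤ s1 → w' (a t) = r (w' t)) ∧
      (∀ t, s ≤ t → w' t = w t) ∧ w' ((a⁻¹ ^ n) s) = (r⁻¹ ^ n) (w s) := by
  induction n with
  | zero => exact ⟨w, by simp, by simpa using hc, fun _ _ => rfl, by simp⟩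
  | succ n ih =>
    obtain ⟨w1, e0, e1, e2, e3⟩ := ih
    rw [pow_succ', pow_succ', mul_ap, mul_ap]
    have e5 : a⁻¹ ((a⁻¹ ^ n) s) ≤ (a⁻¹ ^ n) s := by
      rw [← mul_ap, ← pow_succ', pow_succ, mul_ap]
      exact mono _ (inv_le.2 h1)
    have d1 := ap_mem (a⁻¹ ^ n) ds
    generalize (a⁻¹ ^ n) s = s' at *
    have e4 := e1 s' le_rfl (by linarith)
    obtain ⟨k, k1, k2⟩ := glue (r⁻¹ * w1 * a) w1 s' d1 (by simp [e4])
    refine ⟨k, by linarith, fun t b1 b2 => ?_,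
      fun t ht => by rw [k2 t (by linarith), e2 t ht], by rw [k1 _ e5, ← e3]; simp⟩
    rw [k2 _ (inv_le.1 b1)]
    rcases le_total t s' with h | h
    · rw [k1 _ h]; simp
    · rw [k2 _ h, e1 t h b2]

theorem pow_fix {a : G} {p : ℝ} (h : a p = p) (n : ℕ) : (a ^ n) p = p := by
  induction n with
  | zero => simp
  | succ n ih => rw [pow_succ, mul_ap, h, ih]

theorem orbit (r : G) (x y : ℝ) (hx : x ≤ r x) (hup : ∀ t, x ≤ t → t ≤ y → t < r t) :
    ∃ n, ∀ m, n ≤ m → y ≤ (r ^ m) x := by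
  have hm : Monotone fun n : ℕ => (r ^ n) x :=
    monotone_nat_of_le_succ fun n => by rw [pow_succ, mul_ap]; exact mono _ hx
  suffices ∃ n, y ≤ (r ^ n) x by
    obtain ⟨n, hn⟩ := this
    exact ⟨n, fun m h => le_trans hn (hm h)⟩
  by_contra h
  push Not at h
  have hb : BddAbove (range fun n : ℕ => (r ^ n) x) := ⟨y, by rintro _ ⟨n, rfl⟩; exact (h n).le⟩
  have h1 : x ≤ ⨆ n : ℕ, (r ^ n) x := by simpa using le_ciSup hb 0
  have h2 : ⨆ n : ℕ, (r ^ n) x ≤ y := ciSup_le fun n => (h n).le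
  obtain ⟨n, hn⟩ := exists_lt_of_lt_ciSup (inv_lt.2 (hup _ h1 h2))
  have h3 := le_ciSup hb (n + 1)
  rw [pow_succ', mul_ap] at h3
  have := inv_lt.1 hn
  linarith

theorem pow_lt {a : G} {p t : ℝ} (h : a p = p) (n : ℕ) (ht : t < p) : (a ^ n) t < p := by
  have := smono (a ^ n) ht
  rwa [pow_fix h] at this

theorem pow_gt {a : G} {p t : ℝ} (h : a p = p) (n : ℕ) (ht : p < t) : p < (a ^ n) t := by
  have := smono (a ^ n) ht
  rwa [pow_fix h] at this

theorem exists_zpow (r : G) {q q' x y : ℝ} (h1 : r q' = q') (up : ∀ t, q < t → t < q' → t < r t)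
    (x0 : q < x) (x1 : x < q') (y0 : q < y) (y1 : y < q') :
    ∃ g : G, g * r = r * g ∧ g q' = q' ∧ x ≤ g y ∧ g y < r x := by
  classical
  obtain ⟨n, hn⟩ := orbit r y x (up y y0 y1).le (fun t e1 e2 => up t (by linarith) (by linarith))
  have a1 := hn n le_rfl
  have a2 := pow_lt h1 n y1
  obtain ⟨m, hm⟩ := orbit r x _ (up x x0 x1).le
    (fun t e1 (e2 : t ≤ (r ^ n) y) => up t (by linarith) (by linarith))
  have hex : ∃ k, (r ^ n) y < (r ^ (k + 1)) x := ⟨m, lt_of_le_of_lt (hm m le_rfl) (by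
    rw [pow_succ, mul_ap]; exact smono _ (up x x0 x1))⟩
  have b1 := Nat.find_spec hex
  have b2 : (r ^ Nat.find hex) x ≤ (r ^ n) y := by
    rcases Nat.eq_zero_or_pos (Nat.find hex) with h | h
    · rw [h]; simpa using a1
    · have := Nat.find_min hex (m := Nat.find hex - 1) (by omega)
      rw [Nat.sub_add_cancel h] at this
      exact not_lt.1 this
  refine ⟨(r ^ Nat.find hex)⁻¹ * r ^ n, by group, ?_, ?_, ?_⟩
  · rw [mul_ap, pow_fix h1, inv_eq (pow_fix h1 _)]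
  · rw [mul_ap]; exact le_inv.2 b2
  · rw [mul_ap, inv_lt, ← mul_ap, ← pow_succ]; exact b1

theorem fixL (U r : G) {q q1 c q1' q' : ℝ} (d1 : q1 ∈ D) (dc : c ∈ D) (hq : q < q1) (hq1 : q1 < c)
    (hq2 : c + 41 < q1') (hq' : q1' < q') (U0 : U q = q) (U1 : U q' = q')
    (upU : ∀ t, q < t → t < q' → t < U t) (up : ∀ t, q < t → t < q' → t < r t)
    (g0 : ∀ t, q ≤ t → t ≤ q1 → r t = U t) (g1 : ∀ t, q1' ≤ t → t ≤ q' → r t = U t)
    (pl : ∀ t, c ≤ t → t ≤ c + 41 → r t = t + 1) :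
    ∃ v : G, Supp (c + 4) (c + 37) v ∧ ∀ r' : G, (∀ t, t ≤ c ∨ c + 40 ≤ t → r' t = r t) →
      (∀ t, c ≤ t → t ≤ c + 41 → r' t = (tr 1 * ((tr 3)⁻¹ * v * tr 3 * v⁻¹)) t) →
      ∃ W : G, W q = q ∧ W q' = q' ∧ ∀ t, q ≤ t → t ≤ q' → W (U t) = r' (W t) := by
  have r0 : r q = q := by rw [g0 q le_rfl hq.le, U0]
  have r1 : r q' = q' := by rw [g1 q' hq'.le le_rfl, U1]
  have dE : c + 40 ∈ D := add_mem dc (ofn_mem 40)
  obtain ⟨n, hn⟩ := orbit r q1 (c + 40) (up _ hq (by linarith)).le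
    (fun t e1 e2 => up t (by linarith) (by linarith))
  have hU1 := upU q1 hq (by linarith)
  obtain ⟨wL, -, L1, L2, L3⟩ := extF U r 1 q q1 d1 hq.le hU1.le (fun t e1 e2 => by
    rw [one_ap, one_ap, g0 t e1 e2]) n
  have L0 : wL q = q := by rw [L2 q (by linarith)]; simp
  have L4 := hn n le_rfl
  rw [one_ap] at L3
  rw [← L3] at L4
  have L5 : (U ^ n) q1 < q' := pow_lt U1 n (by linarith)
  obtain ⟨z, hz⟩ : ∃ z, wL z = c + 40 := ⟨_, ap_inv wL _⟩
  have dz : z ∈ D := by rw [← inv_eq hz]; exact ap_mem _ dE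
  have z1 : z ≤ (U ^ n) q1 := by rw [← ap_le (f := wL), hz]; exact L4
  have z0 : q < z := by rw [← ap_lt (f := wL), hz, L0]; linarith
  have z2 : z < U z := upU z z0 (by linarith)
  obtain ⟨M, hM⟩ := orbit U z q1' z2.le (fun t e1 e2 => upU t (by linarith) (by linarith))
  have M1 := hM _ le_rfl
  have M3 : (U ^ M) z < q' := pow_lt U1 M (by linarith)
  obtain ⟨w0, -, R1, R2, R3⟩ := extB U r 1 ((U ^ M) z) q' (ap_mem _ dz) M3.le
    (upU _ (by linarith) M3).le (fun t e1 e2 => by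
      rw [one_ap, one_ap, g1 t (by linarith) e2]) M
  have y0 : q < (r⁻¹ ^ M) ((U ^ M) z) := pow_gt (inv_eq r0) M (by linarith)
  have y1 : (r⁻¹ ^ M) ((U ^ M) z) < q' := pow_lt (inv_eq r1) M M3
  rw [one_ap] at R3
  rw [← R3] at y0 y1
  simp only [inv_pow, inv_ap] at R1 y0 y1
  obtain ⟨g, gr, gq, g2, g3⟩ := exists_zpow r (x := c + 40) r1 up (by linarith) (by linarith) y0 y1
  rw [pl _ (by linarith) (by linarith)] at g3
  have R0 : (g * w0) q' = q' := by rw [mul_ap, R2 _ M3.le, one_ap, gq]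
  have R4 : ∀ t, z ≤ t → t ≤ q' → (g * w0) (U t) = r ((g * w0) t) := fun t e1 e2 => by
    rw [mul_ap, R1 t e1 e2, ← mul_ap, gr]; rfl
  rw [← mul_ap] at g2 g3
  generalize g * w0 = wR at *
  have L6 : wL (U z) = c + 40 + 1 := by rw [L1 z z0.le z1, hz, pl _ (by linarith) (by linarith)]
  have R6 : wR (U z) = wR z + 1 := by
    rw [R4 z le_rfl (by linarith), pl _ (by linarith) (by linarith)]
  obtain ⟨θ, pθ, hθ⟩ := exists_cm (wR * wL⁻¹) (c + 40) dE
    (by rw [mul_ap, mul_ap, inv_eq L6, inv_eq hz, R6])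
  have θ0 : θ (c + 40) = wR z := by rw [hθ _ le_rfl (by linarith), mul_ap, inv_eq hz]
  obtain ⟨v, hv, -, w, w1, w2, w3⟩ := realize dc pθ (θ0 ▸ g2) (θ0 ▸ g3)
  refine ⟨v, hv.mono (by linarith) (by linarith), fun r' e1 e2 => ?_⟩
  have key : ∀ s, z ≤ s → s ≤ U z → w (wL s) = wR s := fun s b1 b2 => by
    have c1 := mono wL b1
    have c2 := mono wL b2
    rw [hz] at c1
    rw [L6] at c2
    rw [w2 _ c1, hθ _ c1 c2, mul_ap, inv_ap]
  obtain ⟨W, W1, W2⟩ := glue (w * wL) wR z dz (key z le_rfl z2.le)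
  have W3 : ∀ s, s ≤ U z → W s = w (wL s) := fun s h => by
    rcases le_total s z with h' | h'
    · exact W1 s h'
    · rw [W2 s h', key s h' h]
  refine ⟨W, by rw [W1 q z0.le, mul_ap, L0, w1 q (by linarith)], by rw [W2 _ (by linarith), R0],
    fun t b1 b2 => ?_⟩
  rcases le_total t z with h | h
  · rw [W3 _ (mono U h), W1 t h, mul_ap, L1 t b1 (by linarith)]
    have c1 := mono wL h
    rw [hz] at c1
    generalize wL t = y at *
    rcases le_total y c with h' | h'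
    · have := mono r h'
      rw [pl c le_rfl (by linarith)] at this
      rw [w1 _ this, w1 y (by linarith), e1 y (Or.inl h')]
    · have d1 := mono w h'
      have d2 := mono w c1
      rw [w1 c (by linarith)] at d1
      rw [← hz, key z le_rfl z2.le] at d2
      rw [e2 _ d1 (by linarith), ← mul_ap _ w, w3, pl y h' (by linarith)]; simp
  · have d1 := mono wR h
    have : t ≤ U t := by
      rcases b2.eq_or_lt with rfl | b2
      · rw [U1]
      · exact (upU t (by linarith) b2).le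
    rw [W2 t h, W2 _ (le_trans h this), R4 t h b2, e1 _ (Or.inr (by linarith))]

theorem fixB (f b : G) {q q1 c q1' q' : ℝ} (d1 : q1 ∈ D) (dc : c ∈ D) (dq : q ∈ D) (dq' : q' ∈ D)
    (hq : q < q1) (hq1 : q1 < c) (hq2 : c + 41 < q1') (hq' : q1' < q') (hb : Supp q q' b)
    (hf : Supp q1 q1' f) (upU : ∀ t, q < t → t < q' → t < b t)
    (up : ∀ t, q < t → t < q' → t < b (f t)) (pf : ∀ t, c ≤ t → t ≤ c + 41 → f t = t - 2)
    (pb : ∀ y, c - 2 ≤ y → y ≤ c + 39 → b y = y + 3) :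
    ∃ A B : G, Supp q q' A ∧ Supp q q' B ∧ f = ⁅A, B⁆ := by
  have pl : ∀ t, c ≤ t → t ≤ c + 41 → (b * f) t = t + 1 := fun t e1 e2 => by
    rw [mul_ap, pf t e1 e2, pb _ (by linarith) (by linarith)]; ring
  obtain ⟨v, hv, H⟩ := fixL b (b * f) d1 dc hq hq1 hq2 hq' (hb _ (Or.inl le_rfl))
    (hb _ (Or.inr le_rfl)) upU up (fun t _ e => by rw [mul_ap, hf t (Or.inl e)])
    (fun t e _ => by rw [mul_ap, hf t (Or.inr e)]) pl
  have d2 := ofn_mem 2
  have hu := hv.conj (tr 2)⁻¹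
  rw [tr_inv_ap d2, tr_inv_ap d2] at hu
  have f0 := pf c le_rfl (by linarith)
  have f1 := pf (c + 40) (by linarith) (by linarith)
  obtain ⟨W, W0, W1, W2⟩ := H (((tr 2)⁻¹ * v * (tr 2)⁻¹⁻¹) * b * ((tr 2)⁻¹ * v * (tr 2)⁻¹⁻¹)⁻¹ * f)
    (fun t ht => by
      generalize (tr 2)⁻¹ * v * (tr 2)⁻¹⁻¹ = u at *
      simp only [mul_ap] at pl ⊢
      rcases ht with h | h
      · have e1 := mono f h
        have e2 := mono b e1
        rw [pl c le_rfl (by linarith)] at e2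
        rw [hu.inv _ (Or.inl (by linarith)), hu _ (Or.inl (by linarith))]
      · have e1 := mono f h
        have e2 := mono b e1
        rw [pl (c + 40) (by linarith) (by linarith)] at e2
        rw [hu.inv _ (Or.inr (by linarith)), hu _ (Or.inr (by linarith))])
    (fun t e1 e2 => by
      obtain ⟨d3, d4⟩ :=
        (hv.inv.mono (a' := c) (b' := c + 41) (by linarith) (by linarith)).mem e1 e2
      simp only [mul_inv_rev, inv_inv, mul_ap, tr_ap d2, tr_inv_ap d2, tr_one, tr_three,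
        tr_inv_three]
      rw [pf t e1 e2, sub_add_cancel, pb _ (by linarith) (by linarith),
        show v⁻¹ t - 2 + 3 + 2 = v⁻¹ t + 3 by ring]
      ring)
  have hu' : Supp q q' _ := hu.mono (by linarith) (by linarith)
  generalize (tr 2)⁻¹ * v * (tr 2)⁻¹⁻¹ = u at *
  obtain ⟨W', V1, V2⟩ := cut W (x := q) (y := q') (by linarith) dq dq' W0 W1
  have hr : Supp q q' (u * b * u⁻¹ * f) :=
    ((hu'.mul hb).mul hu'.inv).mul (hf.mono hq.le hq'.le)
  have key : W' * b = (u * b * u⁻¹ * f) * W' := by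
    apply ext
    intro t
    rcases le_total t q with h | h
    · rw [(V1.mul hb) t (Or.inl h), (hr.mul V1) t (Or.inl h)]
    rcases le_total q' t with h' | h'
    · rw [(V1.mul hb) t (Or.inr h'), (hr.mul V1) t (Or.inr h')]
    · rw [mul_ap, mul_ap, V2 _ (hb.mem h h').1 (hb.mem h h').2, W2 t h h', V2 t h h']
  refine ⟨u * b⁻¹ * u⁻¹, W' * u⁻¹, (hu'.mul hb.inv).mul hu'.inv, V1.mul hu'.inv, ?_⟩
  rw [commutatorElement_def]
  calc f = u * b⁻¹ * u⁻¹ * ((u * b * u⁻¹ * f) * W') * W'⁻¹ := by group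
    _ = _ := by rw [← key]; group

theorem exists_bump {L : ℝ} (dL : L ∈ D) (hL : 48 < L) : ∃ b : G, Supp (-L - 2) (L + 2) b ∧
    (∀ t, -L - 2 < t → t < L + 2 → t < b t) ∧ (∀ t, -L ≤ t → 2 < b t) ∧
    (∀ t, 0 ≤ t → t ≤ 44 → b t = t + 3) ∧ (∀ t, 44 ≤ t → 47 ≤ b t) ∧
    ∀ t, 89 / 2 ≤ t → L < b t := by
  have d1 := one_mem D
  have d2 := ofn_mem 2
  have dh := half_mem d1
  have dp := sub_mem (neg_mem dL) d2
  obtain ⟨a1, b1⟩ := exists_aff 2 (L + 2) Sl.two (add_mem dL d2)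
  obtain ⟨a2, b2, c2⟩ := exists_interp (x := -L - 1) (x' := -L - 1 / 2) (y := -L) (y' := 5 / 2)
    (by linarith) (by linarith) (sub_mem (neg_mem dL) d1) (sub_mem (neg_mem dL) dh) (neg_mem dL)
    (half_mem (ofn_mem 5))
  obtain ⟨a3, b3, c3⟩ := exists_interp (x := -L - 1 / 2) (x' := 0) (y := 5 / 2) (y' := 3)
    (by linarith) (by linarith) (sub_mem (neg_mem dL) dh) (zero_mem _) (half_mem (ofn_mem 5))
    (ofn_mem 3)
  obtain ⟨a5, b5, c5⟩ := exists_interp (x := 44) (x' := 89 / 2) (y := 47) (y' := L + 1 / 2)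
    (by linarith) (by linarith) (ofn_mem 44) (half_mem (ofn_mem 89)) (ofn_mem 47) (add_mem dL dh)
  obtain ⟨a6, b6, c6⟩ := exists_interp (x := 89 / 2) (x' := L) (y := L + 1 / 2) (y' := L + 1)
    (by linarith) (by linarith) (half_mem (ofn_mem 89)) dL (add_mem dL dh) (add_mem dL d1)
  obtain ⟨a7, b7⟩ := exists_aff 2⁻¹ ((L + 2) / 2) Sl.two.inv (half_mem (add_mem dL d2))
  obtain ⟨k6, l6, r6⟩ := glue a6 a7 L dL (by rw [c6, b7]; ring)
  obtain ⟨k5, l5, r5⟩ := glue a5 k6 (89 / 2) (half_mem (ofn_mem 89))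
    (by rw [c5, l6 _ (by linarith), b6])
  obtain ⟨k4, l4, r4⟩ := glue (tr 3) k5 44 (ofn_mem 44)
    (by rw [l5 _ (by linarith), b5, tr_three]; norm_num)
  obtain ⟨k3, l3, r3⟩ := glue a3 k4 0 (zero_mem _)
    (by rw [l4 _ (by linarith), c3, tr_three]; norm_num)
  obtain ⟨k2, l2, r2⟩ := glue a2 k3 _ (sub_mem (neg_mem dL) dh)
    (by rw [l3 _ (by linarith), c2, b3])
  obtain ⟨k1, l1, r1⟩ := glue a1 k2 _ (sub_mem (neg_mem dL) d1)
    (by rw [l2 _ (by linarith), b2, b1]; ring)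
  have s2 : ∀ t, -L - 1 / 2 ≤ t → k1 t = k3 t := fun t h => by rw [r1 t (by linarith), r2 t h]
  have s3 : ∀ t, 0 ≤ t → k1 t = k4 t := fun t h => by rw [s2 t (by linarith), r3 t h]
  have s4 : ∀ t, 44 ≤ t → k1 t = k5 t := fun t h => by rw [s3 t (by linarith), r4 t h]
  have s5 : ∀ t, 89 / 2 ≤ t → k1 t = k6 t := fun t h => by rw [s4 t (by linarith), r5 t h]
  have s6 : ∀ t, L ≤ t → k1 t = 2⁻¹ * t + (L + 2) / 2 := fun t h => by
    rw [s5 t (by linarith), r6 t h, b7]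
  obtain ⟨b, hb, hb'⟩ := cut k1 (x := -L - 2) (y := L + 2) (by linarith) dp (add_mem dL d2)
    (by rw [l1 _ (by linarith), b1]; ring) (by rw [s6 _ (by linarith)]; ring)
  have p1 : b (-L - 1) = -L := by
    rw [hb' _ (by linarith) (by linarith), l1 _ le_rfl, b1]; ring
  have p2 : b (-L - 1 / 2) = 5 / 2 := by
    rw [hb' _ (by linarith) (by linarith), s2 _ le_rfl, l3 _ (by linarith), b3]
  have p3 : ∀ t, 0 ≤ t → t ≤ 44 → b t = t + 3 := fun t e1 e2 => by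
    rw [hb' _ (by linarith) (by linarith), s3 _ e1, l4 _ e2, tr_three]
  have p4 : b (89 / 2) = L + 1 / 2 := by
    rw [hb' _ (by linarith) (by linarith), s5 _ le_rfl, l6 _ (by linarith), b6]
  have p5 := p3 44 (by linarith) le_rfl
  refine ⟨b, hb, fun t e1 e2 => ?_, fun t e => ?_, p3, fun t e => ?_, fun t e => ?_⟩
  · rcases le_total t (-L - 1) with h1 | h1
    · rw [hb' _ e1.le e2.le, l1 _ h1, b1]; linarith
    rcases le_total t (-L - 1 / 2) with h2 | h2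
    · linarith [mono b h1]
    rcases le_total t 0 with h3 | h3
    · linarith [mono b h2]
    rcases le_total t 44 with h4 | h4
    · linarith [p3 t h3 h4]
    rcases le_total t (89 / 2) with h5 | h5
    · linarith [mono b h4]
    rcases le_total t L with h6 | h6
    · linarith [mono b h5]
    · rw [hb' _ e1.le e2.le, s6 _ h6]; linarith
  · linarith [mono b (show -L - 1 / 2 ≤ t by linarith)]
  · linarith [mono b e]
  · linarith [mono b e]

theorem oneComm_aux {f : G} {x y s0 : ℝ} (hf : Supp x y f) (hs0 : f s0 < s0) :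
    ∃ A B : G, A ∈ K ∧ B ∈ K ∧ f = ⁅A, B⁆ := by
  obtain ⟨s, ds, z1, z2⟩ := exists_dy hs0
  have hs : s < f⁻¹ s := lt_inv.2 (by linarith [smono f z2])
  have d2 := ofn_mem 2
  obtain ⟨w0, w1, w2⟩ := exists_interp hs (show (0 : ℝ) < 2 by norm_num) ds (ap_mem _ ds)
    (zero_mem _) d2
  obtain ⟨w, -, e1, e2, e3⟩ := extF f⁻¹ (tr 2) w0 s s ds le_rfl hs.le (fun t a b => by
    rw [le_antisymm b a, w1, w2, tr_ap d2]; norm_num) 23
  have e4 : ∀ n : ℕ, (tr 2 ^ n) 0 = 2 * n := fun n => by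
    induction n with
    | zero => simp
    | succ n ih => rw [pow_succ', mul_ap, ih, tr_ap d2]; push_cast; ring
  rw [w1, e4] at e3
  have e5 : w s = 0 := by rw [e2 s hs.le, w1]
  have e6 : ∀ t, 0 ≤ t → t ≤ 46 → (w * f * w⁻¹)⁻¹ t = t + 2 := fun t a b => by
    simp only [mul_inv_rev, inv_inv, mul_ap]
    rw [e1 _ (le_inv.2 (by rwa [e5])) (inv_le.2 (by rw [e3]; push_cast; linarith)), ap_inv,
      tr_ap d2]
  obtain ⟨L, dL, -, l1, -, -, l2, -, l3⟩ := exists_big (w x) (w y) 48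
  have hf' : Supp (-L) L (w * f * w⁻¹) := (hf.conj w).mono l1.le l2.le
  have e7 : f = w⁻¹ * (w * f * w⁻¹) * w := by group
  generalize w * f * w⁻¹ = g at *
  obtain ⟨b, hb, b1, b2, b3, b4, b5⟩ := exists_bump dL l3
  obtain ⟨A, B, hA, hB, e⟩ := fixB g b (q := -L - 2) (q1 := -L) (c := 2) (q1' := L) (q' := L + 2)
    (neg_mem dL) d2 (sub_mem (neg_mem dL) d2) (add_mem dL d2) (by linarith) (by linarith)
    (by linarith) (by linarith) hb hf' b1 (fun t a1 a2 => by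
      have c1 : -L - 2 < g t := by
        have := smono g a1
        rwa [hf' _ (Or.inl (by linarith))] at this
      have c2 : g t < L + 2 := by
        have := smono g a2
        rwa [hf' (L + 2) (Or.inr (by linarith))] at this
      obtain ⟨u, rfl⟩ : ∃ u, g⁻¹ u = t := ⟨g t, inv_ap g t⟩
      rw [ap_inv] at c1 c2 ⊢
      rcases le_total u (-L) with h1 | h1
      · rw [hf'.inv u (Or.inl h1)]; exact b1 u c1 c2
      rcases le_total u 0 with h2 | h2
      · linarith [mono g⁻¹ h2, e6 0 le_rfl (by norm_num), b2 u h1]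
      rcases le_total u 44 with h3 | h3
      · linarith [e6 u h2 (by linarith), b3 u h2 h3]
      rcases le_total u (89 / 2) with h4 | h4
      · linarith [e6 u h2 (by linarith), b4 u h3]
      rcases le_total u L with h5 | h5
      · linarith [mono g⁻¹ h5, hf'.inv L (Or.inr le_rfl), b5 u h4]
      · rw [hf'.inv u (Or.inr h5)]; exact b1 u c1 c2)
    (fun t a1 a2 => by
      have := e6 (t - 2) (by linarith) (by linarith)
      rw [sub_add_cancel] at this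
      rw [← ap_inv g (t - 2), this])
    (fun t a1 a2 => b3 t (by linarith) (by linarith))
  refine ⟨w⁻¹ * A * w⁻¹⁻¹, w⁻¹ * B * w⁻¹⁻¹, ⟨_, _, hA.conj _⟩, ⟨_, _, hB.conj _⟩, ?_⟩
  rw [e7, e]; simp only [commutatorElement_def]; group

theorem oneComm {f : G} {x y d e : ℝ} (hf : Supp x y f) (hxy : x ≤ y) (hd : d < x) (he : y < e) :
    ∃ (A B : G) (d' e' : ℝ), d < d' ∧ e' < e ∧ Supp d' e' A ∧ Supp d' e' B ∧ f = ⁅A, B⁆ := by
  obtain ⟨A, B, ⟨a1, a2, hA⟩, ⟨b1, b2, hB⟩, h⟩ : ∃ A B : G, A ∈ K ∧ B ∈ K ∧ f = ⁅A, B⁆ := by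
    by_cases h1 : f = 1
    · exact ⟨1, 1, one_mem _, one_mem _, by simp [h1]⟩
    obtain ⟨s, hs⟩ : ∃ s, f s ≠ s := by
      by_contra h
      push Not at h
      exact h1 (ext h)
    rcases lt_or_gt_of_ne hs with h | h
    · exact oneComm_aux hf h
    · obtain ⟨A, B, hA, hB, e⟩ := oneComm_aux hf.inv (s0 := s) (inv_lt.2 h)
      exact ⟨B, A, hB, hA, by rw [← commutatorElement_inv, ← e, inv_inv]⟩
  obtain ⟨L1, -, -, l1, -, l2, -, -⟩ := exists_big a1 b1 0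
  obtain ⟨L, -, -, -, l3, -, l4, -, l5⟩ := exists_big a2 b2 L1
  obtain ⟨γ, g0, g1, g2⟩ := squeeze L hxy hd he
  have g3 := comm2 (h := γ) hxy hf g0
  refine ⟨γ * A * γ⁻¹, γ * B * γ⁻¹, _, _, g1, g2,
    (hA.mono (by linarith) l3.le).conj γ, (hB.mono (by linarith) l4.le).conj γ, ?_⟩
  calc f = γ * f * γ⁻¹ := by rw [g3]; group
    _ = _ := by rw [h]; simp only [commutatorElement_def]; group

theorem per_comm {e x y : ℝ} {k : G} (he : e ∈ D) (hk : Supp x y k) (hxy : x ≤ y) (h1 : e < x)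
    (h2 : y < e + 1) : ∃ A B : G, Cm A ∧ Cm B ∧ Per e ⁅A, B⁆ ∧ IsCut e k ⁅A, B⁆ := by
  obtain ⟨A, B, d', e', a1, a2, hA, hB, rfl⟩ := oneComm hk hxy h1 h2
  obtain ⟨A', pA, cA⟩ := (hA.mono a1.le a2.le).per he
  obtain ⟨B', pB, cB⟩ := (hB.mono a1.le a2.le).per he
  exact ⟨A', B', pA.1, pB.1, pA.commutator pB, cA.commutator cB⟩

theorem cm_two {θ : G} (hθ : Cm θ) : ∃ (n : ℤ) (A B A' B' : G), Cm A ∧ Cm B ∧ Cm A' ∧ Cm B' ∧
    θ = tr n * (⁅A, B⁆ * ⁅A', B'⁆) := by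
  have h1 : Cm ((tr (⌊θ 0⌋ : ℤ))⁻¹ * θ) := fun t => by
    simp only [mul_ap, tr_inv_int]; rw [hθ]; ring
  obtain ⟨e, x, y, x', y', k, k', de, e1, e2, k1, k2, k3, k4, m1, m2, m3, m4, H⟩ :=
    split_cm (zero_mem _) h1 (by simp) (by simp [Int.fract_lt_one])
  obtain ⟨A, B, a1, a2, a3, a4⟩ := per_comm de k1 k2 k3 k4
  obtain ⟨A', B', b1, b2, b3, b4⟩ := per_comm (zero_mem _) m1 m2 m3 m4
  exact ⟨⌊θ 0⌋, A, B, A', B', a1, a2, b1, b2, by rw [← H _ _ a3 a4 b3 b4]; group⟩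

end Pool.Agent.H.MP_3d8b4c_al
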