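import Mathlib

open Filter Set Subgroup

namespace Pool.Agent.H.MP_3d8b4c_al

variable {Γ Ω : Type*} [Group Γ] [MulAction Γ Ω]

inductive TX (a s : Γ) : Γ → Prop
  | base (n : ℤ) : TX a s (a ^ n)
  | step (n : ℤ) (h : Γ) : n ≠ 0 → TX a s h → TX a s (a ^ n * s * h)

theorem nfH {a s : Γ} (hs : s * s = 1) {h : Γ} (hh : h ∈ closure {a, s}) :
    TX a s h ∨ ∃ h', TX a s h' ∧ h = s * h' := by
  have ka : ∀ (m : ℤ) h, m ≠ 0 → (TX a s h ∨ ∃ h', TX a s h' ∧ h = s * h') →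
      TX a s (a ^ m * h) ∨ ∃ h', TX a s h' ∧ a ^ m * h = s * h' := by
    rintro m h hm (e | ⟨h', e, rfl⟩)
    · rcases e with n | ⟨n, h', -, e⟩
      · rw [← zpow_add]; exact Or.inl (TX.base _)
      · by_cases c : m + n = 0
        · exact Or.inr ⟨h', e, by rw [← mul_assoc, ← mul_assoc, ← zpow_add, c]; simp⟩
        · left; rw [← mul_assoc, ← mul_assoc, ← zpow_add]; exact TX.step _ _ c e
    · left; rw [← mul_assoc]; exact TX.step _ _ hm e
  have ks : ∀ h, (TX a s h ∨ ∃ h', TX a s h' ∧ h = s * h') →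
      TX a s (s * h) ∨ ∃ h', TX a s h' ∧ s * h = s * h' := by
    rintro h (e | ⟨h', e, rfl⟩)
    · exact Or.inr ⟨h, e, rfl⟩
    · left; rwa [← mul_assoc, hs, one_mul]
  induction hh using closure_induction_left with
  | one => exact Or.inl (by simpa using TX.base (a := a) (s := s) 0)
  | mul_left c hc n _ ih =>
    rcases hc with rfl | rfl
    · simpa using ka 1 n one_ne_zero ih
    · exact ks n ih
  | inv_mul_cancel c hc n _ ih =>
    rcases hc with rfl | rfl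
    · simpa using ka (-1) n (by decide) ih
    · rw [inv_eq_of_mul_eq_one_right hs]; exact ks n ih

theorem zp_inv {a : Γ} {O : Set Ω} (h : ∀ x, a • x ∈ O ↔ x ∈ O) {k : Γ} (hk : k ∈ zpowers a)
    (x : Ω) : k • x ∈ O ↔ x ∈ O := by
  obtain ⟨n, rfl⟩ := hk
  induction n using Int.induction_on generalizing x with
  | zero => simp
  | succ n ih => simp only at ih ⊢; rw [zpow_add_one, mul_smul, ih, h]
  | pred n ih => simp only at ih ⊢; rw [zpow_sub_one, mul_smul, ih, ← h, smul_inv_smul]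

structure Side (a s : Γ) (X O O' : Set Ω) : Prop where
  hs : s * s = 1
  sX : ∀ x, s • x ∈ X ↔ x ∉ X
  aX : ∀ n : ℤ, n ≠ 0 → ∀ x, x ∉ X → a ^ n • x ∈ X
  OX : O ⊆ X
  OY : ∀ x ∈ O', x ∉ X
  aO : ∀ x, a • x ∈ O ↔ x ∈ O
  aO' : ∀ x, (s * a) • x ∈ O' ↔ x ∈ O'

section
variable {a s : Γ} {X O O' : Set Ω} (S : Side a s X O O')
include S

theorem Side.tx {h : Γ} (hh : TX a s h) {x : Ω} (hx : x ∈ O) : h • x ∈ X := by
  induction hh with
  | base n => exact S.OX ((zp_inv S.aO ⟨n, rfl⟩ x).2 hx)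
  | step n h hn _ ih =>
    rw [mul_smul, mul_smul]
    exact S.aX n hn _ fun e => (S.sX _).1 e ih

theorem Side.d1 {h : Γ} (hh : h ∈ closure {a, s}) {x : Ω} (hx : x ∈ O) (e : h • x ∈ O) :
    h ∈ zpowers a := by
  rcases nfH S.hs hh with h1 | ⟨h', h1, rfl⟩
  · rcases h1 with n | ⟨n, h', -, h1⟩
    · exact ⟨n, rfl⟩
    · rw [mul_smul, mul_smul, zp_inv S.aO ⟨n, rfl⟩] at e
      exact absurd (S.tx h1 hx) ((S.sX _).1 (S.OX e))
  · rw [mul_smul] at e
    exact absurd (S.tx h1 hx) ((S.sX _).1 (S.OX e))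

theorem Side.d2 {h : Γ} (hh : h ∈ closure {a, s}) {x : Ω} (hx : x ∈ O) : h • x ∉ O' := by
  have k : ∀ y, s • y ∈ O' → a⁻¹ • y ∈ O' := fun y e => by
    rw [← S.aO', mul_smul, smul_inv_smul]; exact e
  rcases nfH S.hs hh with h1 | ⟨h', h1, rfl⟩
  · exact fun e => S.OY _ e (S.tx h1 hx)
  · clear hh
    induction h1 with
    | base n =>
      intro e
      rw [mul_smul] at e
      have := k _ e
      rw [← mul_smul, ← zpow_neg_one, ← zpow_add] at this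
      exact S.OY _ this (S.tx (TX.base _) hx)
    | step n h hn h2 ih =>
      intro e
      rw [mul_smul] at e
      have := k _ e
      rw [← mul_smul, ← mul_assoc, ← mul_assoc, ← zpow_neg_one, ← zpow_add] at this
      by_cases c : -1 + n = 0
      · rw [c, zpow_zero, one_mul] at this
        exact ih this
      · exact S.OY _ this (S.tx (TX.step _ _ c h2) hx)

end

structure HN (H : Subgroup Γ) (s : Γ) (e t : Bool → Γ) (W : Bool → Set Ω) : Prop where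
  gen : closure ((H : Set Γ) ∪ {t true}) = ⊤
  ti : ∀ τ, t (!τ) = (t τ)⁻¹
  tW : ∀ τ x, t τ • x ∈ W τ ↔ x ∉ W (!τ)
  te : ∀ τ, t τ * e (!τ) = e τ * t τ
  DD : ∀ h ∈ H, ∀ σ τ x, x ∈ W σ → h • x ∈ W τ → σ = τ ∧ h ∈ zpowers (e τ)
  eW : ∀ τ x, e τ • x ∈ W τ ↔ x ∈ W τ
  eH : ∀ τ, e τ ∈ H
  sH : s ∈ H
  ne : ∀ τ, (W τ).Nonempty
  se : ∀ τ, s ∉ zpowers (e τ)

inductive RR (H : Subgroup Γ) (e t : Bool → Γ) : Γ → Bool → Prop
  | base (τ : Bool) (h : Γ) : h ∈ H → RR H e t (t τ * h) τ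
  | step (τ σ : Bool) (h g : Γ) : RR H e t g σ → h ∈ H → (σ = !τ → h ∉ zpowers (e σ)) →
      RR H e t (t τ * h * g) τ

theorem no_desc {ι α : Type*} (W : ι → Set α) (P : ι → Prop) (hf : (W '' {i | P i}).Finite)
    (h : ∀ i, P i → ∃ j, P j ∧ W j ⊆ W i ∧ ¬ W i ⊆ W j) (i : ι) : ¬ P i := fun hi => by
  obtain ⟨_, ⟨i, hi, rfl⟩, hm⟩ := hf.exists_minimal ⟨_, i, hi, rfl⟩
  obtain ⟨j, a, b, c⟩ := h i hi
  exact c (hm ⟨j, a, rfl⟩ b)

section
variable {H : Subgroup Γ} {s : Γ} {e t : Bool → Γ} {W : Bool → Set Ω} (N : HN H s e t W)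
include N

theorem HN.conj (τ : Bool) {h : Γ} (hh : h ∈ zpowers (e (!τ))) :
    t τ * h * (t τ)⁻¹ ∈ zpowers (e τ) := by
  obtain ⟨n, rfl⟩ := hh
  exact ⟨n, by simp only; rw [← conj_zpow, N.te, mul_inv_cancel_right]⟩

theorem HN.nf (g : Γ) : g ∈ H ∨ ∃ h ∈ H, ∃ g' τ, RR H e t g' τ ∧ g = h * g' := by
  have kH : ∀ c ∈ H, ∀ g, (g ∈ H ∨ ∃ h ∈ H, ∃ g' τ, RR H e t g' τ ∧ g = h * g') →
      c * g ∈ H ∨ ∃ h ∈ H, ∃ g' τ, RR H e t g' τ ∧ c * g = h * g' := by
    rintro c hc g (h | ⟨h, h1, g', τ, h2, rfl⟩)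
    · exact Or.inl (mul_mem hc h)
    · exact Or.inr ⟨c * h, mul_mem hc h1, g', τ, h2, (mul_assoc _ _ _).symm⟩
  have kt : ∀ τ g, (g ∈ H ∨ ∃ h ∈ H, ∃ g' τ, RR H e t g' τ ∧ g = h * g') →
      t τ * g ∈ H ∨ ∃ h ∈ H, ∃ g' σ, RR H e t g' σ ∧ t τ * g = h * g' := by
    rintro τ g (h | ⟨h, h1, g', σ, h2, rfl⟩)
    · exact Or.inr ⟨1, one_mem _, _, _, RR.base τ g h, (one_mul _).symm⟩
    by_cases c : σ = (!τ) ∧ h ∈ zpowers (e σ)
    · obtain ⟨rfl, c⟩ := c
      have c1 : t τ * h * (t τ)⁻¹ ∈ H := zpowers_le.2 (N.eH τ) (N.conj τ c)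
      generalize hσ : (!τ) = σ at h2
      rcases h2 with ⟨_, h', h3⟩ | ⟨_, ρ, h', g'', h3, h4, -⟩
      · left
        rw [← hσ, N.ti, ← mul_assoc, ← mul_assoc]
        exact mul_mem c1 h3
      · exact Or.inr ⟨_, mul_mem c1 h4, g'', ρ, h3, by rw [← hσ, N.ti]; group⟩
    · exact Or.inr ⟨1, one_mem _, _, _, RR.step τ σ h g' h2 h1 fun a b => c ⟨a, b⟩, by group⟩
  have hg : g ∈ closure ((H : Set Γ) ∪ {t true}) := N.gen ▸ mem_top g
  induction hg using closure_induction_left with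
  | one => exact Or.inl (one_mem _)
  | mul_left c hc n _ ih =>
    rcases hc with hc | rfl
    exacts [kH c hc n ih, kt _ n ih]
  | inv_mul_cancel c hc n _ ih =>
    rcases hc with hc | rfl
    exacts [kH _ (inv_mem hc) n ih, N.ti true ▸ kt _ n ih]

theorem HN.far {g : Γ} {τ : Bool} (h : RR H e t g τ) :
    ∃ k ∈ H, ∃ σ, ∀ x : Ω, k • x ∉ W σ → g • x ∈ W τ := by
  induction h with
  | base τ h hh => exact ⟨h, hh, !τ, fun x hx => by rwa [mul_smul, N.tW]⟩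
  | step τ σ h g _ hh c ih =>
    obtain ⟨k, hk, ρ, ih⟩ := ih
    refine ⟨k, hk, ρ, fun x hx => ?_⟩
    rw [mul_smul, mul_smul, N.tW]
    intro e1
    obtain ⟨e2, e3⟩ := N.DD h hh _ _ _ (ih x hx) e1
    exact c e2 (e2 ▸ e3)

theorem HN.zz {h k : Γ} (hhk : k * h⁻¹ ∈ H) {σ τ : Bool} {x : Ω} (h1 : h • x ∈ W σ)
    (h2 : k • x ∈ W τ) : (σ = τ ∧ k * h⁻¹ ∈ zpowers (e τ)) ∧ ∀ y : Ω, h • y ∈ W σ ↔ k • y ∈ W τ := by
  obtain ⟨rfl, a⟩ := N.DD _ hhk σ τ _ h1 (by rwa [← mul_smul, inv_mul_cancel_right])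
  exact ⟨⟨rfl, a⟩, fun y => by rw [← zp_inv (N.eW σ) a, ← mul_smul, inv_mul_cancel_right]⟩

theorem HN.fix {g : Γ} (hg : ∀ x ∈ W false, g • x = x) : g ∈ zpowers (e false) := by
  obtain ⟨o, ho⟩ := N.ne false
  obtain ⟨p, hp⟩ := N.ne true
  rcases N.nf g with h | ⟨h, h1, g', τ, h2, rfl⟩
  · exact (N.DD g h _ _ o ho (by rwa [hg o ho])).2
  exfalso
  obtain ⟨k, k1, σ, k2⟩ := N.far h2
  have k3 : ∀ x : Ω, k • x ∉ W σ → h⁻¹ • (h * g') • x ∈ W τ := fun x hx => by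
    rw [← mul_smul, inv_mul_cancel_left]; exact k2 x hx
  generalize h * g' = g at *
  have q1 : s • s⁻¹ • o ∈ W false := by rwa [smul_inv_smul]
  have p0 : p ∉ W false := fun c =>
    absurd (N.DD 1 (one_mem _) true false p hp (by simpa)).1 (by decide)
  have q0 : s⁻¹ • o ∉ W false := fun c => N.se _ (N.DD s N.sH _ _ _ c q1).2
  have one : ∀ {u : Γ} {ρ : Bool}, u ∈ H → u • p ∈ W ρ → u • s⁻¹ • o ∉ W ρ := fun {u ρ} a b c => by
    have e1 := (N.DD u a _ _ _ hp b).1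
    have e2 := (N.zz (mul_mem a (inv_mem N.sH)) q1 c).1.1
    rw [← e1] at e2
    exact absurd e2 (by decide)
  by_cases c : k • o ∈ W σ
  · have z := (N.zz (h := 1) (by simpa) (by simpa using ho) c).2
    have z2 : ∀ y, y ∉ W false → h⁻¹ • y ∈ W τ := fun y hy => by
      have := k3 (g⁻¹ • y) fun a => by
        have b : g⁻¹ • y ∈ W false := by simpa using (z _).2 a
        have b' := hg _ b
        rw [smul_inv_smul] at b'
        exact hy (b' ▸ b)
      rwa [smul_inv_smul] at this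
    exact one (inv_mem h1) (z2 _ p0) (z2 _ q0)
  · have a := k3 o c
    rw [hg o ho] at a
    have z := (N.zz (h := 1) (by simpa) (by simpa using ho) a).2
    have z2 : ∀ y, y ∉ W false → k • y ∈ W σ := fun y hy => by
      by_contra b
      have b1 : g • y ∈ W false := by simpa using (z _).2 (k3 y b)
      have b2 := hg _ b1
      rw [smul_left_cancel_iff] at b2
      exact hy (b2 ▸ b1)
    exact one k1 (z2 _ p0) (z2 _ q0)

end

open Classical in
theorem line_ends (χ : Γ → ZMod 2) (a : Γ) (ha : ∀ n : ℤ, a ^ n = 1 → n = 0)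
    (hf : {g | χ (a * g) ≠ χ g}.Finite) : ∃ cp cm : Γ → ZMod 2,
    (∀ g, ∀ᶠ n : ℕ in atTop, χ (a ^ n * g) = cp g ∧ χ (a⁻¹ ^ n * g) = cm g) ∧
    (∀ (E : Finset Γ) g, (∀ k, χ (a * k) ≠ χ k → k ∈ E) →
      ∑ k ∈ E.filter (fun k => k * g⁻¹ ∈ zpowers a), (χ (a * k) - χ k) = cp g - cm g) ∧
    ((∀ g, cp g = cm g) → {g | cp g ≠ χ g}.Finite) := by
  have inj : ∀ g, Function.Injective fun n : ℤ => a ^ n * g := fun g n m e => by
    have := ha (n - m) (by rw [zpow_sub, mul_inv_eq_one]; exact mul_right_cancel e)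
    omega
  have bd : ∀ g (E : Set Γ), E.Finite → ∃ M : ℕ, ∀ n : ℤ, a ^ n * g ∈ E → -M ≤ n ∧ n < M := by
    intro g E hE
    obtain ⟨M, hM⟩ := ((hE.preimage (inj g).injOn).image Int.natAbs).bddAbove
    exact ⟨M + 1, fun n hn => by have := hM ⟨n, hn, rfl⟩; omega⟩
  have stab : ∀ g (i j : ℤ), i ≤ j → (∀ n, i ≤ n → n < j → χ (a * (a ^ n * g)) = χ (a ^ n * g)) →
      χ (a ^ j * g) = χ (a ^ i * g) := by
    intro g i j hij
    induction j, hij using Int.le_induction with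
    | base => exact fun _ => rfl
    | succ j hj ih =>
      intro h
      rw [add_comm, zpow_one_add, mul_assoc, h j hj (by omega), ih fun n a b => h n a (by omega)]
  choose M hM using fun g => bd g _ hf
  have hM' : ∀ g (n : ℤ), (M g : ℤ) ≤ n ∨ n < -M g → χ (a * (a ^ n * g)) = χ (a ^ n * g) :=
    fun g n h => by_contra fun c => by have := hM g n c; omega
  have up : ∀ g (j : ℤ), (M g : ℤ) ≤ j → χ (a ^ j * g) = χ (a ^ (M g : ℤ) * g) := fun g j h =>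
    stab g _ _ h fun n a _ => hM' g n (Or.inl a)
  have dn : ∀ g (j : ℤ), j ≤ -M g → χ (a ^ j * g) = χ (a ^ (-M g : ℤ) * g) := fun g j h =>
    (stab g _ _ h fun n _ b => hM' g n (Or.inr b)).symm
  refine ⟨fun g => χ (a ^ (M g : ℤ) * g), fun g => χ (a ^ (-M g : ℤ) * g), fun g => ?_,
    fun E g hE => ?_, fun h => ?_⟩
  · filter_upwards [eventually_ge_atTop (M g)] with n hn
    exact ⟨by rw [← zpow_natCast, up g n (by omega)],
      by rw [inv_pow, ← zpow_natCast, ← zpow_neg, dn g _ (by omega)]⟩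
  · have tel : ∀ m : ℕ, ∑ i ∈ Finset.range m, (χ (a * (a ^ (i - M g : ℤ) * g)) -
        χ (a ^ (i - M g : ℤ) * g)) = χ (a ^ (m - M g : ℤ) * g) - χ (a ^ (-M g : ℤ) * g) := by
      intro m
      induction m with
      | zero => simp
      | succ m ih =>
        rw [Finset.sum_range_succ, ih, ← mul_assoc, ← zpow_one_add]
        push_cast
        rw [show (1 : ℤ) + (m - M g) = m + 1 - M g by ring]; ring
    have := tel (2 * M g)
    push_cast at this
    rw [show (2 : ℤ) * M g - M g = M g by ring] at this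
    simp only
    rw [← this]
    symm
    refine Finset.sum_bij_ne_zero (fun i _ _ => a ^ (i - M g : ℤ) * g) (fun i _ h => ?_)
      (fun i _ _ j _ _ h => by have := inj g h; omega) (fun k hk h => ?_) fun _ _ _ => rfl
    · exact Finset.mem_filter.2 ⟨hE _ (sub_ne_zero.1 h), ⟨i - M g, by simp⟩⟩
    · obtain ⟨n, hn⟩ := (Finset.mem_filter.1 hk).2
      obtain rfl : k = a ^ n * g := by rw [show a ^ n = k * g⁻¹ from hn]; simp
      have := hM g n (sub_ne_zero.1 h)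
      have e : (((n + M g).toNat : ℕ) : ℤ) - M g = n := by omega
      exact ⟨(n + M g).toNat, Finset.mem_range.2 (by omega), by rwa [e], by rw [e]⟩
  · refine (hf.biUnion (t := fun k => (fun n : ℤ => a ^ n * k) '' Icc (-M k : ℤ) 0)
      fun k _ => (finite_Icc _ _).image _).subset fun g hg => ?_
    obtain ⟨n, n1, -, n2⟩ : ∃ n : ℤ, 0 ≤ n ∧ n < M g ∧ χ (a * (a ^ n * g)) ≠ χ (a ^ n * g) := by
      by_contra c
      push Not at c
      exact hg (by simpa using stab g 0 (M g) (by omega) c)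
    obtain ⟨m, -, m1, m2⟩ : ∃ n : ℤ, -M g ≤ n ∧ n < 0 ∧ χ (a * (a ^ n * g)) ≠ χ (a ^ n * g) := by
      by_contra c
      push Not at c
      exact hg ((h g).trans (by simpa using (stab g (-M g) 0 (by omega) c).symm))
    have := hM (a ^ n * g) (m - n) (by rwa [← mul_assoc, ← zpow_add, sub_add_cancel])
    exact mem_biUnion n2 ⟨-n, ⟨by omega, by omega⟩, by simp⟩

end Pool.Agent.H.MP_3d8b4c_al
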