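import Pool.Agent.H.MP_3d8b4c_al.L1

open Filter Set Subgroup

namespace Pool.Agent.H.MP_3d8b4c_al

variable {Γ Ω : Type*} [Group Γ] [MulAction Γ Ω]

structure Arc (a s : Γ) (X Am Ap : Set Ω) : Prop where
  sX : ∀ x, s • x ∈ X ↔ x ∉ X
  mX : Am ⊆ X
  pX : Ap ⊆ X
  dj : ∀ x ∈ Am, x ∉ Ap
  mn : Am.Nonempty
  pn : Ap.Nonempty
  m1 : ∀ x, a • x ∈ Am ∨ a • x ∉ X → x ∈ Am
  p1 : ∀ x, x ∈ Ap ∨ x ∉ X → a • x ∈ Ap

theorem tree_zero {a s : Γ} {X Am Ap : Set Ω} (A : Arc a s X Am Ap) (D : Γ → ZMod 2)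
    (hf : {g | D g ≠ 0}.Finite)
    (h : ∀ k, D (a⁻¹ * k) + D k + D (a⁻¹ * (s * k)) + D (s * k) = 0) (g : Γ) : D g = 0 := by
  let W : Γ × Bool → Set Ω := fun p => {x | p.1 • x ∈ if p.2 then Am else Ap}
  have W1 : ∀ g x, x ∈ W (g, true) ↔ g • x ∈ Am := fun _ _ => Iff.rfl
  have W0 : ∀ g x, x ∈ W (g, false) ↔ g • x ∈ Ap := fun _ _ => Iff.rfl
  have n1 : ∀ g : Γ, ∃ x : Ω, g • x ∈ Am := fun g => by
    obtain ⟨x, hx⟩ := A.mn; exact ⟨g⁻¹ • x, by rwa [smul_inv_smul]⟩
  have n0 : ∀ g : Γ, ∃ x : Ω, g • x ∈ Ap := fun g => by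
    obtain ⟨x, hx⟩ := A.pn; exact ⟨g⁻¹ • x, by rwa [smul_inv_smul]⟩
  have sY : ∀ (k : Γ) (x : Ω), (s * k) • x ∈ X → k • x ∉ X := fun k x h => by
    rw [mul_smul] at h; exact (A.sX _).1 h
  by_contra hg
  refine no_desc W (fun p => D (if p.2 then p.1 else a⁻¹ * p.1) ≠ 0) (Finite.image _ ?_) ?_
    (g, true) hg
  · refine ((hf.image fun k => (k, true)).union (hf.image fun k => (a * k, false))).subset ?_
    rintro ⟨k, _ | _⟩ hk
    · exact Or.inr ⟨_, hk, by simp⟩
    · exact Or.inl ⟨_, hk, rfl⟩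
  have key : ∀ (k : Γ) (B : Set Ω) (Z : Set Ω) (β : Bool), B = (if β then Am else Ap) →
      (∀ x : Ω, k • x ∈ B ∨ k • x ∉ X → x ∈ Z) → D (if β then a⁻¹ * k else k) ≠ 0 →
      ∃ j : Γ × Bool, D (if j.2 then j.1 else a⁻¹ * j.1) ≠ 0 ∧ W j ⊆ Z ∧ ¬ Z ⊆ W j := by
    intro k B Z β hB hZ hD
    have BX : B ⊆ X := by cases β; exacts [hB ▸ A.pX, hB ▸ A.mX]
    obtain ⟨x1, h1⟩ := n1 (s * k)
    obtain ⟨x0, h0⟩ := n0 (s * k)
    by_cases c1 : D (s * k) ≠ 0
    · exact ⟨(s * k, true), c1, fun x hx => hZ x (Or.inr (sY k x (A.mX hx))),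
        fun e => A.dj _ (e (hZ x0 (Or.inr (sY k x0 (A.pX h0))))) h0⟩
    by_cases c0 : D (a⁻¹ * (s * k)) ≠ 0
    · exact ⟨(s * k, false), c0, fun x hx => hZ x (Or.inr (sY k x (A.pX hx))),
        fun e => A.dj _ h1 (e (hZ x1 (Or.inr (sY k x1 (A.mX h1)))))⟩
    push Not at c1 c0
    have := h k
    rw [c1, c0, add_zero, add_zero] at this
    refine ⟨(k, β), fun e => hD ?_, fun x hx => hZ x (Or.inl (hB ▸ hx)), fun e => ?_⟩
    · cases β
      · simp only [Bool.false_eq_true, if_false] at e ⊢; rwa [e, zero_add] at this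
      · simp only [if_true] at e ⊢; rwa [e, add_zero] at this
    · have := e (hZ x1 (Or.inr (sY k x1 (A.mX h1))))
      exact sY k x1 (A.mX h1) (BX (hB ▸ this))
  rintro ⟨k, _ | _⟩ hk
  · exact key (a⁻¹ * k) Ap _ false rfl (fun x hx => by
      have := A.p1 _ hx
      rwa [mul_smul, smul_inv_smul] at this) hk
  · exact key (a * k) Am _ true rfl (fun x hx => A.m1 _ (by rwa [← mul_smul])) (by simpa using hk)

theorem oneEnd {H : Subgroup Γ} {s : Γ} {e t : Bool → Γ} {W : Bool → Set Ω} (N : HN H s e t W)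
    {X Am Ap : Set Ω} (A : Arc (e false) s X Am Ap) (hs : s * s = 1) (he : e true = s * e false)
    (hgen : closure {e false, s, t true} = ⊤) (ho : ∀ τ (n : ℤ), e τ ^ n = 1 → n = 0)
    (χ : Γ → ZMod 2) (fa : {g | χ (e false * g) ≠ χ g}.Finite) (fs : {g | χ (s * g) ≠ χ g}.Finite)
    (fb : {g | χ (t true * g) ≠ χ g}.Finite) : ∃ c, {g | χ g ≠ c}.Finite := by
  classical
  have fe : ∀ τ, {g | χ (e τ * g) ≠ χ g}.Finite := by
    rintro (_ | _)
    · exact fa
    · refine (fa.union (fs.preimage (mul_right_injective (e false)).injOn)).subset fun g hg => ?_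
      by_contra c
      simp only [mem_union, mem_setOf_eq, mem_preimage, not_or, not_not] at c
      exact hg (by rw [he, mul_assoc, c.2, c.1])
  have ft : ∀ τ, {g | χ (t τ * g) ≠ χ g}.Finite := by
    rintro (_ | _)
    · refine (fb.preimage (mul_right_injective (t false)).injOn).subset fun g hg c => hg ?_
      rw [← c, show t false = (t true)⁻¹ from N.ti true, mul_inv_cancel_left]
    · exact fb
  choose cp cm h1 h2 h3 using fun τ => line_ends χ (e τ) (ho τ) (fe τ)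
  have out : ∀ (a g : Γ) (E : Set Γ), (∀ n : ℤ, a ^ n = 1 → n = 0) → E.Finite →
      ∀ᶠ n : ℕ in atTop, a ^ n * g ∉ E := by
    intro a g E ha hE
    have : Function.Injective fun n : ℕ => a ^ n * g := fun n m c => by
      have := ha (n - m) (by
        rw [zpow_sub, mul_inv_eq_one, zpow_natCast, zpow_natCast]; exact mul_right_cancel c)
      omega
    rw [← Nat.cofinite_eq_atTop]
    exact this.tendsto_cofinite.eventually hE.eventually_cofinite_notMem
  have par : ∀ τ g, cp τ (t τ * g) = cp (!τ) g ∧ cm τ (t τ * g) = cm (!τ) g := fun τ g => by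
    obtain ⟨n, ⟨a1, a2⟩, ⟨a3, a4⟩, a5, a6⟩ := ((h1 τ (t τ * g)).and ((h1 (!τ) g).and
      ((out _ g _ (ho (!τ)) (ft τ)).and (out (e (!τ))⁻¹ g _ (fun n c => by
        have := ho _ (-n) (by rwa [zpow_neg, ← inv_zpow]); omega) (ft τ))))).exists
    have c1 : e τ = t τ * e (!τ) * (t τ)⁻¹ := by rw [N.te]; group
    simp only [mem_setOf_eq, not_not] at a5 a6
    constructor
    · rw [← a1, ← a3, ← a5, c1, conj_pow]; congr 1; group
    · rw [← a2, ← a4, ← a6, c1, conj_inv, conj_pow]; congr 1; group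
  have inv : ∀ τ g, cp τ (e τ * g) = cp τ g := fun τ g => by
    obtain ⟨n, a1, a2⟩ := ((h1 τ (e τ * g)).and
      ((tendsto_add_atTop_nat 1).eventually (h1 τ g))).exists
    rw [← a1.1, ← a2.1, pow_succ, mul_assoc]
  obtain ⟨E, E1, E2⟩ : ∃ E : Finset Γ, (∀ τ k, χ (e τ * k) ≠ χ k → k ∈ E) ∧
      ∀ k ∈ E, (e false)⁻¹ * s * e false * k ∈ E := by
    let E0 := ((fe false).union (fe true)).toFinset
    refine ⟨E0 ∪ E0.image fun k => (e false)⁻¹ * s * e false * k, fun τ k hk => ?_, fun k hk => ?_⟩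
    · apply Finset.mem_union_left
      cases τ <;> simp [E0, hk]
    · rcases Finset.mem_union.1 hk with c | c
      · exact Finset.mem_union_right _ (Finset.mem_image_of_mem _ c)
      · obtain ⟨j, hj, rfl⟩ := Finset.mem_image.1 c
        apply Finset.mem_union_left
        rwa [show (e false)⁻¹ * s * e false * ((e false)⁻¹ * s * e false * j) =
          (e false)⁻¹ * (s * s) * e false * j by group, hs, mul_one, inv_mul_cancel, one_mul]
  have zero : ∀ σ (p : Γ → Prop) [DecidablePred p], (∀ k j, p k → j * k⁻¹ ∈ zpowers (e σ) → p j) →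
      (∀ k, p k → cp σ k = cm σ k) → ∑ k ∈ E.filter p, (χ (e σ * k) - χ k) = 0 := by
    intro σ p _ p1 p2
    refine Finset.sum_cancels_of_partition_cancels (QuotientGroup.rightRel (zpowers (e σ)))
      fun x hx => ?_
    have hx' := (Finset.mem_filter.1 hx).2
    rw [← sub_eq_zero.2 (p2 x hx'), ← h2 σ E x (E1 σ)]
    refine Finset.sum_congr ?_ fun _ _ => rfl
    ext k
    simp only [Finset.mem_filter, QuotientGroup.rightRel_apply]
    rw [← inv_mem_iff (x := x * k⁻¹), mul_inv_rev, inv_inv]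
    exact ⟨fun h => ⟨h.1.1, h.2⟩, fun h => ⟨⟨h.1, p1 x k hx' h.2⟩, h.2⟩⟩
  have even : ∀ τ g, (∀ σ k, k * g⁻¹ ∈ H → ¬ (σ = τ ∧ k * g⁻¹ ∈ zpowers (e τ)) →
      cp σ k = cm σ k) → cp τ g = cm τ g := by
    intro τ g h
    have sat : ∀ σ k j, k * g⁻¹ ∈ H → j * k⁻¹ ∈ zpowers (e σ) → j * g⁻¹ ∈ H := fun σ k j a b => by
      simpa [mul_assoc] using mul_mem (zpowers_le.2 (N.eH σ) b) a
    have T : ∑ k ∈ E.filter (fun k => k * g⁻¹ ∈ H), (χ (e true * k) - χ k) =
        ∑ k ∈ E.filter (fun k => k * g⁻¹ ∈ H), (χ (e false * k) - χ k) := by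
      rw [← sub_eq_zero, ← Finset.sum_sub_distrib]
      refine Finset.sum_involution (fun k _ => (e false)⁻¹ * s * e false * k) (fun k _ => ?_)
        (fun k _ _ c => N.se false ?_) (fun k hk => ?_) fun k _ => ?_
      · rw [he, show s * e false * ((e false)⁻¹ * s * e false * k) = s * s * e false * k by group,
          hs, one_mul, show e false * ((e false)⁻¹ * s * e false * k) = s * e false * k by group]
        ring
      · have c1 : (e false)⁻¹ * s * e false = 1 := by simpa using c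
        rw [show s = e false * ((e false)⁻¹ * s * e false) * (e false)⁻¹ by group, c1]; simp
      · obtain ⟨a, b⟩ := Finset.mem_filter.1 hk
        exact Finset.mem_filter.2 ⟨E2 k a, by
          rw [mul_assoc]; exact mul_mem (mul_mem (mul_mem (inv_mem (N.eH _)) N.sH) (N.eH _)) b⟩
      · rw [show (e false)⁻¹ * s * e false * ((e false)⁻¹ * s * e false * k) =
          (e false)⁻¹ * (s * s) * e false * k by group, hs, mul_one, inv_mul_cancel, one_mul]
    have T1 := zero (!τ) (fun k => k * g⁻¹ ∈ H) (sat _) fun k hk => h _ k hk fun c => by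
      simpa using c.1
    have T2 := zero τ (fun k => k * g⁻¹ ∈ H ∧ k * g⁻¹ ∉ zpowers (e τ))
      (fun k j a b => ⟨sat _ k j a.1 b, fun c => a.2 (by
        simpa [mul_assoc] using mul_mem (inv_mem b) c)⟩) fun k hk => h _ k hk.1 fun c => hk.2 c.2
    have T3 : ∑ k ∈ E.filter (fun k => k * g⁻¹ ∈ H), (χ (e τ * k) - χ k) = 0 := by
      cases τ
      · exact T ▸ T1
      · exact T ▸ T1
    rw [← Finset.sum_filter_add_sum_filter_not _ (fun k => k * g⁻¹ ∈ zpowers (e τ)),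
      Finset.filter_filter, Finset.filter_filter, T2, add_zero,
      Finset.filter_congr (q := fun k => k * g⁻¹ ∈ zpowers (e τ))
        (fun k _ => ⟨fun c => c.2, fun c => ⟨zpowers_le.2 (N.eH τ) c, c⟩⟩), h2 τ E g (E1 τ)] at T3
    exact sub_eq_zero.1 T3
  have ev : ∀ τ g, cp τ g = cm τ g := fun τ g => by
    by_contra hg
    refine no_desc (fun p : Bool × Γ => {x : Ω | p.2 • x ∈ W p.1}) (fun p => cp p.1 p.2 ≠ cm p.1 p.2)
      ?_ ?_ (τ, g) hg
    · refine ((finite_univ.prod E.finite_toSet).image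
        fun p : Bool × Γ => {x : Ω | p.2 • x ∈ W p.1}).subset ?_
      rintro _ ⟨⟨σ, k⟩, hk, rfl⟩
      obtain ⟨j, hj, -⟩ := Finset.exists_ne_zero_of_sum_ne_zero
        (h2 σ E k (E1 σ) ▸ sub_ne_zero.2 hk)
      obtain ⟨a, b⟩ := Finset.mem_filter.1 hj
      refine ⟨(σ, j), ⟨trivial, a⟩, Set.ext fun x => ?_⟩
      simp only [mem_setOf_eq]
      rw [← zp_inv (N.eW σ) b (k • x), ← mul_smul, inv_mul_cancel_right]
    rintro ⟨τ, g⟩ hg
    have p1 := par (!τ) g
    rw [Bool.not_not] at p1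
    have tw : ∀ x : Ω, (t (!τ) * g) • x ∈ W (!τ) ↔ g • x ∉ W τ := fun x => by
      rw [mul_smul, N.tW, Bool.not_not]
    generalize t (!τ) * g = g' at *
    have := mt (even (!τ) g') (by rw [p1.1, p1.2]; exact hg)
    push Not at this
    obtain ⟨σ, k, k1, k2, k3⟩ := this
    have sub : ∀ ρ j, j * g'⁻¹ ∈ H → (ρ = (!τ) → j * g'⁻¹ ∉ zpowers (e (!τ))) → ∀ x : Ω,
        j • x ∈ W ρ → g • x ∈ W τ := fun ρ j a b x c => by
      by_contra d
      obtain ⟨rfl, d2⟩ := (N.zz a ((tw x).2 d) c).1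
      exact b rfl d2
    refine ⟨(σ, k), k3, sub σ k k1 k2, fun c => ?_⟩
    obtain ⟨o, ho⟩ := N.ne τ
    obtain ⟨p, hp⟩ := N.ne (!τ)
    have a1 : g' • g'⁻¹ • o ∈ W τ := by rwa [smul_inv_smul]
    have a2 : (s * g') • (s * g')⁻¹ • p ∈ W (!τ) := by rwa [smul_inv_smul]
    have b1 := (N.zz k1 a1 (c (sub τ g' (by simp) (by simp) _ a1))).1.1
    have b2 := (N.zz (by simpa [mul_assoc] using mul_mem k1 (inv_mem N.sH)) a2
      (c (sub _ _ (by simpa using N.sH) (fun _ => by simpa using N.se _) _ a2))).1.1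
    rw [← b1] at b2
    simp at b2
  have i2 : ∀ τ g, cp τ ((e τ)⁻¹ * g) = cp τ g := fun τ g => by
    rw [← inv τ, mul_inv_cancel_left]
  have z2 : ∀ x : ZMod 2, x + x = 0 := by decide
  have D0 := tree_zero A (fun g => cp false g - cp true g)
    (((h3 false (ev _)).union (h3 true (ev _))).subset fun g hg => by
      by_contra c
      simp only [mem_union, mem_setOf_eq, not_or, not_not] at c
      exact hg (by rw [c.1, c.2, sub_self])) fun k => by
      have a1 : cp true ((e false)⁻¹ * k) = cp true (s * k) := by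
        rw [← inv true, he]; congr 1; group
      have a2 : cp true ((e false)⁻¹ * (s * k)) = cp true k := by
        rw [← inv true, he, mul_assoc, mul_inv_cancel_left, ← mul_assoc, hs, one_mul]
      rw [i2, i2, a1, a2]
      linear_combination z2 (cp false k) + z2 (cp false (s * k)) - z2 (cp true k) -
        z2 (cp true (s * k))
  have D1 : ∀ g, cp false g = cp true g := fun g => sub_eq_zero.1 (D0 g)
  have cs : ∀ c ∈ ({e false, s, t true} : Set Γ), ∀ g, cp false (c * g) = cp false g := by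
    rintro c (rfl | rfl | rfl) g
    · exact inv _ g
    · rw [← i2 false g, D1, D1, ← inv true ((e false)⁻¹ * g), he]; congr 1; group
    · rw [D1, (par true g).1]; rfl
  have cc : ∀ g, cp false g = cp false 1 := fun g => by
    have hg : g ∈ closure {e false, s, t true} := hgen ▸ mem_top g
    induction hg using closure_induction_left with
    | one => rfl
    | mul_left c hc n _ ih => rw [cs c hc, ih]
    | inv_mul_cancel c hc n _ ih => rw [← cs c hc, mul_inv_cancel_left, ih]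
  exact ⟨cp false 1, (h3 false (ev _)).subset fun g hg c => hg (by rw [← c, cc])⟩

theorem Arc.pow {a s : Γ} {X Am Ap : Set Ω} (A : Arc a s X Am Ap) (n : ℤ) (hn : n ≠ 0) (x : Ω)
    (hx : x ∉ X) : a ^ n • x ∈ X := by
  have k1 : ∀ m : ℕ, a ^ (m + 1) • x ∈ Ap := fun m => by
    induction m with
    | zero => simpa using A.p1 x (Or.inr hx)
    | succ m ih => rw [pow_succ', mul_smul]; exact A.p1 _ (Or.inl ih)
  have k2 : ∀ m : ℕ, a⁻¹ ^ (m + 1) • x ∈ Am := fun m => by
    induction m with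
    | zero => exact A.m1 _ (Or.inr (by simpa using hx))
    | succ m ih => rw [pow_succ', mul_smul]; exact A.m1 _ (Or.inl (by rwa [smul_inv_smul]))
  rcases n with n | n
  · obtain ⟨m, rfl⟩ := Nat.exists_eq_add_one_of_ne_zero (n := n) (by simpa using hn)
    exact A.pX (by simpa only [Int.ofNat_eq_natCast, zpow_natCast] using k1 m)
  · rw [zpow_negSucc, ← inv_pow]; exact A.mX (k2 n)

theorem abs_main {a s b : Γ} {X Am Ap X' Am' Ap' O O' : Set Ω} (hgen : closure {a, s, b} = ⊤)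
    (hs : s * s = 1) (hb : b * a = s * a * b) (A1 : Arc a s X Am Ap)
    (A2 : Arc (s * a) s X' Am' Ap') (OX : O ⊆ X) (OY : ∀ x ∈ O', x ∉ X) (OX' : O' ⊆ X')
    (OY' : ∀ x ∈ O, x ∉ X') (aO : ∀ x, a • x ∈ O ↔ x ∈ O) (bO : ∀ x, b • x ∈ O' ↔ x ∉ O)
    (n1 : O.Nonempty) (n2 : O'.Nonempty) :
    (∀ χ : Γ → ZMod 2, (∀ c, {g | χ (c * g) ≠ χ g}.Finite) → ∃ c, {g | χ g ≠ c}.Finite) ∧
    (∀ g : Γ, (∀ x ∈ O, g • x = x) → g = 1) ∧ (∀ n : ℤ, a ^ n = 1 → n = 0) ∧
    ∀ i j : ℕ, s * a ^ i * (s * a ^ j)⁻¹ ∈ zpowers a → i = j := by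
  have aO' : ∀ x, (s * a) • x ∈ O' ↔ x ∈ O' := fun x => by
    rw [← smul_inv_smul b x, ← mul_smul, ← hb, mul_smul, bO, bO, aO]
  have ssa : s * (s * a) = a := by rw [← mul_assoc, hs, one_mul]
  have S1 : Side a s X O O' := ⟨hs, A1.sX, A1.pow, OX, OY, aO, aO'⟩
  have S2 : Side (s * a) s X' O' O := ⟨hs, A2.sX, A2.pow, OX', OY', aO', by rwa [ssa]⟩
  have m1 : a ∈ closure ({a, s} : Set Γ) := subset_closure (by simp)
  have m2 : s ∈ closure ({a, s} : Set Γ) := subset_closure (by simp)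
  have hH : closure ({a, s} : Set Γ) ≤ closure {s * a, s} := by
    rw [closure_le]
    rintro _ (rfl | rfl)
    · nth_rw 2 [← ssa]
      exact mul_mem (subset_closure (by simp)) (subset_closure (by simp))
    · exact subset_closure (by simp)
  obtain ⟨o, ho⟩ := n1
  obtain ⟨p, hp⟩ := n2
  have N : HN (closure {a, s}) s (fun τ => cond τ (s * a) a) (fun τ => cond τ b b⁻¹)
      (fun τ => cond τ O' O) := by
    refine ⟨?_, ?_, ?_, ?_, ?_, ?_, ?_, m2, ?_, ?_⟩
    · rw [eq_top_iff, ← hgen, closure_le]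
      rintro _ (rfl | rfl | rfl)
      exacts [subset_closure (Or.inl m1), subset_closure (Or.inl m2), subset_closure (Or.inr rfl)]
    · rintro (_ | _) <;> simp
    · rintro (_ | _) x
      · have := bO (b⁻¹ • x)
        rw [smul_inv_smul] at this
        simp [this]
      · exact bO x
    · rintro (_ | _)
      · show b⁻¹ * (s * a) = a * b⁻¹
        rw [inv_mul_eq_iff_eq_mul, ← mul_assoc, hb]; group
      · exact hb
    · rintro h hh (_ | _) (_ | _) x c d
      exacts [⟨rfl, S1.d1 hh c d⟩, absurd d (S1.d2 hh c), absurd d (S2.d2 (hH hh) c),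
        ⟨rfl, S2.d1 (hH hh) c d⟩]
    · rintro (_ | _)
      exacts [aO, aO']
    · rintro (_ | _)
      exacts [m1, mul_mem m2 m1]
    · rintro (_ | _)
      exacts [⟨o, ho⟩, ⟨p, hp⟩]
    · rintro (_ | _) c
      · exact (A1.sX _).1 (OX ((zp_inv aO c o).2 ho)) (OX ho)
      · exact (A2.sX _).1 (OX' ((zp_inv aO' c p).2 hp)) (OX' hp)
  have o1 : ∀ n : ℤ, a ^ n = 1 → n = 0 := fun n h => by_contra fun c =>
    OY p hp (by simpa [h] using A1.pow n c p (OY p hp))
  have o2 : ∀ n : ℤ, (s * a) ^ n = 1 → n = 0 := fun n h => by_contra fun c =>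
    OY' o ho (by simpa [h] using A2.pow n c o (OY' o ho))
  refine ⟨fun χ h => oneEnd N A1 hs rfl hgen (by rintro (_ | _); exacts [o1, o2]) χ (h _) (h _)
    (h _), fun g hg => ?_, o1, fun i j h => ?_⟩
  · obtain ⟨n, rfl⟩ : g ∈ zpowers a := N.fix hg
    by_cases c : n = 0
    · simp [c]
    have h1 : b⁻¹ • o ∈ O := by
      by_contra d
      have := (bO _).2 d
      rw [smul_inv_smul] at this
      exact OY o this (OX ho)
    have h2 := hg _ h1
    have h3 : (s * a) ^ n = b * a ^ n * b⁻¹ := by rw [← conj_zpow, hb, mul_inv_cancel_right]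
    have h4 := A2.pow n c o (OY' o ho)
    simp only at h2
    rw [h3, mul_smul, mul_smul, h2, smul_inv_smul] at h4
    exact absurd h4 (OY' o ho)
  · by_contra c
    have h1 := OX ((zp_inv aO h o).2 ho)
    rw [show s * a ^ i * (s * a ^ j)⁻¹ = s * (a ^ ((i : ℤ) - j) * s⁻¹) by group,
      inv_eq_of_mul_eq_one_right hs, mul_smul, mul_smul, A1.sX] at h1
    exact h1 (A1.pow _ (by omega) _ fun d => (A1.sX _).1 d (OX ho))

end Pool.Agent.H.MP_3d8b4c_al
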