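import Pool.Agent.H.MP_3d8b4c_al.V1

open Filter Topology Set Subgroup

namespace Pool.Agent.H.MP_3d8b4c_al

noncomputable def sg (k : ℕ) (y : ℝ) : ℝ := Int.fract (y * 2 ^ k)

theorem sg_add (k l : ℕ) (y : ℝ) : sg l (sg k y) = sg (k + l) y := by
  simp only [sg]
  rw [Int.fract_eq_fract]
  exact ⟨-⌊y * 2 ^ k⌋ * 2 ^ l, by rw [Int.fract]; push_cast; ring⟩

theorem sg_zero {y : ℝ} (h : y ∈ I) : sg 0 y = y := by
  simp only [sg, pow_zero, mul_one]; exact Int.fract_eq_self.2 h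

theorem sg_I (k : ℕ) (y : ℝ) : sg k y ∈ I := ⟨Int.fract_nonneg _, Int.fract_lt_one _⟩

theorem sg_irr {k : ℕ} {y : ℝ} : Irrational (sg k y) ↔ Irrational y := by
  have : (2 : ℝ) ^ k = ((2 ^ k : ℕ) : ℝ) := by push_cast; rfl
  rw [sg, Int.fract, irrational_sub_intCast_iff, this, irrational_mul_natCast_iff]
  simp

theorem sg_inj {y : ℝ} (hy : Irrational y) {k l : ℕ} (h : sg k y = sg l y) : k = l := by
  obtain ⟨z, hz⟩ := Int.fract_eq_fract.1 h
  by_contra c
  have h1 : (2 ^ k - 2 ^ l : ℤ) ≠ 0 := fun e =>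
    c (Nat.pow_right_injective (le_refl 2) (by exact_mod_cast sub_eq_zero.1 e))
  exact (hy.mul_intCast h1).ne_int z (by rw [← hz]; push_cast; ring)

theorem V_tail (g : V) : ∃ N, ∀ y ∈ I, ∃ i ≤ N, ∃ j ≤ N, sg i (g y) = sg j y := by
  obtain ⟨N0, h0⟩ := (vla g).exists
  refine (fin_ev N0 le_rfl (fun N y => ∃ i ≤ N, ∃ j ≤ N, sg i (g y) = sg j y) fun x hx => ?_).exists
  obtain ⟨s, c, ⟨k, rfl⟩, ⟨m, e, rfl⟩, a3⟩ := h0 x hx
  obtain ⟨p, hp⟩ : ∃ p : ℕ, (p : ℤ) = k + k.natAbs := ⟨(k + k.natAbs).toNat, by omega⟩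
  filter_upwards [eventually_ge_atTop (e + k.natAbs), eventually_ge_atTop (p + e)] with N h1 h2 y _ h
  refine ⟨_, h1, _, h2, Int.fract_eq_fract.2 ⟨m * 2 ^ k.natAbs, ?_⟩⟩
  have : (2 : ℝ) ^ p = 2 ^ k * 2 ^ k.natAbs := by
    rw [← zpow_natCast, hp, zpow_add₀ two_ne_zero, zpow_natCast]
  rw [a3 y h]
  push_cast
  simp only [pow_add, this]
  field_simp; ring

theorem near (N : ℕ) (v : ℝ) : ∃ F : Finset ℝ, F.card ≤ (N + 1) * 2 ^ N ∧
    ∀ y ∈ I, ∀ k ≤ N, sg k y = v → y ∈ F := by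
  classical
  refine ⟨(Finset.range (N + 1) ×ˢ Finset.range (2 ^ N)).image fun p => (v + p.2) / 2 ^ p.1,
    Finset.card_image_le.trans (by simp), fun y hy k hk e => ?_⟩
  have hp : (0 : ℝ) < 2 ^ k := by positivity
  have h1 : 0 ≤ ⌊y * 2 ^ k⌋ := Int.floor_nonneg.2 (mul_nonneg hy.1 hp.le)
  have h2 : ⌊y * 2 ^ k⌋ < 2 ^ N := by
    rw [Int.floor_lt]
    have : (2 : ℝ) ^ k ≤ 2 ^ N := pow_le_pow_right₀ one_le_two hk
    push_cast
    nlinarith [hy.2]
  obtain ⟨m, hm⟩ := Int.eq_ofNat_of_zero_le h1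
  refine Finset.mem_image.2 ⟨(k, m), by
    simp only [Finset.mem_product, Finset.mem_range]
    exact ⟨by omega, by rw [hm] at h2; exact_mod_cast h2⟩, ?_⟩
  rw [← e, sg, Int.fract, hm]
  push_cast
  field_simp; ring

theorem cut_near {y z v : ℝ} {i j N : ℕ} (h : sg i z = sg j y) (hj : j ≤ N) (h1 : ∃ k, sg k y = v)
    (h2 : ¬ ∃ k, sg k z = v) : ∃ k ≤ N, sg k y = v := by
  obtain ⟨k, hk⟩ := h1
  refine ⟨k, ?_, hk⟩
  by_contra c
  obtain ⟨d, rfl⟩ := Nat.exists_eq_add_of_le (show j ≤ k by omega)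
  exact h2 ⟨i + d, by rw [← sg_add, h, sg_add, hk]⟩

theorem tree_contra {Γ : Type*} [Group Γ] (φ : Γ →* V) {x : ℝ} (hx : x ∈ I) (irr : Irrational x)
    (free : ∀ g, φ g x = x → g = 1) (a : Γ) (ha : ∀ n : ℤ, a ^ n = 1 → n = 0) (u : ℕ → Γ)
    (hu : ∀ i j, u i * (u j)⁻¹ ∈ zpowers a → i = j)
    (oe : ∀ χ : Γ → ZMod 2, (∀ c, {g | χ (c * g) ≠ χ g}.Finite) → ∃ c, {g | χ g ≠ c}.Finite) :
    False := by
  classical
  have inj : Function.Injective fun g => φ g x := fun g k e => by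
    have := free (k⁻¹ * g) (by rw [map_mul, map_inv, vmul, show φ g x = φ k x from e, vinv])
    rwa [inv_mul_eq_one, eq_comm] at this
  have hI : ∀ g, φ g x ∈ I := fun g => (vI _).2 hx
  let S : ℝ → Set Γ := fun v => {g | ∃ k, sg k (φ g x) = v}
  have cut : ∀ c : Γ, ∃ N, ∀ v g, ¬ (c * g ∈ S v ↔ g ∈ S v) →
      ∃ k ≤ N, sg k (φ g x) = v ∨ sg k (φ (c * g) x) = v := fun c => by
    obtain ⟨N, hN⟩ := V_tail (φ c)
    refine ⟨N, fun v g h => ?_⟩
    obtain ⟨i, hi, j, hj, e⟩ := hN _ (hI g)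
    rw [← vmul, ← map_mul] at e
    by_cases c1 : g ∈ S v
    · obtain ⟨k, k1, k2⟩ := cut_near e hj c1 (show c * g ∉ S v by tauto)
      exact ⟨k, k1, Or.inl k2⟩
    · obtain ⟨k, k1, k2⟩ := cut_near e.symm hi (show c * g ∈ S v by tauto) c1
      exact ⟨k, k1, Or.inr k2⟩
  have dich : ∀ v, (S v).Finite ∨ (S v)ᶜ.Finite := fun v => by
    obtain ⟨c, hc⟩ := oe (fun g => if g ∈ S v then 1 else 0) fun c => by
      obtain ⟨N, hN⟩ := cut c
      obtain ⟨F, -, hF⟩ := near N v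
      have f1 := F.finite_toSet.preimage inj.injOn
      refine (f1.union (f1.preimage (mul_right_injective c).injOn)).subset fun g hg => ?_
      obtain ⟨k, k1, k2⟩ := hN v g fun e => hg (by simp only [e])
      exact k2.imp (hF _ (hI _) k k1) (hF _ (hI _) k k1)
    by_cases e : c = 0
    · exact Or.inl (hc.subset fun g hg => by simp [hg, e])
    · exact Or.inr (hc.subset fun g (hg : g ∉ S v) => by simpa [hg] using Ne.symm e)
  obtain ⟨N, hN⟩ := cut a
  have fin : ∀ v (T : Set Γ), T.Finite → (T = S v ∨ T = (S v)ᶜ) →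
      ¬ ∀ i < (N + 1) * 2 ^ N + 1, u i ∈ T := by
    intro v T hT hv h
    obtain ⟨F, F1, hF⟩ := near N v
    have key : ∀ i, ∃ k, i < (N + 1) * 2 ^ N + 1 → k * (u i)⁻¹ ∈ zpowers a ∧ φ k x ∈ F := by
      intro i
      by_cases hi : i < (N + 1) * 2 ^ N + 1
      swap
      · exact ⟨1, fun c => absurd c hi⟩
      have i1 : Function.Injective fun n : ℕ => a ^ n * u i := fun n m c => by
        have := ha (n - m) (by
          rw [zpow_sub, mul_inv_eq_one, zpow_natCast, zpow_natCast]; exact mul_right_cancel c)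
        omega
      have hex : ∃ n : ℕ, a ^ n * u i ∉ T :=
        (i1.tendsto_cofinite.eventually hT.eventually_cofinite_notMem).exists
      obtain ⟨n, hn⟩ := Nat.exists_eq_add_one_of_ne_zero (n := Nat.find hex) fun e => by
        have := Nat.find_spec hex
        rw [e, pow_zero, one_mul] at this
        exact this (h i hi)
      have b1 : a * (a ^ n * u i) ∉ T := by
        have := Nat.find_spec hex
        rwa [hn, pow_succ', mul_assoc] at this
      have b2 : a ^ n * u i ∈ T := not_not.1 (Nat.find_min hex (by omega))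
      obtain ⟨k, k1, k2 | k2⟩ := hN v (a ^ n * u i) (by
        rcases hv with rfl | rfl
        · tauto
        · simp only [mem_compl_iff] at b1 b2; tauto)
      · exact ⟨_, fun _ => ⟨⟨n, by simp⟩, hF _ (hI _) k k1 k2⟩⟩
      · exact ⟨_, fun _ => ⟨⟨1 + n, by simp [zpow_one_add, mul_assoc]⟩, hF _ (hI _) k k1 k2⟩⟩
    choose k hk using key
    have := Finset.card_le_card_of_injOn (s := Finset.range ((N + 1) * 2 ^ N + 1)) (t := F)
      (fun i => φ (k i) x) (fun i hi => (hk i (by simpa using hi)).2) fun i hi j hj e => by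
        have e1 := (hk i (by simpa using hi)).1
        have e2 := (hk j (by simpa using hj)).1
        rw [inj e] at e1
        exact hu i j (by simpa [mul_assoc] using mul_mem (inv_mem e1) e2)
    rw [Finset.card_range] at this
    omega
  have big : ∀ P : ℕ → ℕ → Prop, (∀ i, ∀ᶠ j in atTop, P i j) →
      ∃ j, ∀ i < (N + 1) * 2 ^ N + 1, P i j := fun P h => by
    obtain ⟨j, hj⟩ := ((eventually_all_finset (Finset.range ((N + 1) * 2 ^ N + 1))).2
      fun i _ => h i).exists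
    exact ⟨j, fun i hi => hj i (by simpa using hi)⟩
  by_cases c : ∀ j, (S (sg j x)).Finite
  · obtain ⟨j, hj⟩ := big (fun i j => u i ∈ S (sg j x)) fun i => by
      obtain ⟨M, hM⟩ := V_tail (φ (u i))
      obtain ⟨p, -, q, -, e⟩ := hM x hx
      filter_upwards [eventually_ge_atTop q] with j hj
      obtain ⟨d, rfl⟩ := Nat.exists_eq_add_of_le hj
      exact ⟨p + d, by rw [← sg_add, e, sg_add]⟩
    exact fin _ _ (c j) (Or.inl rfl) hj
  push Not at c
  obtain ⟨j0, h0⟩ := c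
  have desc : ∀ j, ∃ w ∈ I, sg j w = sg j0 x ∧ (S w).Infinite := fun j => by
    induction j with
    | zero => exact ⟨_, sg_I _ _, sg_zero (sg_I _ _), h0⟩
    | succ j ih =>
      obtain ⟨w, w1, w2, w3⟩ := ih
      obtain ⟨F, -, hF⟩ := near 1 w
      by_contra e
      push Not at e
      refine w3 (((F.finite_toSet.preimage inj.injOn).union
        ((F.finite_toSet.subset (t := {y | y ∈ F ∧ y ∈ I ∧ sg 1 y = w}) fun y h => h.1).biUnion
          (t := S) fun y h => e y h.2.1 (by rw [add_comm, ← sg_add, h.2.2, w2]))).subset ?_)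
      rintro g ⟨_ | k, hk⟩
      · exact Or.inl (hF _ (hI g) 0 zero_le_one hk)
      · rw [← sg_add] at hk
        exact Or.inr (mem_biUnion ⟨hF _ (sg_I _ _) 1 le_rfl hk, sg_I _ _, hk⟩ ⟨k, rfl⟩)
  obtain ⟨j, hj⟩ := big (fun i j => ∀ k, sg (k + j) (φ (u i) x) ≠ sg j0 x) fun i => by
    obtain ⟨M, hM⟩ := V_tail (φ (u i))
    obtain ⟨p, -, q, -, e⟩ := hM x hx
    have ir : Irrational (φ (u i) x) := sg_irr.1 (e ▸ sg_irr.2 irr)
    by_cases c : ∃ m, sg m (φ (u i) x) = sg j0 x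
    · obtain ⟨m, hm⟩ := c
      filter_upwards [eventually_gt_atTop m] with j hj k e'
      have := sg_inj ir (e'.trans hm.symm)
      omega
    · exact Eventually.of_forall fun j k e' => c ⟨_, e'⟩
  obtain ⟨w, -, w2, w3⟩ := desc j
  refine fin w _ ((dich w).resolve_left w3) (Or.inr rfl) fun i hi ⟨k, hk⟩ => hj i hi k ?_
  rw [← sg_add, hk, w2]

end Pool.Agent.H.MP_3d8b4c_al
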