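import Pool.Agent.H.MP_3d8b4c_al.Br
import Pool.Agent.H.MP_3d8b4c_al.L2
import Pool.Agent.H.MP_3d8b4c_al.L3

open Filter Topology Set Subgroup
open scoped commutatorElement

namespace Pool.Agent.H.MP_3d8b4c_al

instance : MulAction V I where
  smul g x := ⟨g x, (vI g).2 x.2⟩
  one_smul _ := rfl
  mul_smul _ _ _ := rfl

noncomputable def pv : CG →* V := pr.codRestrict VG pr_V

theorem pv_ap (g : CG) (x : I) : (pv g • x).1 = Int.fract (g.1 x) := pr_in g x.2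

def Pz (J : Set ℝ) : Set I := {x | ∃ n : ℤ, x.1 + n ∈ J}

theorem pz_map (g : CG) {J J' : Set ℝ} (h : ∀ t, t ∈ J ↔ g.1 t ∈ J') (x : I) :
    pv g • x ∈ Pz J' ↔ x ∈ Pz J := by
  simp only [Pz, mem_setOf_eq, pv_ap, h, Cm.int g.2, Int.fract]
  constructor
  · rintro ⟨n, hn⟩; exact ⟨n - ⌊g.1 x⌋, by push_cast; rwa [← add_sub_assoc, add_sub_right_comm]⟩
  · rintro ⟨n, hn⟩; exact ⟨n + ⌊g.1 x⌋, by push_cast; rwa [add_comm (n : ℝ), ← add_assoc,
      sub_add_cancel]⟩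

theorem pz_mono {J J' : Set ℝ} (m : ℤ) (h : ∀ t ∈ J, t + m ∈ J') : Pz J ⊆ Pz J' := by
  rintro x ⟨n, hn⟩
  exact ⟨n + m, by push_cast; rw [← add_assoc]; exact h _ hn⟩

theorem pz_ico {a b c d : ℝ} (h1 : c ≤ a) (h2 : b ≤ d) {x : I} (h : x ∈ Pz (Ico a b)) :
    x ∈ Pz (Ico c d) := h.imp fun _ e => ⟨h1.trans e.1, e.2.trans_le h2⟩

theorem pz_disj {J J' : Set ℝ} (h : ∀ t ∈ J, ∀ t' ∈ J', t ≠ t' ∧ t - 1 < t' ∧ t' < t + 1)
    (x : I) (hx : x ∈ Pz J) : x ∉ Pz J' := by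
  rintro ⟨m, hm⟩
  obtain ⟨n, hn⟩ := hx
  obtain ⟨a, b, c⟩ := h _ hn _ hm
  have b' : n - 1 < m := by exact_mod_cast (show (n : ℝ) - 1 < m by linarith)
  have c' : m < n + 1 := by exact_mod_cast (show (m : ℝ) < n + 1 by linarith)
  exact a (by rw [show m = n by omega])

theorem pz_cov (α : ℝ) {J J' : Set ℝ} (h : ∀ t, α ≤ t → t < α + 1 → t ∈ J ∨ t ∈ J') (x : I)
    (hx : x ∉ Pz J) : x ∈ Pz J' := by
  have h1 := Int.floor_le (x.1 - α)
  have h2 := Int.lt_floor_add_one (x.1 - α)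
  exact ⟨-⌊x.1 - α⌋, (h _ (by push_cast; linarith) (by push_cast; linarith)).resolve_left
    fun e => hx ⟨_, e⟩⟩

theorem pz_ne {J : Set ℝ} {t : ℝ} (h : t ∈ J) : (Pz J).Nonempty :=
  ⟨⟨_, fract_I t⟩, ⌊t⌋, by simpa using h⟩

theorem dh : (1 / 2 : ℝ) ∈ D := half_mem (one_mem _)

noncomputable def SS : CG := ⟨tr (1 / 2), cm_tr dh⟩

theorem SS_ap (t : ℝ) : SS.1 t = t + 1 / 2 := tr_ap dh t

theorem pz_half (α : ℝ) (x : I) :
    pv SS • x ∈ Pz (Ico α (α + 1 / 2)) ↔ x ∉ Pz (Ico α (α + 1 / 2)) := by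
  rw [pz_map SS (J := Ico (α - 1 / 2) α) fun t => by
    simp only [mem_Ico, SS_ap]; constructor <;> rintro ⟨a, b⟩ <;> constructor <;> linarith]
  exact ⟨pz_disj (fun t a t' b => ⟨by linarith [a.2, b.1] |> ne_of_lt, by linarith [a.2, b.1],
    by linarith [a.1, b.2]⟩) x, pz_cov (α - 1 / 2) (fun t a b => by
      rcases lt_or_ge t α with c | c
      exacts [Or.inr ⟨a, c⟩, Or.inl ⟨c, by linarith⟩]) x⟩

theorem arc1 (g : CG) {q u : ℝ} (h1 : q < u) (h2 : u < q + 1 / 2) (h3 : g.1 q = q - 1 / 2)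
    (h4 : g.1 u = u) :
    Arc (pv g) (pv SS) (Pz (Ico q (q + 1 / 2))) (Pz (Ico q u)) (Pz (Ico u (q + 1 / 2))) := by
  have h5 : g.1 (q + 1) = q + 1 / 2 := by rw [g.2, h3]; ring
  refine ⟨pz_half q, pz_mono 0 fun t a => ⟨by simpa using a.1, by simp; linarith [a.2]⟩,
    pz_mono 0 fun t a => ⟨by simp; linarith [a.1], by simpa using a.2⟩,
    pz_disj fun t a t' b => ⟨by linarith [a.2, b.1] |> ne_of_lt, by linarith [a.2, b.1],
      by linarith [a.1, b.2]⟩, pz_ne ⟨le_rfl, h1⟩, pz_ne ⟨le_rfl, h2⟩, fun x hx => ?_,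
    fun x hx => ?_⟩
  · refine (pz_map g (J' := Ico (q - 1 / 2) u) (fun t => ?_) x).1 (hx.elim
      (pz_ico (by linarith) le_rfl)
      (pz_cov (q - 1 / 2) (fun t a b => ?_) _))
    · rw [mem_Ico, mem_Ico, ← h3, ap_le]; nth_rw 2 [← h4]; rw [ap_lt]
    · rcases lt_or_ge t q with c | c
      exacts [Or.inr ⟨a, by linarith⟩, Or.inl ⟨c, by linarith⟩]
  · refine (pz_map g (J := Ico u (q + 1)) (fun t => ?_) x).2 (hx.elim
      (pz_ico le_rfl (by linarith))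
      (pz_cov q (fun t a b => ?_) _))
    · rw [mem_Ico, mem_Ico, ← h5, ap_lt]; nth_rw 2 [← h4]; rw [ap_le]
    · rcases lt_or_ge t (q + 1 / 2) with c | c
      exacts [Or.inl ⟨a, c⟩, Or.inr ⟨by linarith, b⟩]

theorem arc2 (g : CG) {q u : ℝ} (h1 : q < u) (h2 : u < q + 1 / 2) (h3 : g.1 q = q)
    (h4 : g.1 u = u + 1 / 2) : Arc (pv g) (pv SS) (Pz (Ico (u - 1 / 2) (u - 1 / 2 + 1 / 2)))
      (Pz (Ico q u)) (Pz (Ico (u - 1 / 2) q)) := by
  have h5 : g.1 (u - 1) = u - 1 / 2 := by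
    have := g.2 (u - 1)
    rw [sub_add_cancel, h4] at this; linarith
  refine ⟨pz_half _, pz_mono 0 fun t a => ⟨by simp; linarith [a.1], by simpa using a.2⟩,
    pz_mono 0 fun t a => ⟨by simpa using a.1, by simp; linarith [a.2]⟩,
    pz_disj fun t a t' b => ⟨by linarith [a.1, b.2] |> ne_of_gt, by linarith [a.2, b.1],
      by linarith [a.1, b.2]⟩, pz_ne ⟨le_rfl, h1⟩, pz_ne ⟨le_rfl, by linarith⟩, fun x hx => ?_,
    fun x hx => ?_⟩
  · refine (pz_map g (J' := Ico q (u + 1 / 2)) (fun t => ?_) x).1 (hx.elim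
      (pz_ico le_rfl (by linarith))
      (pz_cov (u - 1 / 2) (fun t a b => ?_) _))
    · rw [mem_Ico, mem_Ico, ← h4, ap_lt]; nth_rw 2 [← h3]; rw [ap_le]
    · rcases lt_or_ge t u with c | c
      exacts [Or.inl ⟨a, by linarith⟩, Or.inr ⟨by linarith, by linarith⟩]
  · refine (pz_map g (J := Ico (u - 1) q) (fun t => ?_) x).2 (hx.elim
      (pz_ico (by linarith) le_rfl)
      (pz_cov (u - 1) (fun t a b => ?_) _))
    · rw [mem_Ico, mem_Ico, ← h5, ap_le]; nth_rw 2 [← h3]; rw [ap_lt]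
    · rcases lt_or_ge t (u - 1 / 2) with c | c
      exacts [Or.inr ⟨a, by linarith⟩, Or.inl ⟨c, by linarith⟩]

theorem nested {α : Type} (P : α → Prop) (lo hi : α → ℝ) (w0 : α) (h0 : P w0)
    (le : ∀ w, lo w ≤ hi w) (step : ∀ w, P w → ∀ r : ℝ, ∃ w', P w' ∧ lo w ≤ lo w' ∧ hi w' ≤ hi w ∧
      (r < lo w' ∨ hi w' < r)) :
    ∃ x, Irrational x ∧ ∀ ε > 0, ∃ w, P w ∧ x - ε < lo w ∧ hi w < x + ε := by
  obtain ⟨f, hf⟩ := exists_surjective_nat ℚ
  choose! nx s1 s2 s3 s4 using step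
  let w : ℕ → α := fun n => Nat.rec w0 (fun n w => nx w (f n)) n
  have hP : ∀ n, P (w n) := fun n => by
    induction n with
    | zero => exact h0
    | succ n ih => exact s1 _ ih _
  have m1 : Monotone fun n => lo (w n) := monotone_nat_of_le_succ fun n => s2 _ (hP n) _
  have m2 : Antitone fun n => hi (w n) := antitone_nat_of_succ_le fun n => s3 _ (hP n) _
  have m3 : ∀ n m, lo (w n) ≤ hi (w m) := fun n m =>
    (m1 (le_max_left n m)).trans ((le _).trans (m2 (le_max_right n m)))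
  have hb : BddAbove (range fun n => lo (w n)) := ⟨hi (w 0), by rintro _ ⟨n, rfl⟩; exact m3 n 0⟩
  have a1 : ∀ n, lo (w n) ≤ ⨆ n, lo (w n) := le_ciSup hb
  have a2 : ∀ n, ⨆ n, lo (w n) ≤ hi (w n) := fun n => ciSup_le fun m => m3 m n
  have a3 : ∀ r : ℚ, ∃ n, r < lo (w n) ∨ hi (w n) < r := fun r => by
    obtain ⟨n, rfl⟩ := hf r
    exact ⟨n + 1, s4 _ (hP n) _⟩
  refine ⟨⨆ n, lo (w n), ?_, fun ε hε => ?_⟩
  · rintro ⟨r, hr⟩
    obtain ⟨n, h | h⟩ := a3 r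
    · linarith [a1 n]
    · linarith [a2 n]
  · obtain ⟨r, r1, r2⟩ := exists_rat_btwn (show (⨆ n, lo (w n)) - ε < ⨆ n, lo (w n) by linarith)
    obtain ⟨r', r3, r4⟩ := exists_rat_btwn (show (⨆ n, lo (w n)) < (⨆ n, lo (w n)) + ε by linarith)
    obtain ⟨n, hn⟩ := a3 r
    obtain ⟨m, hm⟩ := a3 r'
    refine ⟨w (max n m), hP _, ?_, ?_⟩
    · linarith [m1 (le_max_left n m), hn.resolve_right (by linarith [a2 n])]
    · linarith [m2 (le_max_right n m), hm.resolve_left (by linarith [a1 m])]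

theorem germ_fix (g : V) {x : ℝ} (hx : x ∈ I) (irr : Irrational x) (h : g x = x) :
    ∃ ε > 0, ∀ y, x - ε < y → y < x + ε → y ∈ I ∧ g y = y := by
  obtain ⟨N, hN⟩ := (vla g).exists
  obtain ⟨s, c, a1, ⟨m, e, rfl⟩, a3⟩ := hN x hx
  obtain ⟨m', e', rfl⟩ := a1.mem
  have h1 := a3 x rfl
  rw [h] at h1
  have h2 : (m' : ℝ) / 2 ^ e' = 1 := by
    by_contra c
    refine irr ⟨(m / 2 ^ e) / (1 - m' / 2 ^ e'), ?_⟩
    push_cast
    rw [div_eq_iff (sub_ne_zero.2 (Ne.symm c))]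
    linarith
  rw [h2] at h1 a3
  have hp : (0 : ℝ) < 2 ^ N := by positivity
  obtain ⟨b1, b2⟩ := (fl_eq (n := N) (x := x)).1 rfl
  have b3 : (fl N x : ℝ) ≠ x * 2 ^ N := fun c =>
    irr ⟨fl N x / 2 ^ N, by push_cast; rw [c]; field_simp⟩
  have c1 := (div_lt_iff₀ hp).2 (lt_of_le_of_ne b1 b3)
  have c2 := (lt_div_iff₀ hp).2 b2
  refine ⟨min (x - fl N x / 2 ^ N) ((fl N x + 1) / 2 ^ N - x), lt_min (by linarith) (by linarith),
    fun y d1 d2 => ?_⟩
  have d3 := min_le_left (x - fl N x / 2 ^ N) ((fl N x + 1) / 2 ^ N - x)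
  have d4 := min_le_right (x - fl N x / 2 ^ N) ((fl N x + 1) / 2 ^ N - x)
  have e1 : fl N y = fl N x := fl_eq.2 ⟨((div_lt_iff₀ hp).1 (by linarith)).le,
    (lt_div_iff₀ hp).1 (by linarith)⟩
  exact ⟨fl_I e1 hx, by rw [a3 y e1]; linarith⟩

theorem core (a b : CG) {q u v : ℝ} (h : ∀ t, b.1 (a.1 t) = a.1 (b.1 t) + 1 / 2) (h1 : q < u)
    (h2 : u ≤ v) (h3 : u < q + 1 / 2) (h4 : v < q + 1 / 2) (aq : a.1 q = q - 1 / 2)
    (au : a.1 u = u) (av : a.1 v = v) (bu : b.1 u ≤ q) (bv : u + 1 / 2 ≤ b.1 v)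
    (bv' : v + 1 / 2 < b.1 v) : False := by
  let k : Set V := {pv a, pv SS, pv b}
  let A : closure k := ⟨pv a, subset_closure (by simp [k])⟩
  let S : closure k := ⟨pv SS, subset_closure (by simp [k])⟩
  let B : closure k := ⟨pv b, subset_closure (by simp [k])⟩
  have hgen : closure {A, S, B} = ⊤ := by
    rw [← closure_closure_coe_preimage]
    congr 1
    ext x
    simp only [mem_insert_iff, mem_singleton_iff, mem_preimage, k]
    rw [Subtype.ext_iff (a2 := A), Subtype.ext_iff (a2 := S), Subtype.ext_iff (a2 := B)]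
  have hs : S * S = 1 := Subtype.ext (by
    show pv SS * pv SS = 1
    rw [← map_mul, show SS * SS = ⟨tr (1 : ℤ), cm_tr (intCast_mem _ 1)⟩ from
      Subtype.ext (ext fun t => by
        show SS.1 (SS.1 t) = tr (1 : ℤ) t
        rw [SS_ap, SS_ap, tr_int]; push_cast; ring)]
    exact Subtype.ext (pr_tr 1))
  have hb : B * A = S * A * B := Subtype.ext (by
    show pv b * pv a = pv SS * pv a * pv b
    rw [← map_mul, ← map_mul, ← map_mul]
    congr 1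
    exact Subtype.ext (ext fun t => by
      show b.1 (a.1 t) = SS.1 (a.1 (b.1 t))
      rw [h, SS_ap]))
  have a1 := arc1 a h1 h3 aq au
  have a2 := arc2 (SS * a) h1 h3 (show SS.1 (a.1 q) = q by rw [SS_ap, aq]; ring)
    (show SS.1 (a.1 u) = _ by rw [SS_ap, au])
  rw [map_mul] at a2
  have b1 : b.1 (v - 1) = b.1 v - 1 := by
    have := b.2 (v - 1)
    rw [sub_add_cancel] at this; linarith
  have b2 := smono b.1 (show v - 1 < u by linarith)
  obtain ⟨oe, fx, ha, hu⟩ := abs_main (a := A) (s := S) (b := B) (O := Pz (Icc u v))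
    (O' := Pz (Ioo (b.1 v - 1) (b.1 u))) hgen hs hb
    ⟨a1.sX, a1.mX, a1.pX, a1.dj, a1.mn, a1.pn, a1.m1, a1.p1⟩
    ⟨a2.sX, a2.mX, a2.pX, a2.dj, a2.mn, a2.pn, a2.m1, a2.p1⟩
    (pz_mono 0 fun t c => ⟨by simp; linarith [c.1], by simp; linarith [c.2]⟩)
    (pz_disj fun t c t' d => ⟨by linarith [c.2, d.1] |> ne_of_lt, by linarith [c.2, d.1],
      by linarith [c.1, d.2]⟩)
    (pz_mono 0 fun t c => ⟨by simp; linarith [c.1], by simp; linarith [c.2]⟩)
    (pz_disj fun t c t' d => ⟨by linarith [c.1, d.2] |> ne_of_gt, by linarith [c.2, d.1],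
      by linarith [c.1, d.2]⟩)
    (pz_map a fun t => by
      rw [mem_Icc, mem_Icc]; nth_rw 2 [← au, ← av]; rw [ap_le, ap_le])
    (fun x => (pz_map b (J := Ioo (v - 1) u) (fun t => by
      rw [mem_Ioo, mem_Ioo, ← b1, ap_lt, ap_lt]) x).trans
      ⟨pz_disj (fun t c t' d => ⟨by linarith [c.2, d.1] |> ne_of_lt, by linarith [c.2, d.1],
        by linarith [c.1, d.2]⟩) x, fun e => by
        refine pz_mono (-1) (J := Ioo v (u + 1)) (J' := Ioo (v - 1) u) (fun t c => ⟨by push_cast; linarith [c.1],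
          by push_cast; linarith [c.2]⟩) (pz_cov u (fun t c d => ?_) x e)
        rcases le_or_gt t v with f | f
        exacts [Or.inl ⟨c, f⟩, Or.inr ⟨f, d⟩]⟩)
    (pz_ne ⟨le_rfl, h2⟩) (pz_ne (t := (b.1 v - 1 + b.1 u) / 2) ⟨by linarith, by linarith⟩)
  obtain ⟨x, irr, hx⟩ := nested (fun w : CG => pv w ∈ closure k) (fun w => w.1 u) (fun w => w.1 v)
    1 (by rw [map_one]; exact one_mem _) (fun w => mono _ h2) fun w hw r => by
      have c1 : u ≤ b.1⁻¹ u := le_inv.2 (by linarith)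
      have c2 : b.1⁻¹ (v + 1 / 2) ≤ v := inv_le.2 bv'.le
      have c3 : b.1⁻¹ v < b.1⁻¹ (u + 1 / 2) := smono _ (by linarith)
      have c4 := mono b.1⁻¹ h2
      have c5 := mono b.1⁻¹ (show u + 1 / 2 ≤ v + 1 / 2 by linarith)
      have p1 : pv (w * b⁻¹) ∈ closure k := by
        rw [map_mul, map_inv]; exact mul_mem hw (inv_mem B.2)
      rcases lt_or_ge (w.1 (b.1⁻¹ v)) r with c | c
      · exact ⟨w * b⁻¹, p1, mono _ c1, mono w.1 (show b.1⁻¹ v ≤ v by linarith), Or.inr c⟩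
      · refine ⟨w * b⁻¹ * SS, by rw [map_mul]; exact mul_mem p1 S.2, ?_, ?_, Or.inl ?_⟩
        · show w.1 u ≤ w.1 (b.1⁻¹ (SS.1 u))
          rw [SS_ap]; exact mono _ (by linarith)
        · show w.1 (b.1⁻¹ (SS.1 v)) ≤ w.1 v
          rw [SS_ap]; exact mono _ c2
        · show r < w.1 (b.1⁻¹ (SS.1 u))
          rw [SS_ap]; exact lt_of_le_of_lt c (smono _ c3)
  have ir : Irrational (Int.fract x) := irr.sub_intCast _
  refine tree_contra (closure k).subtype (fract_I x) ir (fun g hg => ?_) A ha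
    (fun i => S * A ^ i) hu oe
  obtain ⟨ε, e0, e1⟩ := germ_fix g.1 (fract_I x) ir hg
  obtain ⟨w, w0, w1, w2⟩ := hx ε e0
  have := fx ((⟨pv w, w0⟩ : closure k)⁻¹ * g * ⟨pv w, w0⟩) fun z ⟨n, hn⟩ => by
    rw [mul_smul, mul_smul, inv_smul_eq_iff]
    obtain ⟨d1, d2⟩ := e1 (w.1 (z + n) - ⌊x⌋) (by rw [Int.fract]; linarith [mono w.1 hn.1])
      (by rw [Int.fract]; linarith [mono w.1 hn.2])
    have d3 : (pv w • z).1 = w.1 (z + n) - ⌊x⌋ := by
      rw [pv_ap, ← Int.fract_eq_self.2 d1, Int.fract_sub_intCast, Cm.int w.2,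
        Int.fract_add_intCast]
    apply Subtype.ext
    show g.1 (pv w • z).1 = (pv w • z).1
    rw [d3, d2]
  rw [mul_assoc, inv_mul_eq_one] at this
  simpa using this

theorem fixp {a b : G} (ha : Cm a) (hb : Cm b) {n : ℤ}
    (h : ∀ t, b (a t) = a (b t) + (n + 1 / 2)) : ∃ (m : ℤ) (p : ℝ), a p = p + m := by
  by_contra c
  push Not at c
  have ct : Continuous fun t => a t - t := (cont a).sub continuous_id
  obtain ⟨m, hm⟩ : ∃ m : ℤ, ∀ t, t + m < a t ∧ a t < t + m + 1 := by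
    refine ⟨⌊a 0 - 0⌋, fun t => ⟨not_le.1 fun e => ?_, not_le.1 fun e => ?_⟩⟩
    · obtain ⟨p, hp⟩ := mem_range_of_exists_le_of_exists_ge (c := (⌊a 0 - 0⌋ : ℝ)) ct
        ⟨t, by linarith⟩ ⟨0, Int.floor_le _⟩
      exact c ⌊a 0 - 0⌋ p (by simp only at hp; linarith)
    · obtain ⟨p, hp⟩ := mem_range_of_exists_le_of_exists_ge (c := (⌊a 0 - 0⌋ + 1 : ℝ)) ct
        ⟨0, (Int.lt_floor_add_one _).le⟩ ⟨t, by linarith⟩
      exact c (⌊a 0 - 0⌋ + 1) p (by simp only at hp; push_cast; linarith)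
  have k : ∀ y, y + m < a y + (n + 1 / 2) ∧ a y + (n + 1 / 2) < y + m + 1 := fun y => by
    obtain ⟨t, rfl⟩ : ∃ t, b t = y := ⟨_, ap_inv b y⟩
    have e1 := smono b (hm t).1
    have e2 := smono b (hm t).2
    rw [hb, hb.int] at e2
    rw [hb.int] at e1
    rw [← h]; exact ⟨e1, e2⟩
  have n1 : n < 1 := by exact_mod_cast (show (n : ℝ) < 1 by linarith [(hm 0).1, (k 0).2])
  have n2 : -2 < n := by exact_mod_cast (show (-2 : ℝ) < n by linarith [(hm 0).2, (k 0).1])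
  have e := hb.int (2 * m + 1) 0
  have e1 := h (a 0)
  have e2 := h 0
  have e3 := hm (b (a 0))
  have e4 := hm (b 0)
  have e5 := k (a 0)
  have e6 := k 0
  push_cast at e
  obtain rfl | rfl : n = 0 ∨ n = -1 := by omega
  · have := smono b (show a (a 0) < 0 + (2 * m + 1) by push_cast at e5 e6; linarith)
    push_cast at e1 e2; linarith
  · have := smono b (show 0 + (2 * m + 1) < a (a 0) by push_cast at e5 e6; linarith)
    push_cast at e1 e2; linarith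

theorem cm_sub {a : G} (ha : Cm a) (m : ℤ) : Cm ((tr m)⁻¹ * a) := (cm_tr (intCast_mem _ m)).inv.mul ha

theorem Cm.sub {a : G} (ha : Cm a) (m : ℤ) (t : ℝ) : a (t - m) = a t - m := by
  have := ha.int m (t - m)
  rw [sub_add_cancel] at this; linarith

theorem no_half {a b : G} (ha : Cm a) (hb : Cm b) (h : ∀ t, b (a t) = a (b t) + 1 / 2) : False := by
  obtain ⟨m, p, hp⟩ := fixp ha hb (n := 0) (by simpa using h)
  have ha' := cm_sub ha m
  have h' : ∀ t, b (((tr m)⁻¹ * a) t) = ((tr m)⁻¹ * a) (b t) + 1 / 2 := fun t => by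
    simp only [mul_ap, tr_inv_int]; rw [hb.sub, h]; ring
  have hp' : ((tr m)⁻¹ * a) p = p := by simp [hp]
  generalize (tr m)⁻¹ * a = F at *
  clear h ha hp
  have q0 : F (b p) = b p - 1 / 2 := by have := h' p; rw [hp'] at this; linarith
  generalize b p = q' at q0
  have c1 : IsClosed {t | t ≤ F t} := isClosed_le continuous_id (cont F)
  obtain ⟨u, ⟨u1, u2⟩, u3⟩ : ∃ u, IsLeast {t | q' ≤ t ∧ t ≤ F t} u := by
    obtain ⟨n, hn⟩ := exists_int_gt (q' - p)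
    exact (isClosed_Ici.inter c1).isLeast_csInf ⟨p + n, show q' ≤ _ by linarith,
      show _ ≤ F _ by rw [ha'.int, hp']⟩ ⟨q', fun _ h => h.1⟩ |> fun h => ⟨_, h⟩
  have u4 : ∀ t, q' ≤ t → t < u → F t < t := fun t e1 e2 =>
    not_le.1 fun e => absurd (u3 ⟨e1, e⟩) (not_le.2 e2)
  have u5 : F u = u := le_antisymm (not_lt.1 fun e => by
    have := u4 (F⁻¹ u) (le_inv.2 (by linarith)) (inv_lt.2 e)
    rw [ap_inv] at this
    linarith [inv_lt.2 e]) u2
  have u6 : F (u - 1) = u - 1 := by simpa [u5] using ha'.sub 1 u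
  have u7 : u - 1 < q' := not_le.1 fun e => by linarith [u4 _ e (by linarith)]
  obtain ⟨q, ⟨q1, q2⟩, q3⟩ : ∃ q, IsGreatest {t | t ≤ u ∧ F t ≤ t - 1 / 2} q :=
    (isClosed_Iic.inter (isClosed_le (cont F) (continuous_id.sub continuous_const))).isGreatest_csSup
      ⟨q', u1, q0.le⟩ ⟨u, fun _ h => h.1⟩ |> fun h => ⟨_, h⟩
  have q4 : q' ≤ q := q3 ⟨u1, q0.le⟩
  have q5 : q < u := lt_of_le_of_ne q1 fun e => by rw [e] at q2; linarith
  have q6 : F q = q - 1 / 2 := le_antisymm q2 (not_lt.1 fun e => by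
    have := q3 ⟨inv_le.2 (show q - 1 / 2 ≤ F u by linarith),
      show F _ ≤ _ by rw [ap_inv]; linarith [lt_inv.2 e]⟩
    linarith [lt_inv.2 e])
  have q7 : u < q + 1 / 2 := by linarith [smono F (show u - 1 < q by linarith)]
  have q8 : F (q + 1) = q + 1 / 2 := by rw [ha', q6]; ring
  obtain ⟨v, ⟨v1, v2⟩, v3⟩ : ∃ v, IsGreatest {t | t ≤ q + 1 / 2 ∧ t ≤ F t} v :=
    (isClosed_Iic.inter c1).isGreatest_csSup ⟨u, q7.le, u2⟩ ⟨_, fun _ h => h.1⟩ |> fun h => ⟨_, h⟩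
  have v4 : u ≤ v := v3 ⟨q7.le, u2⟩
  have v5 : F v < q + 1 / 2 := by linarith [smono F (show v < q + 1 by linarith)]
  have v6 : F v = v := le_antisymm (v3 ⟨v5.le, mono F v2⟩) v2
  have v7 : ∀ t, v - 1 < t → t < u → F t < t := fun t e1 e2 => by
    rcases le_or_gt q t with c | c
    · exact u4 t (by linarith) e2
    rcases le_or_gt t (q - 1 / 2) with d | d
    · have : F (t + 1) < t + 1 := not_le.1 fun e => by linarith [v3 ⟨by linarith, e⟩]
      rw [ha'] at this; linarith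
    · linarith [smono F c]
  have hb' := cm_sub hb ⌈b u - u⌉
  have h'' : ∀ t, ((tr ⌈b u - u⌉)⁻¹ * b) (F t) = F (((tr ⌈b u - u⌉)⁻¹ * b) t) + 1 / 2 := fun t => by
    simp only [mul_ap, tr_inv_int]; rw [ha'.sub, h']; ring
  have b1 : ((tr ⌈b u - u⌉)⁻¹ * b) u ≤ u := by
    simp only [mul_ap, tr_inv_int]; linarith [Int.le_ceil (b u - u)]
  have b2 : u - 1 < ((tr ⌈b u - u⌉)⁻¹ * b) u := by
    simp only [mul_ap, tr_inv_int]; linarith [Int.ceil_lt_add_one (b u - u)]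
  generalize (tr ⌈b u - u⌉)⁻¹ * b = B at *
  have b3 := h'' u
  have b4 := h'' v
  rw [u5] at b3
  rw [v6] at b4
  have b5 : u ≤ B v := not_lt.1 fun e => by
    have e1 : B (v - 1) = B v - 1 := by simpa using hb'.sub 1 v
    have e2 := smono B (v7 (B⁻¹ (u - 1)) (lt_inv.2 (by linarith)) (inv_lt.2 b2))
    rw [h'', ap_inv] at e2
    linarith
  have b6 : u + 1 / 2 ≤ B v := by linarith [mono F b5]
  exact core ⟨F, ha'⟩ ⟨B, hb'⟩ h'' q5 v4 q7 (by linarith) q6 u5 v6 (q3 ⟨b1, by linarith⟩) b6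
    (by linarith [smono F (show v < B v by linarith)])

theorem no_comm {a b : G} (ha : Cm a) (hb : Cm b) {n : ℤ}
    (h : ∀ t, b (a t) = a (b t) + (n + 1 / 2)) : False := by
  obtain ⟨m, p, hp⟩ := fixp ha hb h
  have e1 := h p
  rw [hp, hb.int] at e1
  have f1 := Int.floor_le (b p - p)
  have f2 := Int.lt_floor_add_one (b p - p)
  have e2 := mono a (show p + ⌊b p - p⌋ ≤ b p by linarith)
  have e3 := smono a (show b p < p + ⌊b p - p⌋ + 1 by linarith)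
  rw [ha, ha.int, hp] at e3
  rw [ha.int, hp] at e2
  have n1 : n < 1 := by exact_mod_cast (show (n : ℝ) < 1 by linarith)
  have n2 : -2 < n := by exact_mod_cast (show (-2 : ℝ) < n by linarith)
  obtain rfl | rfl : n = 0 ∨ n = -1 := by omega
  · exact no_half ha hb (by simpa using h)
  · exact no_half hb ha fun t => by rw [h]; push_cast; ring

theorem T_low : ∃ g ∈ ⁅pr.range, pr.range⁆, ∀ a ∈ pr.range, ∀ b ∈ pr.range,
    g ≠ a * b * a⁻¹ * b⁻¹ := by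
  refine ⟨pr SS, ?_, ?_⟩
  · obtain ⟨a, ha, b, hb, c, hc, d, hd, e⟩ := T_two _ ⟨SS, rfl⟩
    exact e ▸ mul_mem (commutator_mem_commutator ha hb) (commutator_mem_commutator hc hd)
  · rintro _ ⟨a, rfl⟩ _ ⟨b, rfl⟩ e
    obtain ⟨n, hn⟩ := pr_one (a := SS⁻¹ * (a * b * a⁻¹ * b⁻¹)) (by
      simp only [map_mul, map_inv]; rw [← e, inv_mul_cancel])
    refine no_comm b.2 a.2 (n := n) fun t => ?_
    have := congrArg (fun g : G => SS.1 (g (b.1 (a.1 t)))) hn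
    simp only [Subgroup.coe_mul, Subgroup.coe_inv, mul_ap, ap_inv, inv_ap, SS_ap, tr_int] at this
    rw [this]; ring

end Pool.Agent.H.MP_3d8b4c_al
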