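import Pool.Agent.H.MP_3d8b4c_al.D

open Filter Topology Set

namespace Pool.Agent.H.MP_3d8b4c_al

noncomputable def fl (n : ℕ) (x : ℝ) : ℤ := ⌊x * 2 ^ n⌋

theorem fl_eq {n : ℕ} {x : ℝ} {j : ℤ} : fl n x = j ↔ (j : ℝ) ≤ x * 2 ^ n ∧ x * 2 ^ n < j + 1 :=
  Int.floor_eq_iff

theorem fl_div (n d : ℕ) (x : ℝ) : fl n x = fl (n + d) x / 2 ^ d := by
  have := Int.floor_div_natCast (x * 2 ^ (n + d)) (2 ^ d)
  push_cast at this
  rw [fl, fl, ← this]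
  congr 1
  field_simp; ring

theorem fl_lev {n m : ℕ} (h : n ≤ m) {x y : ℝ} (e : fl m x = fl m y) : fl n x = fl n y := by
  obtain ⟨d, rfl⟩ := Nat.exists_eq_add_of_le h
  rw [fl_div n d, fl_div n d, e]

theorem aff_uc {s c : ℝ} (hs : Sl s) (hc : c ∈ D) (n : ℕ) :
    ∀ᶠ M in atTop, ∀ x y, fl M y = fl M x → fl n (s * y + c) = fl n (s * x + c) := by
  obtain ⟨k, rfl⟩ := hs
  obtain ⟨m, e, rfl⟩ := hc
  obtain ⟨p, hp⟩ : ∃ p : ℕ, (p : ℤ) = k + k.natAbs := ⟨(k + k.natAbs).toNat, by omega⟩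
  have key : ∀ y : ℝ, fl (n + e + k.natAbs) (2 ^ k * y + m / 2 ^ e) =
      fl (p + n + e) y + m * 2 ^ (n + k.natAbs) := fun y => by
    rw [fl, fl, ← Int.floor_add_intCast]
    congr 1
    have : (2 : ℝ) ^ p = 2 ^ k * 2 ^ k.natAbs := by
      rw [← zpow_natCast, hp, zpow_add₀ two_ne_zero, zpow_natCast]
    push_cast
    simp only [pow_add, this]
    field_simp
  filter_upwards [eventually_ge_atTop (p + n + e)] with M hM x y h
  apply fl_lev (show n ≤ n + e + k.natAbs by omega)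
  rw [key, key, fl_lev hM h]

def I : Set ℝ := Ico 0 1

theorem fl_I {n : ℕ} {x y : ℝ} (h : fl n y = fl n x) (hx : x ∈ I) : y ∈ I := by
  have h1 := fl_lev (Nat.zero_le n) h
  have h2 : fl 0 x = 0 := fl_eq.2 (by simpa [I] using hx)
  rw [h2, fl_eq] at h1
  simpa [I] using h1

theorem fin_ev (N : ℕ) {A : Set ℝ} (hA : A ⊆ I) (P : ℕ → ℝ → Prop)
    (h : ∀ x0 ∈ A, ∀ᶠ M in atTop, ∀ x ∈ A, fl N x = fl N x0 → P M x) :
    ∀ᶠ M in atTop, ∀ x ∈ A, P M x := by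
  have h1 : ∀ j ∈ Finset.Ico (0 : ℤ) (2 ^ N), ∀ᶠ M in atTop, ∀ x ∈ A, fl N x = j → P M x := by
    intro j _
    by_cases e : ∃ x0 ∈ A, fl N x0 = j
    · obtain ⟨x0, h0, rfl⟩ := e
      exact h x0 h0
    · exact Eventually.of_forall fun M x hx e' => absurd ⟨x, hx, e'⟩ e
  filter_upwards [(eventually_all_finset _).2 h1] with M hM x hx
  refine hM _ ?_ x hx rfl
  obtain ⟨h2, h3⟩ := hA hx
  have hp : (0 : ℝ) < 2 ^ N := by positivity
  rw [Finset.mem_Ico, fl, Int.floor_nonneg, Int.floor_lt]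
  push_cast
  constructor <;> nlinarith

def Loc (φ : ℝ → ℝ) (N : ℕ) (x : ℝ) : Prop :=
  ∃ s c, Sl s ∧ c ∈ D ∧ ∀ y, fl N y = fl N x → φ y = s * y + c

def LA (φ : ℝ → ℝ) (A : Set ℝ) : Prop := ∀ᶠ N in atTop, ∀ x ∈ A, Loc φ N x

structure Clo (A : Set ℝ) : Prop where
  sub : A ⊆ I
  sat : ∀ᶠ N in atTop, ∀ x y, fl N y = fl N x → x ∈ A → y ∈ A

theorem Clo.I : Clo I := ⟨le_rfl, Eventually.of_forall fun _ _ _ => fl_I⟩
theorem Clo.empty : Clo ∅ := ⟨empty_subset _, Eventually.of_forall fun _ _ _ _ h => h⟩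
theorem Clo.union {A B : Set ℝ} (hA : Clo A) (hB : Clo B) : Clo (A ∪ B) :=
  ⟨union_subset hA.1 hB.1, by
    filter_upwards [hA.2, hB.2] with N h1 h2 x y e h
    exact h.imp (h1 x y e) (h2 x y e)⟩
theorem Clo.inter {A B : Set ℝ} (hA : Clo A) (hB : Clo B) : Clo (A ∩ B) :=
  ⟨fun _ h => hA.1 h.1, by
    filter_upwards [hA.2, hB.2] with N h1 h2 x y e h
    exact ⟨h1 x y e h.1, h2 x y e h.2⟩⟩
theorem Clo.diff {A B : Set ℝ} (hA : Clo A) (hB : Clo B) : Clo (A \ B) :=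
  ⟨fun _ h => hA.1 h.1, by
    filter_upwards [hA.2, hB.2] with N h1 h2 x y e h
    exact ⟨h1 x y e h.1, fun h' => h.2 (h2 y x e.symm h')⟩⟩
theorem Clo.cell (n : ℕ) {x : ℝ} (hx : x ∈ MP_3d8b4c_al.I) : Clo {y | fl n y = fl n x} :=
  ⟨fun _ h => fl_I h hx, by
    filter_upwards [eventually_ge_atTop n] with N hN x y e h
    exact (fl_lev hN e).trans h⟩

theorem LA.mono {φ : ℝ → ℝ} {A B : Set ℝ} (h : LA φ A) (hB : B ⊆ A) : LA φ B := by
  filter_upwards [h] with N hN x hx using hN x (hB hx)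
theorem LA.union {φ : ℝ → ℝ} {A B : Set ℝ} (h : LA φ A) (h' : LA φ B) : LA φ (A ∪ B) := by
  filter_upwards [h, h'] with N h1 h2 x hx using hx.elim (h1 x) (h2 x)
theorem LA.congr {φ ψ : ℝ → ℝ} {A : Set ℝ} (h : LA φ A) (hA : Clo A) (e : ∀ x ∈ A, ψ x = φ x) :
    LA ψ A := by
  filter_upwards [h, hA.2] with N h1 h2 x hx
  obtain ⟨s, c, a1, a2, a3⟩ := h1 x hx
  exact ⟨s, c, a1, a2, fun y hy => by rw [e y (h2 x y hy hx), a3 y hy]⟩
theorem LA.aff {s c : ℝ} (hs : Sl s) (hc : c ∈ D) (A : Set ℝ) : LA (fun x => s * x + c) A :=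
  Eventually.of_forall fun _ _ _ => ⟨s, c, hs, hc, fun _ _ => rfl⟩
theorem LA.id (A : Set ℝ) : LA (fun x => x) A :=
  Eventually.of_forall fun _ _ _ => ⟨1, 0, Sl.one, zero_mem _, fun _ _ => by ring⟩

theorem LA.uc {φ : ℝ → ℝ} {A : Set ℝ} (h : LA φ A) (hA : A ⊆ I) (n : ℕ) :
    ∀ᶠ M in atTop, ∀ x ∈ A, ∀ y, fl M y = fl M x → fl n (φ y) = fl n (φ x) := by
  obtain ⟨N, hN⟩ := h.exists
  refine fin_ev N hA _ fun x0 h0 => ?_
  obtain ⟨s, c, a1, a2, a3⟩ := hN x0 h0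
  filter_upwards [aff_uc a1 a2 n, eventually_ge_atTop N] with M h1 h2 x _ e y e'
  rw [a3 x e, a3 y ((fl_lev h2 e').trans e), h1 x y e']

theorem LA.comp {φ ψ : ℝ → ℝ} {A B : Set ℝ} (h : LA φ A) (h' : LA ψ B) (hA : A ⊆ I)
    (hm : ∀ x ∈ A, φ x ∈ B) : LA (fun x => ψ (φ x)) A := by
  obtain ⟨N, hN⟩ := h'.exists
  filter_upwards [h, h.uc hA N] with M h1 h2 x hx
  obtain ⟨s, c, a1, a2, a3⟩ := h1 x hx
  obtain ⟨s', c', b1, b2, b3⟩ := hN _ (hm x hx)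
  exact ⟨s' * s, s' * c + c', b1.mul a1, add_mem (mul_mem b1.mem a2) b2, fun y e => by
    simp only; rw [b3 _ (h2 x hx y e), a3 y e]; ring⟩

theorem LA.inv_aux {φ : ℝ → ℝ} {A : Set ℝ} (h : LA φ A) (hA : Clo A) :
    ∀ᶠ M in atTop, ∀ x ∈ A, ∃ s c, Sl s ∧ c ∈ D ∧
      ∀ y, fl M y = fl M (φ x) → s * y + c ∈ A ∧ φ (s * y + c) = y := by
  obtain ⟨N, hN, hN'⟩ := (h.and hA.2).exists
  refine fin_ev N hA.1 _ fun x0 h0 => ?_
  obtain ⟨s, c, a1, a2, a3⟩ := hN x0 h0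
  have d := neg_mem (mul_mem a1.inv.mem a2)
  have := a1.pos.ne'
  filter_upwards [aff_uc a1.inv d N] with M h1 x hx e
  refine ⟨_, _, a1.inv, d, fun y e' => ?_⟩
  have e1 := h1 _ y e'
  rw [a3 x e, show s⁻¹ * (s * x + c) + -(s⁻¹ * c) = x by field_simp; ring] at e1
  exact ⟨hN' x _ e1 hx, by rw [a3 _ (e1.trans e)]; field_simp; ring⟩

theorem LA.inv {φ ψ : ℝ → ℝ} {A B : Set ℝ} (h : LA φ A) (hA : Clo A) (hl : ∀ x ∈ A, ψ (φ x) = x)
    (hs : ∀ y ∈ B, ∃ x ∈ A, φ x = y) : LA ψ B := by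
  filter_upwards [h.inv_aux hA] with M hM y hy
  obtain ⟨x, hx, rfl⟩ := hs y hy
  obtain ⟨s, c, a1, a2, a3⟩ := hM x hx
  exact ⟨s, c, a1, a2, fun y e => by rw [← hl _ (a3 y e).1, (a3 y e).2]⟩

theorem perm_I {σ : Equiv.Perm ℝ} (h : ∀ x, x ∉ I → σ x = x) {x : ℝ} (hx : x ∈ I) : σ x ∈ I := by
  by_contra h1
  have := σ.injective (h _ h1)
  exact h1 (this.symm ▸ hx)

/-- Thompson's group V as a group of permutations of the line -/
def VG : Subgroup (Equiv.Perm ℝ) where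
  carrier := {σ | (∀ x, x ∉ I → σ x = x) ∧ LA σ I}
  one_mem' := ⟨fun _ _ => rfl, LA.id _⟩
  mul_mem' := by
    rintro σ τ ⟨a1, a2⟩ ⟨b1, b2⟩
    exact ⟨fun x hx => by simp [a1 x hx, b1 x hx], b2.comp a2 le_rfl fun x hx => perm_I b1 hx⟩
  inv_mem' := by
    rintro σ ⟨a1, a2⟩
    have : ∀ x, x ∉ I → σ⁻¹ x = x := fun x hx => by rw [Equiv.Perm.inv_eq_iff_eq, a1 x hx]
    exact ⟨this, a2.inv Clo.I (by simp) fun y hy => ⟨σ⁻¹ y, perm_I this hy, by simp⟩⟩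

abbrev V : Type := ↥VG

def va (g : V) : ℝ → ℝ := fun t => g.1 t

instance : CoeFun V (fun _ => ℝ → ℝ) := ⟨va⟩

@[simp] theorem vmul (f g : V) (t : ℝ) : (f * g) t = f (g t) := rfl
@[simp] theorem vone (t : ℝ) : (1 : V) t = t := rfl
@[simp] theorem vinv (f : V) (t : ℝ) : f⁻¹ (f t) = t := f.1.symm_apply_apply t
@[simp] theorem vinv' (f : V) (t : ℝ) : f (f⁻¹ t) = t := f.1.apply_symm_apply t
@[simp] theorem vinj {f : V} {s t : ℝ} : f s = f t ↔ s = t := f.1.injective.eq_iff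
theorem vext {f g : V} (h : ∀ t, f t = g t) : f = g := Subtype.ext (Equiv.ext h)
theorem vinv_eq {f : V} {s t : ℝ} (h : f s = t) : f⁻¹ t = s := by rw [← h, vinv]
theorem vout (g : V) {x : ℝ} (h : x ∉ I) : g x = x := g.2.1 x h
theorem vla (g : V) : LA g I := g.2.2
theorem vI (g : V) {x : ℝ} : g x ∈ I ↔ x ∈ I :=
  ⟨fun h => vinv g x ▸ perm_I (σ := (g⁻¹ : V).1) (g⁻¹ : V).2.1 h, perm_I g.2.1⟩
theorem vextI {f g : V} (h : ∀ t ∈ I, f t = g t) : f = g := vext fun t => by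
  by_cases ht : t ∈ I
  exacts [h t ht, by rw [vout f ht, vout g ht]]

theorem Clo.pre {A : Set ℝ} (hA : Clo A) (g : V) : Clo {x | g x ∈ A} := by
  refine ⟨fun x h => (vI g).1 (hA.1 h), ?_⟩
  obtain ⟨N, hN⟩ := hA.2.exists
  filter_upwards [(vla g).uc le_rfl N] with M hM x y e h
  exact hN _ _ (hM x ((vI g).1 (hA.1 h)) y e) h

/-- g maps A onto B -/
def Mp (g : V) (A B : Set ℝ) : Prop := ∀ x, x ∈ A ↔ g x ∈ B

theorem Mp.inv {g : V} {A B : Set ℝ} (h : Mp g A B) : Mp g⁻¹ B A := fun x => by rw [h, vinv']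
theorem Mp.mul {g k : V} {A B C : Set ℝ} (h : Mp g B C) (h' : Mp k A B) : Mp (g * k) A C :=
  fun x => by rw [h', h, vmul]
theorem Mp.one (A : Set ℝ) : Mp 1 A A := fun _ => Iff.rfl
theorem Mp.union {g : V} {A B A' B' : Set ℝ} (h : Mp g A B) (h' : Mp g A' B') :
    Mp g (A ∪ A') (B ∪ B') := fun x => by simp only [mem_union, h x, h' x]
theorem Mp.diff {g : V} {A B A' B' : Set ℝ} (h : Mp g A B) (h' : Mp g A' B') :
    Mp g (A \ A') (B \ B') := fun x => by simp only [mem_diff, h x, h' x]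
theorem Mp.I (g : V) : Mp g I I := fun _ => (vI g).symm
theorem Mp.congr {g k : V} {A B : Set ℝ} (h : Mp g A B) (e : ∀ x ∈ A, k x = g x) : Mp k A B := by
  intro x
  refine ⟨fun hx => by rw [e x hx]; exact (h x).1 hx, fun hx => ?_⟩
  have h1 := (h.inv _).1 hx
  have h2 := e _ h1
  rw [vinv', vinj] at h2
  rwa [h2] at h1

theorem mkV (φ : ℝ → ℝ) (h1 : BijOn φ I I) (h2 : LA φ I) : ∃ g : V, ∀ x ∈ I, g x = φ x := by
  classical
  let F : ℝ → ℝ := fun x => if x ∈ I then φ x else x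
  have F1 : ∀ x ∈ I, F x = φ x := fun x hx => if_pos hx
  have F2 : ∀ x, x ∉ I → F x = x := fun x hx => if_neg hx
  have hb : Function.Bijective F := by
    constructor
    · intro x y e
      by_cases hx : x ∈ I <;> by_cases hy : y ∈ I
      · rw [F1 x hx, F1 y hy] at e; exact h1.injOn hx hy e
      · rw [F1 x hx, F2 y hy] at e; exact absurd (e ▸ h1.mapsTo hx) hy
      · rw [F2 x hx, F1 y hy] at e; exact absurd (e ▸ h1.mapsTo hy) hx
      · rwa [F2 x hx, F2 y hy] at e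
    · intro y
      by_cases hy : y ∈ I
      · obtain ⟨x, hx, rfl⟩ := h1.surjOn hy
        exact ⟨x, F1 x hx⟩
      · exact ⟨y, F2 y hy⟩
  exact ⟨⟨Equiv.ofBijective F hb, F2, h2.congr Clo.I F1⟩, F1⟩

theorem glueF {ι : Type*} (p : ι → Prop) (hp : {i | p i}.Finite) (A B : ι → Set ℝ) (g : ι → V)
    (hA : ∀ i, p i → Clo (A i)) (hg : ∀ i, p i → Mp (g i) (A i) (B i))
    (dA : ∀ i j x, p i → p j → x ∈ A i → x ∈ A j → i = j)
    (dB : ∀ i j x, p i → p j → x ∈ B i → x ∈ B j → i = j)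
    (cA : ∀ x ∈ I, ∃ i, p i ∧ x ∈ A i) (cB : ∀ x ∈ I, ∃ i, p i ∧ x ∈ B i) :
    ∃ k : V, ∀ i, p i → ∀ x ∈ A i, k x = g i x := by
  classical
  choose idx h1 h2 using cA
  let φ : ℝ → ℝ := fun x => if h : x ∈ I then g (idx x h) x else x
  have e : ∀ i, p i → ∀ x ∈ A i, φ x = g i x := fun i hi x hx => by
    have hI := (hA i hi).1 hx
    simp only [φ, dif_pos hI]
    rw [dA _ _ x (h1 x hI) hi (h2 x hI) hx]
  obtain ⟨k, hk⟩ := mkV φ ⟨fun x hx => by rw [e _ (h1 x hx) x (h2 x hx)]; exact (vI _).2 hx,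
    fun x hx y hy h => by
      rw [e _ (h1 x hx) x (h2 x hx), e _ (h1 y hy) y (h2 y hy)] at h
      have := dB _ _ _ (h1 x hx) (h1 y hy) ((hg _ (h1 x hx) x).1 (h2 x hx))
        (h ▸ (hg _ (h1 y hy) y).1 (h2 y hy))
      rwa [this, vinj] at h,
    fun y hy => by
      obtain ⟨i, hi, h⟩ := cB y hy
      have := ((hg i hi).inv y).1 h
      exact ⟨_, (hA i hi).1 this, by rw [e i hi _ this, vinv']⟩⟩ (by
    have : ∀ i ∈ {i | p i}, LA φ (A i) := fun i hi =>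
      ((vla (g i)).mono (hA i hi).1).congr (hA i hi) (e i hi)
    filter_upwards [(eventually_all_finite hp).2 this] with N hN x hx
    exact hN _ (h1 x hx) x (h2 x hx))
  exact ⟨k, fun i hi x hx => by rw [hk x ((hA i hi).1 hx), e i hi x hx]⟩

def Eqv (A B : Set ℝ) : Prop := ∃ φ, BijOn φ A B ∧ LA φ A

theorem Eqv.symm {A B : Set ℝ} (h : Eqv A B) (hA : Clo A) : Eqv B A := by
  obtain ⟨φ, h1, h2⟩ := h
  exact ⟨_, h1.symm h1.invOn_invFunOn.symm,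
    h2.inv hA (fun x hx => h1.invOn_invFunOn.1 hx) (fun y hy => h1.surjOn hy)⟩

theorem Eqv.trans {A B C : Set ℝ} (h : Eqv A B) (h' : Eqv B C) (hA : A ⊆ I) : Eqv A C := by
  obtain ⟨φ, h1, h2⟩ := h
  obtain ⟨ψ, h3, h4⟩ := h'
  exact ⟨_, h3.comp h1, h2.comp h4 hA h1.mapsTo⟩

theorem pi_union {φ ψ : ℝ → ℝ} {A B A' B' : Set ℝ} (h1 : BijOn φ A B) (h2 : LA φ A)
    (h3 : BijOn ψ A' B') (h4 : LA ψ A') (hA : Clo A) (hA' : Clo A') (d1 : Disjoint A A')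
    (d2 : Disjoint B B') :
    ∃ χ, BijOn χ (A ∪ A') (B ∪ B') ∧ LA χ (A ∪ A') ∧ ∀ x ∈ A, χ x = φ x := by
  classical
  let χ : ℝ → ℝ := fun x => if x ∈ A then φ x else ψ x
  have e1 : ∀ x ∈ A, χ x = φ x := fun x hx => if_pos hx
  have e2 : ∀ x ∈ A', χ x = ψ x := fun x hx => if_neg (disjoint_right.1 d1 hx)
  have b1 : BijOn χ A B := h1.congr fun x hx => (e1 x hx).symm
  have b2 : BijOn χ A' B' := h3.congr fun x hx => (e2 x hx).symm
  refine ⟨χ, b1.union b2 ?_, (h2.congr hA e1).union (h4.congr hA' e2), e1⟩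
  rintro x (hx | hx) y (hy | hy) e
  · exact b1.injOn hx hy e
  · exact absurd (e ▸ b1.mapsTo hx) (disjoint_right.1 d2 (b2.mapsTo hy))
  · exact absurd (e ▸ b2.mapsTo hx) (disjoint_left.1 d2 (b1.mapsTo hy))
  · exact b2.injOn hx hy e

theorem Eqv.union {A B A' B' : Set ℝ} (h : Eqv A B) (h' : Eqv A' B') (hA : Clo A) (hA' : Clo A')
    (d1 : Disjoint A A') (d2 : Disjoint B B') : Eqv (A ∪ A') (B ∪ B') := by
  obtain ⟨φ, h1, h2⟩ := h
  obtain ⟨ψ, h3, h4⟩ := h'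
  obtain ⟨χ, a, b, -⟩ := pi_union h1 h2 h3 h4 hA hA' d1 d2
  exact ⟨χ, a, b⟩

def cel (n : ℕ) (j : ℤ) : Set ℝ := {y | fl n y = j}

theorem cel_clo {n : ℕ} {j : ℤ} (h : cel n j ⊆ I) : Clo (cel n j) :=
  ⟨h, by
    filter_upwards [eventually_ge_atTop n] with N hN x y e h
    exact (fl_lev hN e).trans h⟩

theorem cel_eqv (n : ℕ) (j : ℤ) : Eqv (cel n j) I := by
  have hp : (0 : ℝ) < 2 ^ n := by positivity
  refine ⟨fun x => 2 ^ n * x + (-j : ℤ), ⟨fun x hx => ?_, fun x _ y _ e => ?_, fun y hy => ?_⟩,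
    LA.aff (Sl.pow n) (intCast_mem _ _) _⟩
  · obtain ⟨h1, h2⟩ := fl_eq.1 hx
    constructor <;> push_cast <;> linarith
  · simpa [hp.ne'] using e
  · refine ⟨(y + j) / 2 ^ n, fl_eq.2 ?_, by push_cast; field_simp; ring⟩
    rw [div_mul_cancel₀ _ hp.ne']
    exact ⟨by linarith [hy.1], by linarith [hy.2]⟩

theorem I_split : cel 1 0 ∪ cel 1 1 = I := by
  ext x
  simp only [cel, mem_union, mem_setOf_eq, fl_eq, I, mem_Ico]
  push_cast
  constructor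
  · rintro (h | h) <;> constructor <;> linarith [h.1, h.2]
  · intro h
    rcases lt_or_ge (x * 2 ^ 1) 1 with h1 | h1
    · left; constructor <;> linarith [h.1]
    · right; constructor <;> linarith [h.2]

theorem eqv_I {A : Set ℝ} (hA : Clo A) (hn : A.Nonempty) : Eqv A I := by
  classical
  obtain ⟨N, hN⟩ := hA.2.exists
  have c0 : Clo (cel 1 0) := cel_clo (I_split ▸ subset_union_left)
  have c1 : Clo (cel 1 1) := cel_clo (I_split ▸ subset_union_right)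
  have key : ∀ s : Finset ℤ, s.Nonempty → {y | fl N y ∈ s} ⊆ I → Eqv {y | fl N y ∈ s} I := by
    intro s hs
    induction hs using Finset.Nonempty.cons_induction with
    | singleton j => intro _; simpa [cel] using cel_eqv N j
    | cons j s hj hs ih =>
      intro h
      have e : {y | fl N y ∈ Finset.cons j s hj} = cel N j ∪ {y | fl N y ∈ s} := by
        ext y; simp [cel]
      rw [e] at h ⊢
      have h1 : cel N j ⊆ I := fun x hx => h (Or.inl hx)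
      have h2 : {y | fl N y ∈ s} ⊆ I := fun x hx => h (Or.inr hx)
      rw [← I_split]
      refine (((cel_eqv N j).trans ((cel_eqv 1 0).symm c0) h1).union
        ((ih h2).trans ((cel_eqv 1 1).symm c1) h2) (cel_clo h1) ⟨h2, ?_⟩ ?_ ?_)
      · filter_upwards [eventually_ge_atTop N] with M hM x y e h
        show fl N y ∈ s
        rwa [fl_lev hM e]
      · exact disjoint_left.2 fun x (hx : fl N x = j) (hx' : fl N x ∈ s) => hj (hx ▸ hx')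
      · exact disjoint_left.2 fun x (hx : fl 1 x = 0) (hx' : fl 1 x = 1) => by omega
  have e : A = {y | fl N y ∈ (Finset.Ico (0 : ℤ) (2 ^ N)).filter fun j => ∃ x ∈ A, fl N x = j} := by
    ext y
    simp only [mem_setOf_eq, Finset.mem_filter]
    refine ⟨fun hy => ⟨?_, y, hy, rfl⟩, fun ⟨_, x, hx, e⟩ => hN x y e.symm hx⟩
    obtain ⟨h2, h3⟩ := hA.1 hy
    have hp : (0 : ℝ) < 2 ^ N := by positivity
    rw [Finset.mem_Ico, fl, Int.floor_nonneg, Int.floor_lt]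
    push_cast
    constructor <;> nlinarith
  rw [e]
  obtain ⟨x, hx⟩ := hn
  exact key _ ⟨fl N x, by rw [e] at hx; exact hx⟩ (e ▸ hA.1)

theorem eqv_all {A B : Set ℝ} (hA : Clo A) (hn : A.Nonempty) (hB : Clo B) (hm : B.Nonempty) :
    Eqv A B := (eqv_I hA hn).trans ((eqv_I hB hm).symm hB) hA.1

theorem extend {φ : ℝ → ℝ} {A B : Set ℝ} (hA : Clo A) (hB : Clo B) (h1 : BijOn φ A B)
    (h2 : LA φ A) (n1 : (I \ A).Nonempty) (n2 : (I \ B).Nonempty) :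
    ∃ g : V, Mp g A B ∧ ∀ x ∈ A, g x = φ x := by
  obtain ⟨ψ, h3, h4⟩ := eqv_all (Clo.I.diff hA) n1 (Clo.I.diff hB) n2
  obtain ⟨χ, a, b, c⟩ := pi_union h1 h2 h3 h4 hA (Clo.I.diff hA) disjoint_sdiff_right
    disjoint_sdiff_right
  rw [union_diff_cancel hA.1] at a b
  rw [union_diff_cancel hB.1] at a
  obtain ⟨g, hg⟩ := mkV χ a b
  have e : ∀ x ∈ A, g x = φ x := fun x hx => by rw [hg x (hA.1 hx), c x hx]
  refine ⟨g, fun x => ⟨fun hx => e x hx ▸ h1.mapsTo hx, fun hx => ?_⟩, e⟩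
  obtain ⟨y, hy, e'⟩ := h1.surjOn hx
  rw [← e y hy, vinj] at e'
  exact e' ▸ hy

theorem trans1 {A B : Set ℝ} (hA : Clo A) (hB : Clo B) (hn : A.Nonempty) (hm : B.Nonempty)
    (n1 : (I \ A).Nonempty) (n2 : (I \ B).Nonempty) : ∃ g : V, Mp g A B := by
  obtain ⟨φ, h1, h2⟩ := eqv_all hA hn hB hm
  obtain ⟨g, hg, -⟩ := extend hA hB h1 h2 n1 n2
  exact ⟨g, hg⟩

theorem trans_d {A B : Set ℝ} (hA : Clo A) (hB : Clo B) (hn : A.Nonempty) (hm : B.Nonempty)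
    (d : ∀ x ∈ A, x ∉ B) : ∃ g : V, Mp g A B :=
  trans1 hA hB hn hm (hm.imp fun x h => ⟨hB.1 h, fun h' => d x h' h⟩)
    (hn.imp fun x h => ⟨hA.1 h, d x h⟩)

theorem sep {x y : ℝ} (hx : x ∈ I) (h : y ≠ x) : ∃ A, Clo A ∧ x ∈ A ∧ y ∉ A := by
  obtain ⟨n, hn⟩ := pow_unbounded_of_one_lt |y - x|⁻¹ (one_lt_two (α := ℝ))
  have h0 := abs_pos.2 (sub_ne_zero.2 h)
  have h1 : 1 < |y - x| * 2 ^ n := by
    have := mul_lt_mul_of_pos_left hn h0
    rwa [mul_inv_cancel₀ h0.ne'] at this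
  refine ⟨_, Clo.cell n hx, rfl, fun (e : fl n y = fl n x) => ?_⟩
  obtain ⟨a1, a2⟩ := fl_eq.1 e
  obtain ⟨a3, a4⟩ := (fl_eq (n := n) (x := x)).1 rfl
  rcases abs_cases (y - x) with h | h <;> rw [h.1] at h1 <;> linarith

theorem Clo.other {A : Set ℝ} (hA : Clo A) {x : ℝ} (hx : x ∈ A) (y z : ℝ) :
    ∃ w ∈ A, w ≠ y ∧ w ≠ z := by
  obtain ⟨N, hN⟩ := hA.2.exists
  obtain ⟨a3, a4⟩ := (fl_eq (n := N) (x := x)).1 rfl
  have hp : (0 : ℝ) < 2 ^ N := by positivity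
  have : x < (fl N x + 1) / 2 ^ N := by rwa [lt_div_iff₀ hp]
  obtain ⟨w, ⟨h1, h2⟩, h3⟩ := (Ico_infinite this).exists_notMem_finset {y, z}
  rw [lt_div_iff₀ hp] at h2
  simp only [Finset.mem_insert, Finset.mem_singleton, not_or] at h3
  exact ⟨w, hN x w (fl_eq.2 ⟨by nlinarith, h2⟩) hx, h3⟩

theorem Clo.split {A : Set ℝ} (hA : Clo A) (hn : A.Nonempty) :
    ∃ B, Clo B ∧ B ⊆ A ∧ B.Nonempty ∧ (A \ B).Nonempty := by
  obtain ⟨x, hx⟩ := hn
  obtain ⟨y, hy, h, -⟩ := hA.other hx x x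
  obtain ⟨B, h1, h2, h3⟩ := sep (hA.1 hx) h
  exact ⟨A ∩ B, hA.inter h1, inter_subset_left, ⟨x, hx, h2⟩, y, hy, fun h => h3 h.2⟩

/-- supported in Y -/
def Sp (Y : Set ℝ) (g : V) : Prop := ∀ x, x ∉ Y → g x = x

theorem Sp.one (Y : Set ℝ) : Sp Y 1 := fun _ _ => rfl
theorem Sp.mul {Y : Set ℝ} {g h : V} (hg : Sp Y g) (hh : Sp Y h) : Sp Y (g * h) :=
  fun t ht => by rw [vmul, hh t ht, hg t ht]
theorem Sp.inv {Y : Set ℝ} {g : V} (hg : Sp Y g) : Sp Y g⁻¹ := fun t ht => vinv_eq (hg t ht)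
theorem Sp.mono {Y Z : Set ℝ} {g : V} (hg : Sp Y g) (h : Y ⊆ Z) : Sp Z g :=
  fun t ht => hg t fun h' => ht (h h')
theorem Sp.mp {Y : Set ℝ} {g : V} (hg : Sp Y g) : Mp g Y Y := fun x => by
  by_cases h : x ∈ Y
  · refine ⟨fun _ => ?_, fun _ => h⟩
    by_contra h1
    have := hg _ h1
    rw [vinj] at this
    exact h1 (this.symm ▸ h)
  · rw [hg x h]
theorem Sp.conj {Y Z : Set ℝ} {g s : V} (hg : Sp Y g) (hs : ∀ x ∈ Y, s x ∈ Z) :
    Sp Z (s * g * s⁻¹) := fun t ht => by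
  rw [vmul, vmul, hg _ fun h => ht (by simpa using hs _ h), vinv']
theorem Sp.comm {Y Z : Set ℝ} {g h : V} (hg : Sp Y g) (hh : Sp Z h) (d : ∀ x ∈ Y, x ∉ Z) :
    g * h = h * g := vext fun t => by
  rw [vmul, vmul]
  by_cases h1 : t ∈ Y
  · rw [hh t (d t h1), hh _ (d _ ((hg.mp t).1 h1))]
  · rw [hg t h1]
    by_cases h2 : t ∈ Z
    · rw [hg _ fun h => d _ h ((hh.mp t).1 h2)]
    · rw [hh t h2, hg t h1]
theorem Sp.mp_of {Y A : Set ℝ} {g : V} (hg : Sp Y g) (h : Y ⊆ A ∨ ∀ x ∈ Y, x ∉ A) : Mp g A A := by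
  intro x
  by_cases hx : x ∈ Y
  · have := (hg.mp x).1 hx
    rcases h with h | h
    · exact ⟨fun _ => h this, fun _ => h hx⟩
    · exact ⟨fun h' => absurd h' (h x hx), fun h' => absurd h' (h _ this)⟩
  · rw [hg x hx]

theorem swap {A B : Set ℝ} (hA : Clo A) (hB : Clo B) {g : V} (hg : Mp g A B)
    (d : ∀ x ∈ A, x ∉ B) : ∃ ι : V, ι * ι = 1 ∧ Sp (A ∪ B) ι ∧ (∀ x ∈ A, ι x = g x) ∧
      ∀ x ∈ B, ι x = g⁻¹ x := by
  obtain ⟨k, hk⟩ := glueF (ι := Fin 3) (fun _ => True) (toFinite _) ![A, B, I \ (A ∪ B)]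
    ![B, A, I \ (A ∪ B)] ![g, g⁻¹, 1]
    (fun i _ => by fin_cases i; exacts [hA, hB, Clo.I.diff (hA.union hB)])
    (fun i _ => by fin_cases i; exacts [hg, hg.inv, Mp.one _])
    (fun i j x _ _ => by have := d x; fin_cases i <;> fin_cases j <;> simp <;> tauto)
    (fun i j x _ _ => by have := d x; fin_cases i <;> fin_cases j <;> simp <;> tauto)
    (fun x hx => by simp [Fin.exists_fin_succ]; tauto)
    (fun x hx => by simp [Fin.exists_fin_succ]; tauto)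
  have k0 : ∀ x ∈ A, k x = g x := hk 0 trivial
  have k1 : ∀ x ∈ B, k x = g⁻¹ x := hk 1 trivial
  have k2 : Sp (A ∪ B) k := fun x hx => by
    by_cases h : x ∈ I
    exacts [hk 2 trivial x ⟨h, hx⟩, vout k h]
  refine ⟨k, vext fun x => ?_, k2, k0, k1⟩
  rw [vmul, vone]
  by_cases h1 : x ∈ A
  · rw [k0 x h1, k1 _ ((hg x).1 h1), vinv]
  by_cases h2 : x ∈ B
  · rw [k1 x h2, k0 _ ((hg.inv x).1 h2), vinv']
  · have : k x = x := k2 x (by simp [h1, h2])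
    rw [this, this]

theorem cutV {Y : Set ℝ} (hY : Clo Y) {g : V} (hg : Mp g Y Y) :
    ∃ k : V, Sp Y k ∧ ∀ x ∈ Y, k x = g x := by
  obtain ⟨k, hk⟩ := glueF (ι := Fin 2) (fun _ => True) (toFinite _) ![Y, I \ Y]
    ![Y, I \ Y] ![g, 1]
    (fun i _ => by fin_cases i; exacts [hY, Clo.I.diff hY])
    (fun i _ => by fin_cases i; exacts [hg, Mp.one _])
    (fun i j x _ _ => by fin_cases i <;> fin_cases j <;> simp <;> tauto)
    (fun i j x _ _ => by fin_cases i <;> fin_cases j <;> simp <;> tauto)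
    (fun x hx => by simp [Fin.exists_fin_succ]; tauto)
    (fun x hx => by simp [Fin.exists_fin_succ]; tauto)
  refine ⟨k, fun x hx => ?_, hk 0 trivial⟩
  by_cases h : x ∈ I
  exacts [hk 1 trivial x ⟨h, hx⟩, vout k h]

end Pool.Agent.H.MP_3d8b4c_al
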