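import Pool.Agent.H.MP_3d8b4c_al.V1

open Filter Topology Set
open scoped commutatorElement

namespace Pool.Agent.H.MP_3d8b4c_al

def cs (C : ℕ × ℤ) : Set ℝ := cel C.1 C.2

noncomputable def sim (C E : ℕ × ℤ) (x : ℝ) : ℝ := (x * 2 ^ C.1 - C.2 + E.2) / 2 ^ E.1

theorem sim_mem {C E : ℕ × ℤ} {x : ℝ} : sim C E x ∈ cs E ↔ x ∈ cs C := by
  have hp : (2 : ℝ) ^ E.1 ≠ 0 := by positivity
  simp only [cs, cel, mem_setOf_eq, fl_eq, sim, div_mul_cancel₀ _ hp]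
  constructor <;> rintro ⟨h1, h2⟩ <;> constructor <;> linarith

theorem sim_sim (C E F : ℕ × ℤ) (x : ℝ) : sim E F (sim C E x) = sim C F x := by
  have hp : (2 : ℝ) ^ E.1 ≠ 0 := by positivity
  simp only [sim, div_mul_cancel₀ _ hp]; ring

theorem sim_self (C : ℕ × ℤ) (x : ℝ) : sim C C x = x := by
  simp only [sim]; field_simp; ring

theorem nest {C E : ℕ × ℤ} (h : C.1 ≤ E.1) {x : ℝ} (h1 : x ∈ cs C) (h2 : x ∈ cs E) :
    cs E ⊆ cs C := fun _ hy => (fl_lev h (hy.trans h2.symm)).trans h1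

theorem sim_sub (C E : ℕ × ℤ) {C' : ℕ × ℤ} (h : C.1 ≤ C'.1) :
    ∃ E', ∀ x, sim C E x = sim C' E' x := by
  obtain ⟨d, hd⟩ := Nat.exists_eq_add_of_le h
  refine ⟨(E.1 + d, C'.2 - C.2 * 2 ^ d + E.2 * 2 ^ d), fun x => ?_⟩
  simp only [sim, hd]
  push_cast
  field_simp; ring

theorem cs_eq {C E : ℕ × ℤ} (h : C.1 ≤ E.1) (h1 : cs C ⊆ cs E) : C = E := by
  obtain ⟨n, j⟩ := C
  obtain ⟨m, l⟩ := E
  have hp : (0 : ℝ) < 2 ^ n := by positivity
  have a1 : (j : ℝ) / 2 ^ n ∈ cs (n, j) := fl_eq.2 (by simp [div_mul_cancel₀ _ hp.ne'])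
  have a2 : ((j : ℝ) + 1 / 2) / 2 ^ n ∈ cs (n, j) :=
    fl_eq.2 (by simp only [div_mul_cancel₀ _ hp.ne']; constructor <;> linarith)
  rcases (show n ≤ m from h).eq_or_lt with rfl | h2
  · exact Prod.ext rfl (a1.symm.trans (h1 a1))
  · exfalso
    have b := fl_lev h2 ((h1 a1).trans (h1 a2).symm)
    have b1 : fl (n + 1) (j / 2 ^ n) = 2 * j := fl_eq.2 (by
      rw [pow_succ, ← mul_assoc, div_mul_cancel₀ _ hp.ne']; push_cast; constructor <;> linarith)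
    have b2 : fl (n + 1) ((j + 1 / 2) / 2 ^ n) = 2 * j + 1 := fl_eq.2 (by
      rw [pow_succ, ← mul_assoc, div_mul_cancel₀ _ hp.ne']; push_cast; constructor <;> linarith)
    rw [Nat.succ_eq_add_one, b1, b2] at b
    omega

theorem cs_ne (C : ℕ × ℤ) : (cs C).Nonempty := by
  have hp : (0 : ℝ) < 2 ^ C.1 := by positivity
  exact ⟨C.2 / 2 ^ C.1, fl_eq.2 (by simp [div_mul_cancel₀ _ hp.ne'])⟩

theorem swap_cs {C E : ℕ × ℤ} (hC : cs C ⊆ I) (hE : cs E ⊆ I) (d : ∀ x ∈ cs C, x ∉ cs E) :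
    ∃ ι : V, ι * ι = 1 ∧ Sp (cs C ∪ cs E) ι ∧ (∀ x ∈ cs C, ι x = sim C E x) ∧
      ∀ x ∈ cs E, ι x = sim E C x := by
  have hb : BijOn (sim C E) (cs C) (cs E) := ⟨fun x hx => sim_mem.2 hx,
    fun x _ y _ e => by rw [← sim_self C x, ← sim_sim C E C, e, sim_sim, sim_self],
    fun y hy => ⟨sim E C y, sim_mem.2 hy, by rw [sim_sim, sim_self]⟩⟩
  have hl : LA (sim C E) (cs C) :=
    (LA.aff ((Sl.pow C.1).mul (Sl.pow E.1).inv) (divp_mem (intCast_mem _ (E.2 - C.2)) E.1) _).congr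
      (cel_clo hC) fun x _ => by simp only [sim]; push_cast; field_simp; ring
  obtain ⟨g, h1, h2⟩ := extend (cel_clo hC) (cel_clo hE) hb hl
    ((cs_ne E).imp fun x h => ⟨hE h, fun h' => d x h' h⟩) ((cs_ne C).imp fun x h => ⟨hC h, d x h⟩)
  obtain ⟨ι, a1, a2, a3, a4⟩ := swap (cel_clo hC) (cel_clo hE) h1 d
  exact ⟨ι, a1, a2, fun x hx => by rw [a3 x hx, h2 x hx], fun x hx => by
    rw [a4 x hx]; exact vinv_eq (by rw [h2 _ (sim_mem.2 hx), sim_sim, sim_self])⟩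

def HI (Y : Set ℝ) : Subgroup V := Subgroup.closure {ι | ι * ι = 1 ∧ Sp Y ι}

structure St (s : Finset ℤ) (C E : ℤ → ℕ × ℤ) (Y : Set ℝ) (g : V) : Prop where
  h1 : ∀ i ∈ s, ∀ x ∈ cs (C i), g x = sim (C i) (E i) x
  h2 : ∀ x, (∀ i ∈ s, x ∉ cs (C i)) → g x = x
  h3 : ∀ i ∈ s, cs (C i) ⊆ Y
  h4 : ∀ i ∈ s, ∀ j ∈ s, ∀ x, x ∈ cs (C i) → x ∈ cs (C j) → i = j

section
variable {s : Finset ℤ} {C E : ℤ → ℕ × ℤ} {Y : Set ℝ} {g : V}

theorem St.inv_eq (h : St s C E Y g) {i : ℤ} (hi : i ∈ s) {y : ℝ} (hy : y ∈ cs (E i)) :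
    g⁻¹ y = sim (E i) (C i) y :=
  vinv_eq (by rw [h.h1 i hi _ (sim_mem.2 hy), sim_sim, sim_self])

theorem St.mp (h : St s C E Y g) {i : ℤ} (hi : i ∈ s) : Mp g (cs (C i)) (cs (E i)) := fun x =>
  ⟨fun hx => h.h1 i hi x hx ▸ sim_mem.2 hx, fun hx => by
    have := h.inv_eq hi hx
    rw [vinv] at this
    rw [this]; exact sim_mem.2 hx⟩

theorem St.symm (h : St s C E Y g) : St s E C Y g⁻¹ := by
  have hs : Sp Y g := fun x hx => h.h2 x fun i hi h' => hx (h.h3 i hi h')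
  refine ⟨fun i hi x hx => h.inv_eq hi hx, fun x hx => ?_, fun i hi x hx => ?_,
    fun i hi j hj x a b => h.h4 i hi j hj _ (((h.mp hi).inv x).1 a) (((h.mp hj).inv x).1 b)⟩
  · have := h.h2 (g⁻¹ x) fun i hi h' => hx i hi (((h.mp hi).inv x).2 h')
    rw [← this, vinv']
  · exact (hs.mp.inv x).2 (h.h3 i hi (((h.mp hi).inv x).1 hx))

theorem stepA (hY : Y ⊆ I) (h : St s C E Y g) {i : ℤ} (hi : i ∈ s)
    (hm : ∀ j ∈ s, (C i).1 ≤ (E j).1) (d : C i = E i ∨ ∀ x ∈ cs (C i), x ∉ cs (E i)) :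
    ∃ σ ∈ HI Y, ∃ E', St (s.erase i) C E' Y (σ * g) := by
  have sub := Finset.erase_subset i s
  rcases d with d | d
  · refine ⟨1, one_mem _, E, fun j hj => by simpa using h.h1 j (sub hj), fun x hx => ?_,
      fun j hj => h.h3 j (sub hj), fun j hj l hl => h.h4 j (sub hj) l (sub hl)⟩
    rw [one_mul]
    by_cases hx' : x ∈ cs (C i)
    · rw [h.h1 i hi x hx', d, sim_self]
    · refine h.h2 x fun j hj => ?_
      by_cases e : j = i
      exacts [e ▸ hx', hx j (Finset.mem_erase.2 ⟨e, hj⟩)]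
  obtain ⟨σ, a1, a2, a3, a4⟩ := swap_cs ((h.h3 i hi).trans hY) ((h.symm.h3 i hi).trans hY) d
  have key : ∀ j, ∃ E', j ∈ s.erase i → ∀ x ∈ cs (C j), (σ * g) x = sim (C j) E' x := by
    intro j
    by_cases hj : j ∈ s.erase i
    swap
    · exact ⟨C j, fun h => absurd h hj⟩
    by_cases e : ∃ y ∈ cs (C i), y ∈ cs (E j)
    · obtain ⟨y, y1, y2⟩ := e
      obtain ⟨E', hE⟩ := sim_sub (C i) (E i) (hm j (sub hj))
      exact ⟨E', fun _ x hx => by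
        rw [vmul, h.h1 j (sub hj) x hx, a3 _ (nest (hm j (sub hj)) y1 y2 (sim_mem.2 hx)), hE,
          sim_sim]⟩
    · refine ⟨E j, fun _ x hx => ?_⟩
      rw [vmul, h.h1 j (sub hj) x hx, a2]
      rintro (h' | h')
      · exact e ⟨_, h', sim_mem.2 hx⟩
      · exact (Finset.mem_erase.1 hj).1 (h.symm.h4 j (sub hj) i hi _ (sim_mem.2 hx) h')
  choose E' hE' using key
  refine ⟨σ, Subgroup.subset_closure ⟨a1, a2.mono (union_subset (h.h3 i hi) (h.symm.h3 i hi))⟩,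
    E', hE', fun x hx => ?_, fun j hj => h.h3 j (sub hj),
    fun j hj l hl => h.h4 j (sub hj) l (sub hl)⟩
  rw [vmul]
  by_cases hx' : x ∈ cs (C i)
  · rw [h.h1 i hi x hx', a4 _ (sim_mem.2 hx'), sim_sim, sim_self]
  · have e : g x = x := h.h2 x fun j hj => by
      by_cases e : j = i
      exacts [e ▸ hx', hx j (Finset.mem_erase.2 ⟨e, hj⟩)]
    rw [e, a2]
    rintro (h' | h')
    · exact hx' h'
    · exact hx' ((h.mp hi x).2 (e.symm ▸ h'))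

theorem stepB (hY : Y ⊆ I) (h : St s C E Y g) {i : ℤ} (hi : i ∈ s)
    (hm : ∀ j ∈ s, (C i).1 ≤ (E j).1) : ∃ σ ∈ HI Y, ∃ E', St (s.erase i) C E' Y (σ * g) := by
  classical
  by_cases d : C i = E i ∨ ∀ x ∈ cs (C i), x ∉ cs (E i)
  · exact stepA hY h hi hm d
  push Not at d
  obtain ⟨d1, z, z1, z2⟩ := d
  have n1 := nest (hm i hi) z1 z2
  obtain ⟨y, y1, y2⟩ := not_subset.1 fun h' => d1 (cs_eq (hm i hi) h')
  have x1 : g⁻¹ y ∉ cs (C i) := fun h' => y2 (((h.mp hi).inv y).2 h')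
  obtain ⟨j, hj, x2⟩ : ∃ j ∈ s, g⁻¹ y ∈ cs (E j) := by
    by_contra h'
    push Not at h'
    have := h.symm.h2 _ h'
    rw [vinj] at this
    exact x1 (this.symm ▸ y1)
  have d2 : ∀ x ∈ cs (C i), x ∉ cs (E j) := fun x a b => x1 (nest (hm j hj) a b x2)
  obtain ⟨σ, a1, a2, a3, a4⟩ := swap_cs ((h.symm.h3 i hi).trans hY) ((h.symm.h3 j hj).trans hY)
    fun x a => d2 x (n1 a)
  have hs : St s C (E ∘ Equiv.swap i j) Y (σ * g) := by
    refine ⟨fun l hl x hx => ?_, fun x hx => ?_, h.h3, h.h4⟩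
    · rw [vmul, h.h1 l hl x hx, Function.comp]
      by_cases e1 : l = i
      · subst e1; rw [a3 _ (sim_mem.2 hx), sim_sim, Equiv.swap_apply_left]
      by_cases e2 : l = j
      · subst e2; rw [a4 _ (sim_mem.2 hx), sim_sim, Equiv.swap_apply_right]
      rw [Equiv.swap_apply_of_ne_of_ne e1 e2, a2]
      rintro (h' | h')
      · exact e1 (h.symm.h4 l hl i hi _ (sim_mem.2 hx) h')
      · exact e2 (h.symm.h4 l hl j hj _ (sim_mem.2 hx) h')
    · have e := h.h2 x hx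
      rw [vmul, e, a2]
      rintro (h' | h')
      · exact hx i hi ((h.mp hi x).2 (e.symm ▸ h'))
      · exact hx j hj ((h.mp hj x).2 (e.symm ▸ h'))
  obtain ⟨τ, t1, E', t2⟩ := stepA hY hs hi (fun l hl => by
    by_cases e1 : l = i
    · subst e1; simpa using hm j hj
    by_cases e2 : l = j
    · subst e2; simpa using hm i hi
    simpa [Equiv.swap_apply_of_ne_of_ne e1 e2] using hm l hl) (Or.inr (by simpa using d2))
  exact ⟨τ * σ, mul_mem t1 (Subgroup.subset_closure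
    ⟨a1, a2.mono (union_subset (h.symm.h3 i hi) (h.symm.h3 j hj))⟩), E', by rwa [mul_assoc]⟩

end

theorem gen_aux {Y : Set ℝ} (hY : Y ⊆ I) (m : ℕ) :
    ∀ (s : Finset ℤ) C E g, s.card = m → St s C E Y g → g ∈ HI Y := by
  induction m with
  | zero =>
    intro s C E g hs h
    rw [Finset.card_eq_zero] at hs
    have : g = 1 := vext fun x => h.h2 x (by simp [hs])
    exact this ▸ one_mem _
  | succ m ih =>
    have key : ∀ (s : Finset ℤ) C E g, s.card = m + 1 → St s C E Y g → ∀ i ∈ s,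
        (∀ j ∈ s, (C i).1 ≤ (E j).1) → g ∈ HI Y := by
      intro s C E g hs h i hi hm
      obtain ⟨σ, h1, E', h2⟩ := stepB hY h hi hm
      have := ih _ _ _ _ (by rw [Finset.card_erase_of_mem hi, hs]; rfl) h2
      exact (mul_mem_cancel_left h1).1 this
    intro s C E g hs h
    have hn : s.Nonempty := Finset.card_pos.1 (by omega)
    obtain ⟨i, hi, a⟩ := s.exists_min_image (fun i => (C i).1) hn
    obtain ⟨j, hj, b⟩ := s.exists_min_image (fun i => (E i).1) hn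
    rcases le_total (C i).1 (E j).1 with e | e
    · exact key s C E g hs h i hi fun l hl => e.trans (b l hl)
    · exact inv_mem_iff.1 (key s E C g⁻¹ hs h.symm j hj fun l hl => e.trans (a l hl))

theorem aff_sim {s c : ℝ} (hs : Sl s) (hc : c ∈ D) :
    ∀ᶠ N in atTop, ∀ j, ∃ E, ∀ y, s * y + c = sim (N, j) E y := by
  obtain ⟨k, rfl⟩ := hs
  obtain ⟨m, e, rfl⟩ := hc
  filter_upwards [eventually_ge_atTop (k.natAbs + e)] with N hN j
  obtain ⟨p, hp⟩ : ∃ p : ℕ, (N : ℤ) = k + e + p := ⟨(N - k - e).toNat, by omega⟩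
  refine ⟨(e + p, j + m * 2 ^ p), fun y => ?_⟩
  have : (2 : ℝ) ^ N = 2 ^ k * 2 ^ e * 2 ^ p := by
    rw [← zpow_natCast, hp, zpow_add₀ two_ne_zero, zpow_add₀ two_ne_zero, zpow_natCast,
      zpow_natCast]
  simp only [sim, this]
  push_cast
  field_simp; ring

theorem gen {Y : Set ℝ} (hY : Clo Y) {g : V} (hg : Sp Y g) : g ∈ HI Y := by
  classical
  obtain ⟨N0, h0⟩ := (vla g).exists
  have h1 : ∀ᶠ N in atTop, ∀ x ∈ I, ∃ E, ∀ y, fl N y = fl N x → g y = sim (N, fl N x) E y := by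
    refine fin_ev N0 le_rfl _ fun x0 hx0 => ?_
    obtain ⟨s, c, a1, a2, a3⟩ := h0 x0 hx0
    filter_upwards [aff_sim a1 a2, eventually_ge_atTop N0] with N h2 h3 x _ e
    obtain ⟨E, hE⟩ := h2 (fl N x)
    exact ⟨E, fun y e' => by rw [a3 y ((fl_lev h3 e').trans e), hE]⟩
  obtain ⟨N, h2, h3⟩ := (h1.and hY.2).exists
  have h4 : ∀ j, ∃ E, (∃ x ∈ Y, fl N x = j) → ∀ y ∈ cs (N, j), g y = sim (N, j) E y := by
    intro j
    by_cases e : ∃ x ∈ Y, fl N x = j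
    · obtain ⟨x, hx, rfl⟩ := e
      obtain ⟨E, hE⟩ := h2 x (hY.1 hx)
      exact ⟨E, fun _ => hE⟩
    · exact ⟨(0, 0), fun h => absurd h e⟩
  choose E hE using h4
  refine gen_aux hY.1 _ ((Finset.Ico (0 : ℤ) (2 ^ N)).filter fun j => ∃ x ∈ Y, fl N x = j)
    (fun j => (N, j)) E g rfl ⟨fun j hj => hE j (Finset.mem_filter.1 hj).2,
      fun x hx => hg x fun h => hx (fl N x) (Finset.mem_filter.2 ⟨?_, x, h, rfl⟩) rfl,
      fun j hj y hy => ?_, fun i _ j _ x a b => a.symm.trans b⟩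
  · obtain ⟨h2, h3⟩ := hY.1 h
    have hp : (0 : ℝ) < 2 ^ N := by positivity
    rw [Finset.mem_Ico, fl, Int.floor_nonneg, Int.floor_lt]
    push_cast
    constructor <;> nlinarith
  · obtain ⟨x, hx, rfl⟩ := (Finset.mem_filter.1 hj).2
    exact h3 x y hy hx

theorem two_inv {Y A : Set ℝ} (hY : Clo Y) (hA : Clo A) (h1 : A ⊆ Y) (hn : A.Nonempty) (g : V)
    (h2 : ∀ x ∈ A, g x ∈ Y) {y : ℝ} (y1 : y ∈ Y) (y2 : y ∉ A) (y3 : g⁻¹ y ∉ A) :
    ∃ a b : V, a * a = 1 ∧ b * b = 1 ∧ Sp Y a ∧ Sp Y b ∧ ∀ x ∈ A, (a * b) x = g x := by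
  have hB := hA.pre g⁻¹
  have hE := hY.diff (hA.union hB)
  obtain ⟨φ, hφ⟩ := trans_d hA hE hn ⟨y, y1, by simp [y2, y3]⟩ fun x hx h => h.2 (Or.inl hx)
  obtain ⟨b, b1, b2, b3, -⟩ := swap hA hE hφ fun x hx h => h.2 (Or.inl hx)
  have hg : Mp g A {x | g⁻¹ x ∈ A} := fun x => by simp
  obtain ⟨a, a1, a2, a3, -⟩ := swap hE hB (hg.mul hφ.inv) fun x hx h => hx.2 (Or.inr h)
  refine ⟨a, b, a1, b1, a2.mono (union_subset diff_subset fun x hx => by simpa using h2 _ hx),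
    b2.mono (union_subset h1 diff_subset), fun x hx => ?_⟩
  rw [vmul, b3 x hx, a3 _ ((hφ x).1 hx), vmul, vinv]

theorem five {Y Y' : Set ℝ} (hY : Clo Y) (hY' : Clo Y') (h1 : Y' ⊆ Y) (h2 : (Y \ Y').Nonempty)
    {g : V} (hg : Sp Y' g) :
    ∃ l : List V, l.length = 5 ∧ (∀ ι ∈ l, ι * ι = 1 ∧ Sp Y ι) ∧ l.prod = g := by
  obtain ⟨E, c1, c2, c3, y, y1, y2⟩ := (hY.diff hY').split h2
  have hP := hY'.union c1
  have hPY : Y' ∪ E ⊆ Y := union_subset h1 fun x h => (c2 h).1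
  obtain ⟨φ, hφ⟩ := trans1 hP c1 (c3.mono subset_union_right) c3
    ⟨y, hY.1 y1.1, by simp [y1.2, y2]⟩ ⟨y, hY.1 y1.1, y2⟩
  obtain ⟨a, b, a1, b1, a2, b2, e⟩ := two_inv hY hP hPY (c3.mono subset_union_right) φ
    (fun x hx => (c2 ((hφ x).1 hx)).1) y1.1 (by simp [y1.2, y2]) fun h => y2 ((hφ.inv y).2 h)
  have hs : ∀ x ∈ Y' ∪ E, (a * b) x ∈ E := fun x hx => e x hx ▸ (hφ x).1 hx
  have d : ∀ x ∈ Y', x ∉ E := fun x h h' => (c2 h').2 h
  obtain ⟨s, hs'⟩ : ∃ s, s = a * b := ⟨_, rfl⟩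
  rw [← hs'] at hs
  have key : ∀ g ∈ HI Y', Sp Y' g ∧ ∃ A Z : V, Sp (Y' ∪ E) A ∧ Sp (Y' ∪ E) Z ∧ A * A = 1 ∧
      g = A * ⁅Z, s⁆ := by
    have one : ∀ c g : V, c * c = 1 → Sp Y' c → (Sp Y' g ∧ ∃ A Z : V, Sp (Y' ∪ E) A ∧
        Sp (Y' ∪ E) Z ∧ A * A = 1 ∧ g = A * ⁅Z, s⁆) → Sp Y' (c * g) ∧ ∃ A Z : V,
        Sp (Y' ∪ E) A ∧ Sp (Y' ∪ E) Z ∧ A * A = 1 ∧ c * g = A * ⁅Z, s⁆ := by
      rintro c g e1 e2 ⟨hg, A, Z, hA, hZ, e3, e4⟩
      have cA := hA.conj hs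
      have cZ := hZ.conj hs
      have e5 : s * g * s⁻¹ = s * A * s⁻¹ * ⁅s * Z * s⁻¹, s⁆ := by
        rw [e4]; simp only [commutatorElement_def]; group
      have e6 : s * A * s⁻¹ * (s * A * s⁻¹) = 1 := by
        calc _ = s * (A * A) * s⁻¹ := by group
          _ = 1 := by rw [e3]; group
      generalize s * A * s⁻¹ = A' at *
      generalize s * Z * s⁻¹ = Z' at *
      refine ⟨e2.mul hg, c * A', g * Z', (e2.mono subset_union_left).mul (cA.mono subset_union_right),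
        (hg.mono subset_union_left).mul (cZ.mono subset_union_right), ?_, ?_⟩
      · calc c * A' * (c * A') = c * (A' * c) * A' := by group
          _ = c * c * (A' * A') := by rw [← e2.comm cA d]; group
          _ = 1 := by rw [e1, e6, one_mul]
      · have e7 : ⁅g * Z', s⁆ = g * ⁅Z', s⁆ * (s * g * s⁻¹)⁻¹ := by
          simp only [commutatorElement_def]; group
        rw [e7, e5]
        calc c * g = c * (g * A') * A'⁻¹ := by group
          _ = _ := by rw [hg.comm cA d]; group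
    intro g hg
    induction hg using Subgroup.closure_induction_left with
    | one => exact ⟨Sp.one _, 1, 1, Sp.one _, Sp.one _, by simp, by simp⟩
    | mul_left c hc n _ ih => exact one c n hc.1 hc.2 ih
    | inv_mul_cancel c hc n _ ih =>
      rw [inv_eq_of_mul_eq_one_right hc.1]
      exact one c n hc.1 hc.2 ih
  obtain ⟨-, A, Z, hA, hZ, e3, e4⟩ := key g (gen hY' hg)
  have hZ' := hZ.mono hPY
  have cj : ∀ c : V, c * c = 1 → Sp Y c → Z * c * Z⁻¹ * (Z * c * Z⁻¹) = 1 ∧ Sp Y (Z * c * Z⁻¹) :=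
    fun c e1 e2 => ⟨by
      calc _ = Z * (c * c) * Z⁻¹ := by group
        _ = 1 := by rw [e1]; group, (hZ'.mul e2).mul hZ'.inv⟩
  refine ⟨[A, Z * a * Z⁻¹, Z * b * Z⁻¹, b, a], rfl, ?_, ?_⟩
  · simp only [List.mem_cons, List.not_mem_nil, or_false, forall_eq_or_imp, forall_eq]
    exact ⟨⟨e3, hA.mono hPY⟩, cj a a1 a2, cj b b1 b2, ⟨b1, b2⟩, a1, a2⟩
  · rw [e4, hs', commutatorElement_def, mul_inv_rev, inv_eq_of_mul_eq_one_right a1,
      inv_eq_of_mul_eq_one_right b1]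
    simp only [List.prod_cons, List.prod_nil]; group

theorem seven {Y : Set ℝ} (hY : Clo Y) (hn : Y.Nonempty) {g : V} (hg : Sp Y g) :
    ∃ l : List V, l.length = 7 ∧ (∀ ι ∈ l, ι * ι = 1 ∧ Sp Y ι) ∧ l.prod = g := by
  obtain ⟨y, hy⟩ := hn
  obtain ⟨x, hx, x1, x2⟩ := hY.other hy y (g⁻¹ y)
  obtain ⟨A, A1, A2, A3⟩ := sep (hY.1 hx) x1.symm
  obtain ⟨B, B1, B2, B3⟩ := sep (hY.1 hx) x2.symm
  have hC := hY.inter (A1.inter B1)
  obtain ⟨a, b, a1, b1, a2, b2, e⟩ := two_inv hY hC inter_subset_left ⟨x, hx, A2, B2⟩ g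
    (fun t ht => (hg.mp t).1 ht.1) hy (fun h => A3 h.2.1) (fun h => B3 h.2.2)
  obtain ⟨l, l1, l2, l3⟩ := five hY (hY.diff hC) diff_subset
    ⟨x, hx, fun h => h.2 ⟨hx, A2, B2⟩⟩ (g := (a * b)⁻¹ * g) (fun t ht => by
      by_cases h : t ∈ Y
      · rw [vmul]; exact vinv_eq (e t (by_contra fun h' => ht ⟨h, h'⟩))
      · exact ((a2.mul b2).inv.mul hg) t h)
  refine ⟨a :: b :: l, by simp [l1], ?_, by simp only [List.prod_cons, l3]; group⟩
  simp only [List.mem_cons, forall_eq_or_imp]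
  exact ⟨⟨a1, a2⟩, ⟨b1, b2⟩, l2⟩

end Pool.Agent.H.MP_3d8b4c_al
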