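import Pool.Agent.H.MP_3d8b4c_al.V2

open Filter Topology Set
open scoped commutatorElement

namespace Pool.Agent.H.MP_3d8b4c_al

theorem fl_conv {N : ℕ} {x y θ : ℝ} (h : fl N y = fl N x) (h0 : 0 ≤ θ) (h1 : θ ≤ 1) :
    fl N (x + θ * (y - x)) = fl N x := by
  obtain ⟨a1, a2⟩ := fl_eq.1 h
  obtain ⟨a3, a4⟩ := (fl_eq (n := N) (x := x)).1 rfl
  rw [fl_eq, show (x + θ * (y - x)) * 2 ^ N = (1 - θ) * (x * 2 ^ N) + θ * (y * 2 ^ N) by ring]
  generalize x * 2 ^ N = u at *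
  generalize y * 2 ^ N = v at *
  rcases le_total u v with e | e
  · constructor <;> nlinarith
  · constructor <;> nlinarith

theorem inv_clo {f : V} (hf : f * f = 1) : Clo {x | x < f x} := by
  have ff : ∀ x, f (f x) = x := fun x => by rw [← vmul, hf, vone]
  have sub : {x | x < f x} ⊆ I := fun x (h : x < f x) => by
    by_contra h'
    rw [vout f h'] at h
    exact lt_irrefl _ h
  refine ⟨sub, ?_⟩
  filter_upwards [vla f] with N hN x y e (h : x < f x)
  obtain ⟨s, c, a1, -, a3⟩ := hN x (sub h)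
  have hs := a1.pos
  by_contra h'
  have h2 : f y ≤ y := not_lt.1 h'
  have b1 := a3 x rfl
  have b2 := a3 y e
  obtain ⟨θ, t0, t1, t2⟩ : ∃ θ : ℝ, 0 ≤ θ ∧ θ ≤ 1 ∧ θ * ((f x - x) - (f y - y)) = f x - x :=
    ⟨(f x - x) / ((f x - x) - (f y - y)), div_nonneg (by linarith) (by linarith),
      (div_le_one (by linarith)).2 (by linarith), div_mul_cancel₀ _ (by linarith)⟩
  have z1 := fl_conv e t0 t1
  obtain ⟨z, hz⟩ : ∃ z, z = x + θ * (y - x) := ⟨_, rfl⟩
  rw [← hz] at z1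
  have z2 : s * z + c = z := by rw [b1, b2] at t2; rw [hz]; linarith
  have hx : x - z ≠ 0 := fun h0 => by rw [show x = z by linarith, a3 z z1, z2] at h; simp at h
  have key : ∀ w, fl N w = fl N x → fl N (f w) = fl N x → w - z ≠ 0 → s = 1 := by
    intro w w1 w2 w3
    have := ff w
    rw [a3 _ w2, a3 _ w1] at this
    have e1 : (s - 1) * ((s + 1) * (w - z)) = 0 := by
      have : c = z - s * z := by linarith
      subst this; linarith
    rcases mul_eq_zero.1 e1 with h | h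
    · linarith
    · exact absurd h (mul_ne_zero (by linarith) w3)
  have : s = 1 := by
    rcases le_total s 1 with e1 | e1
    · refine key x rfl ?_ hx
      rw [b1, show s * x + c = z + s * (x - z) by linarith, fl_conv z1.symm hs.le e1, z1]
    · have e2 := (fl_conv z1.symm (inv_nonneg.2 hs.le) (inv_le_one_of_one_le₀ e1)).trans z1
      refine key _ e2 ?_ (by simp [hs.ne', hx])
      rw [a3 _ e2]
      congr 1
      field_simp
      nlinarith
  rw [this] at z2 b1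
  linarith

theorem inv_mp {f : V} (hf : f * f = 1) : Mp f {x | x < f x} {x | f x < x} := fun x => by
  simp only [mem_setOf_eq]; rw [← vmul, hf, vone]

theorem inv_clo' {f : V} (hf : f * f = 1) : Clo {x | f x < x} := by
  have := (inv_clo hf).pre f
  simp only [mem_setOf_eq, ← vmul, hf, vone] at this
  exact this

theorem inv_ne {f : V} (hf : f * f = 1) (h : f ≠ 1) : {x | x < f x}.Nonempty := by
  by_contra h1
  refine h (vext fun x => ?_)
  rcases lt_trichotomy x (f x) with e | e | e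
  · exact absurd ⟨x, e⟩ h1
  · exact e.symm
  · exact absurd ⟨_, ((inv_mp hf).inv x).1 e⟩ h1

theorem inv_conj {S : Set ℝ} (hS : Clo S) {z τ : V} (z1 : z * z = 1) (t1 : τ * τ = 1)
    (z2 : Sp S z) (t2 : Sp S τ) (z3 : z ≠ 1) (t3 : τ ≠ 1) (z4 : ∃ x ∈ S, z x = x)
    (t4 : ∃ x ∈ S, τ x = x) : ∃ c, Sp S c ∧ c * z * c⁻¹ = τ := by
  have F : ∀ {z : V}, z * z = 1 → Clo {x | x ∈ S ∧ z x = x} := fun {z} h => by
    have := hS.diff ((inv_clo h).union (inv_clo' h))
    suffices e : S \ ({x | x < z x} ∪ {x | z x < x}) = {x | x ∈ S ∧ z x = x} from e ▸ this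
    ext x
    simp only [mem_diff, mem_union, mem_setOf_eq, not_or, not_lt]
    exact ⟨fun h => ⟨h.1, le_antisymm h.2.1 h.2.2⟩, fun h => ⟨h.1, h.2.le, h.2.ge⟩⟩
  have N1 : ∀ {z : V}, z * z = 1 → z ≠ 1 → (I \ {x | x < z x}).Nonempty := fun {z} h h' => by
    obtain ⟨x, hx⟩ := inv_ne h h'
    exact ⟨z x, (vI z).2 ((inv_clo h).1 hx), fun e => lt_asymm (a := z x) (b := z (z x)) e ((inv_mp h x).1 hx)⟩
  have N2 : ∀ {z : V}, z * z = 1 → z ≠ 1 → (I \ {x | x ∈ S ∧ z x = x}).Nonempty := fun {z} h h' =>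
    (inv_ne h h').imp fun x hx => ⟨(inv_clo h).1 hx, fun e => (ne_of_lt hx) e.2.symm⟩
  obtain ⟨φ, hφ⟩ := trans1 (inv_clo z1) (inv_clo t1) (inv_ne z1 z3) (inv_ne t1 t3) (N1 z1 z3)
    (N1 t1 t3)
  obtain ⟨ψ, hψ⟩ := trans1 (F z1) (F t1) z4 t4 (N2 z1 z3) (N2 t1 t3)
  have dis : ∀ {z : V}, Sp S z → ∀ (i j : Fin 4) (x : ℝ),
      x ∈ ![{x | x < z x}, {x | z x < x}, {x | x ∈ S ∧ z x = x}, I \ S] i →
      x ∈ ![{x | x < z x}, {x | z x < x}, {x | x ∈ S ∧ z x = x}, I \ S] j → i = j := by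
    intro z h i j x
    have := h x
    fin_cases i <;> fin_cases j <;> simp <;> grind
  have cov : ∀ {z : V}, ∀ x ∈ I, ∃ i : Fin 4, True ∧
      x ∈ ![{x | x < z x}, {x | z x < x}, {x | x ∈ S ∧ z x = x}, I \ S] i := by
    intro z x hx
    simp [Fin.exists_fin_succ]; grind
  have zi : z⁻¹ = z := inv_eq_of_mul_eq_one_right z1
  obtain ⟨c, hc⟩ := glueF (ι := Fin 4) (fun _ => True) (toFinite _) _ _ ![φ, τ * φ * z⁻¹, ψ, 1]
    (fun i _ => by fin_cases i; exacts [inv_clo z1, inv_clo' z1, F z1, Clo.I.diff hS])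
    (fun i _ => by
      fin_cases i; exacts [hφ, ((inv_mp t1).mul hφ).mul (inv_mp z1).inv, hψ, Mp.one _])
    (fun i j x _ _ => dis z2 i j x) (fun i j x _ _ => dis t2 i j x) cov cov
  have c0 : ∀ x, x < z x → c x = φ x := hc 0 trivial
  have c1 : ∀ x, z x < x → c x = τ (φ (z⁻¹ x)) := hc 1 trivial
  have c2 : ∀ x, x ∈ S ∧ z x = x → c x = ψ x := hc 2 trivial
  have c3 : Sp S c := fun x hx => by
    by_cases h : x ∈ I
    exacts [hc 3 trivial x ⟨h, hx⟩, vout c h]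
  refine ⟨c, c3, ?_⟩
  rw [mul_inv_eq_iff_eq_mul]
  refine vext fun x => ?_
  rw [vmul, vmul]
  rcases lt_trichotomy x (z x) with e | e | e
  · rw [c1 _ ((inv_mp z1 x).1 e), vinv, c0 x e]
  · by_cases h : x ∈ S
    · rw [← e, c2 x ⟨h, e.symm⟩, ((hψ x).1 ⟨h, e.symm⟩).2]
    · rw [← e, c3 x h, t2 x h]
  · rw [c1 x e, ← vmul τ τ, t1, vone, zi, c0 _ (by rwa [← vmul, z1, vone])]

theorem inv_comm {f : V} (hf : f * f = 1) : ∃ a b : V, f = ⁅a, b⁆ := by
  by_cases h : f = 1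
  · exact ⟨1, 1, by simp [h]⟩
  have fi : f⁻¹ = f := inv_eq_of_mul_eq_one_right hf
  have ff : ∀ x, f (f x) = x := fun x => by rw [← vmul, hf, vone]
  obtain ⟨A, A1, A2, ⟨p, A3⟩, q, A4⟩ := (inv_clo hf).split (inv_ne hf h)
  have key : ∀ A, Clo A → A ⊆ {x | x < f x} → ∃ ι : V, ι * ι = 1 ∧
      (∀ x, x ∉ A → f x ∉ A → ι x = x) ∧ ∀ x, x ∈ A ∨ f x ∈ A → ι x = f x := by
    intro A a1 a2
    obtain ⟨ι, b1, b2, b3, b4⟩ := swap a1 (a1.pre f) (g := f) (fun x => by simp [ff])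
      fun x hx h => by
        have e1 : x < f x := a2 hx
        have e2 : f x < f (f x) := a2 h
        rw [ff] at e2; linarith
    exact ⟨ι, b1, fun x c d => b2 x (by simp [c, d]), fun x hx => hx.elim (b3 x) fun e => by
      rw [b4 x e, fi]⟩
  obtain ⟨a, a1, a2, a3⟩ := key A A1 A2
  obtain ⟨b, b1, b2, b3⟩ := key _ ((inv_clo hf).diff A1) diff_subset
  have p0 : p < f p := A2 A3
  have q0 : q < f q := A4.1
  have n1 : ∀ x, x < f x → ¬ f x < f (f x) := fun x e => by rw [ff]; exact not_lt.2 e.le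
  obtain ⟨c, -, hc⟩ := inv_conj Clo.I a1 b1 (fun x hx => vout a hx) (fun x hx => vout b hx)
    (fun e => by have := a3 p (Or.inl A3); rw [e, vone] at this; linarith)
    (fun e => by have := b3 q (Or.inl A4); rw [e, vone] at this; linarith)
    ⟨q, (inv_clo hf).1 q0, a2 q A4.2 fun e => n1 q q0 (A2 e)⟩
    ⟨p, A1.1 A3, b2 p (fun e => e.2 A3) fun e => n1 p p0 e.1⟩
  refine ⟨c, a, ?_⟩
  rw [commutatorElement_def, hc, inv_eq_of_mul_eq_one_right a1]
  refine vext fun x => ?_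
  rw [vmul]
  by_cases h1 : x ∈ A
  · rw [a3 x (Or.inl h1), b2 _ (fun e => n1 x (A2 h1) e.1) (by rw [ff]; exact fun e => e.2 h1)]
  by_cases h2 : f x ∈ A
  · rw [a3 x (Or.inr h2), b2 _ (fun e => e.2 h2) (by rw [ff]; exact fun e => n1 x e.1 (A2 h2))]
  rw [a2 x h1 h2]
  rcases lt_trichotomy x (f x) with e | e | e
  · exact (b3 x (Or.inl ⟨e, h1⟩)).symm
  · rw [b2 x (fun h => (ne_of_lt h.1) e) (by rw [← e]; exact fun h => (ne_of_lt h.1) e), ← e]
  · exact (b3 x (Or.inr ⟨by show f x < f (f x); rwa [ff], h2⟩)).symm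

structure Part (L : ℕ → Set ℝ) (n : ℕ) : Prop where
  clo : ∀ i, i < n → Clo (L i)
  dis : ∀ i j x, i < n → j < n → x ∈ L i → x ∈ L j → i = j
  cov : ∀ x ∈ I, ∃ i, i < n ∧ x ∈ L i
  top : L n = L 0

def Tw (L : ℕ → Set ℝ) (n : ℕ) (r : V) : Prop := ∀ i, i < n → Mp r (L i) (L (i + 1))

theorem Tw.pow {L : ℕ → Set ℝ} {n : ℕ} {r : V} (h : Tw L n r) (i : ℕ) (hi : i ≤ n) :
    Mp (r ^ i) (L 0) (L i) := by
  induction i with
  | zero => exact Mp.one _
  | succ i ih => rw [pow_succ']; exact (h i hi).mul (ih (by omega))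

theorem tw_conj {L L' : ℕ → Set ℝ} {n : ℕ} {b r φ : V} (hL : Part L n) (hL' : Part L' n)
    (hb : Tw L n b) (hr : Tw L' n r) (b1 : ∀ x ∈ L 0, (b ^ n) x = x)
    (r1 : ∀ x ∈ L' 0, (r ^ n) x = x) (hφ : Mp φ (L 0) (L' 0)) : ∃ w : V, w * b = r * w := by
  obtain ⟨w, hw⟩ := glueF (fun i => i < n) (finite_lt_nat n) L L'
    (fun i => r ^ i * φ * (b ^ i)⁻¹) hL.clo
    (fun i hi => ((hr.pow i hi.le).mul hφ).mul (hb.pow i hi.le).inv) hL.dis hL'.dis hL.cov hL'.cov
  refine ⟨w, vextI fun x hx => ?_⟩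
  obtain ⟨i, hi, h⟩ := hL.cov x hx
  have h1 := (hb i hi x).1 h
  obtain ⟨y, rfl⟩ : ∃ y, (b ^ i) y = x := ⟨_, vinv' _ x⟩
  have h2 := (hb.pow i hi.le y).2 h
  rw [vmul, vmul, hw i hi _ h, ← vmul b, ← pow_succ']
  rw [← vmul b, ← pow_succ'] at h1
  rcases (Nat.succ_le_of_lt hi).eq_or_lt with e | e
  · rw [Nat.succ_eq_add_one] at e
    rw [e, b1 y h2, hw 0 (by omega) y h2]
    simp only [vmul, vinv, pow_zero, vone, inv_one]
    rw [← vmul, ← pow_succ', e, r1 _ ((hφ y).1 h2)]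
  · rw [hw _ e _ h1]
    simp only [vmul, vinv]
    rw [pow_succ', vmul]

theorem tw_mk {L : ℕ → Set ℝ} {m : ℕ} (hL : Part L (m + 1)) (g : ℕ → V)
    (hg : ∀ i, i < m → Mp (g i) (L i) (L (i + 1))) : ∃ b : V, Tw L (m + 1) b ∧
      (∀ i, i < m → ∀ x ∈ L i, b x = g i x) ∧ ∀ x ∈ L 0, (b ^ (m + 1)) x = x := by
  let cum : ℕ → V := fun i => Nat.rec 1 (fun i c => g i * c) i
  have hc : ∀ i, i ≤ m → Mp (cum i) (L 0) (L i) := fun i hi => by
    induction i with
    | zero => exact Mp.one _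
    | succ i ih => exact (hg i hi).mul (ih (by omega))
  have hg' : ∀ i, i < m + 1 → Mp (if i < m then g i else (cum m)⁻¹) (L i) (L (i + 1)) := by
    intro i hi
    split_ifs with h
    · exact hg i h
    · obtain rfl : i = m := by omega
      rw [hL.top]; exact (hc i le_rfl).inv
  have md : ∀ i, i < m + 1 → L (i + 1) = L ((i + 1) % (m + 1)) := fun i hi => by
    rcases (Nat.succ_le_of_lt hi).eq_or_lt with e | e
    · rw [Nat.succ_eq_add_one] at e; rw [e, Nat.mod_self, hL.top]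
    · rw [Nat.mod_eq_of_lt e]
  obtain ⟨b, hb⟩ := glueF (fun i => i < m + 1) (finite_lt_nat _) L (fun i => L (i + 1)) _ hL.clo hg'
    hL.dis (fun i j x hi hj a b => by
      rw [md i hi] at a
      rw [md j hj] at b
      have := hL.dis _ _ x (Nat.mod_lt _ (by omega)) (Nat.mod_lt _ (by omega)) a b
      exact Nat.ModEq.eq_of_lt_of_lt (Nat.ModEq.add_right_cancel' 1 this) hi hj) hL.cov
    (fun x hx => by
      obtain ⟨i, hi, h⟩ := hL.cov x hx
      rcases i with _ | i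
      · exact ⟨m, by omega, by rwa [hL.top]⟩
      · exact ⟨i, by omega, h⟩)
  have e : ∀ i, i < m → ∀ x ∈ L i, b x = g i x := fun i hi x hx => by
    rw [hb i (by omega) x hx, if_pos hi]
  have e2 : ∀ i, i ≤ m → ∀ x ∈ L 0, (b ^ i) x = cum i x := fun i hi x hx => by
    induction i with
    | zero => rfl
    | succ i ih =>
      rw [pow_succ', vmul, ih (by omega), e i hi _ ((hc i (by omega) x).1 hx)]; rfl
  refine ⟨b, fun i hi => (hg' i hi).congr (hb i hi), e, fun x hx => ?_⟩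
  rw [pow_succ', vmul, e2 m le_rfl x hx, hb m (by omega) _ ((hc m le_rfl x).1 hx),
    if_neg (lt_irrefl m), vinv]

theorem tw_twist {L : ℕ → Set ℝ} {n j : ℕ} {r y : V} (hL : Part L n) (hr : Tw L n r) (j0 : 0 < j)
    (j1 : j < n) (hy : Sp (L j) y) :
    Tw L n (y * r) ∧ ∀ x ∈ L 0, ((y * r) ^ n) x = (r ^ n) (((r ^ j)⁻¹ * y * r ^ j) x) := by
  have d : ∀ i, i ≤ n → i ≠ j → ∀ x ∈ L i, x ∉ L j := fun i hi e x a b => by
    rcases hi.eq_or_lt with rfl | hi
    · rw [hL.top] at a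
      exact j0.ne (hL.dis _ _ x (by omega) j1 a b)
    · exact e (hL.dis _ _ x hi j1 a b)
  have m : ∀ i, i ≤ n → Mp y (L i) (L i) := fun i hi => by
    by_cases e : i = j
    · exact e ▸ hy.mp
    · exact hy.mp_of (Or.inr fun x a b => d i hi e x b a)
  refine ⟨fun i hi => (m _ hi).mul (hr i hi), fun x hx => ?_⟩
  have k1 : ∀ i, i < j → ((y * r) ^ i) x = (r ^ i) x := fun i hi => by
    induction i with
    | zero => rfl
    | succ i ih =>
      rw [pow_succ', vmul, ih (by omega), vmul, ← vmul r, ← pow_succ',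
        hy _ (d _ (by omega) hi.ne _ ((hr.pow _ (by omega) x).1 hx))]
  have hx' : ((r ^ j)⁻¹ * y * r ^ j) x ∈ L 0 :=
    ((((hr.pow j j1.le).inv.mul hy.mp).mul (hr.pow j j1.le)) x).1 hx
  have k2 : ∀ i, j ≤ i → i ≤ n → ((y * r) ^ i) x = (r ^ i) (((r ^ j)⁻¹ * y * r ^ j) x) := by
    intro i hi
    induction i, hi using Nat.le_induction with
    | base =>
      intro _
      obtain ⟨i, rfl⟩ := Nat.exists_eq_add_one_of_ne_zero j0.ne'
      rw [pow_succ' (y * r), vmul, k1 i (by omega), vmul, ← vmul r, ← pow_succ']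
      simp
    | succ i hi ih =>
      intro h
      rw [pow_succ', vmul, ih (by omega), vmul y, ← vmul r, ← pow_succ',
        hy _ (d _ h (by omega) _ ((hr.pow _ h _).1 hx'))]
  exact k2 n j1.le le_rfl

theorem tw_list {L : ℕ → Set ℝ} {n : ℕ} (hL : Part L n) (l : List V) : ∀ r : V, Tw L n r →
    l.length < n → (∀ ι ∈ l, ι * ι = 1 ∧ Sp (L 0) ι) → ∃ z : V, z * z = 1 ∧
      Sp {x | ∃ i, 1 ≤ i ∧ i ≤ l.length ∧ x ∈ L i} z ∧ Tw L n (z * r) ∧
      (∀ x ∈ L 0, ((z * r) ^ n) x = (r ^ n) (l.prod x)) ∧ (z = 1 → ∀ ι ∈ l, ι = 1) := by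
  induction l with
  | nil => exact fun r hr _ _ => ⟨1, by simp, Sp.one _, by simpa using hr, by simp, by simp⟩
  | cons ι l ih =>
    intro r hr h1 h2
    rw [List.length_cons] at h1 ⊢
    obtain ⟨i1, i2⟩ := h2 ι (by simp)
    have hy : Sp (L (l.length + 1)) _ :=
      i2.conj (s := r ^ (l.length + 1)) fun x hx => (hr.pow _ h1.le x).1 hx
    obtain ⟨t1, t2⟩ := tw_twist hL hr (by omega) h1 hy
    rw [show ∀ a : V, a⁻¹ * (a * ι * a⁻¹) * a = ι from fun a => by group] at t2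
    obtain ⟨z, z1, z2, z3, z4, z5⟩ := ih _ t1 (by omega) fun ι h => h2 ι (by simp [h])
    have d : ∀ x ∈ {x | ∃ i, 1 ≤ i ∧ i ≤ l.length ∧ x ∈ L i}, x ∉ L (l.length + 1) := by
      rintro x ⟨i, a, b, c⟩ e
      have := hL.dis _ _ x (by omega) h1 c e
      omega
    have e1 : r ^ (l.length + 1) * ι * (r ^ (l.length + 1))⁻¹ = 1 → ι = 1 := by simp
    have e2 : r ^ (l.length + 1) * ι * (r ^ (l.length + 1))⁻¹ *
        (r ^ (l.length + 1) * ι * (r ^ (l.length + 1))⁻¹) = 1 := by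
      calc _ = r ^ (l.length + 1) * (ι * ι) * (r ^ (l.length + 1))⁻¹ := by group
        _ = 1 := by rw [i1]; group
    generalize r ^ (l.length + 1) * ι * (r ^ (l.length + 1))⁻¹ = y at *
    have hp : Sp (L 0) l.prod := by
      refine List.prod_induction (Sp (L 0)) (fun a b => Sp.mul) (Sp.one _) fun a h => ?_
      exact (h2 a (by simp [h])).2
    refine ⟨z * y, ?_, (z2.mono ?_).mul (hy.mono ?_), by rwa [mul_assoc], fun x hx => ?_,
      fun e => ?_⟩
    · calc z * y * (z * y) = z * (y * z) * y := by group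
        _ = z * z * (y * y) := by rw [← z2.comm hy d]; group
        _ = 1 := by rw [z1, e2, one_mul]
    · rintro x ⟨i, a, b, c⟩; exact ⟨i, a, by omega, c⟩
    · exact fun x hx => ⟨_, by omega, le_rfl, hx⟩
    · rw [mul_assoc, z4 x hx, t2 _ ((hp.mp x).1 hx), List.prod_cons, vmul]
    · have e3 : y = 1 := vext fun x => by
        by_cases h : x ∈ L (l.length + 1)
        · have := z2 _ fun h' => d _ h' ((hy.mp x).1 h)
          rwa [← vmul, e, eq_comm] at this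
        · exact hy x h
      rw [e3, mul_one] at e
      simp only [List.mem_cons, forall_eq_or_imp]
      exact ⟨e1 e3, z5 e⟩

end Pool.Agent.H.MP_3d8b4c_al
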