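import Pool.Agent.H.MP_3d8b4c_al.V3

open Filter Topology Set
open scoped commutatorElement

namespace Pool.Agent.H.MP_3d8b4c_al

def LC {α : Type} (a : ℝ → α) : Prop := ∀ᶠ N in atTop, ∀ x y, fl N y = fl N x → a y = a x

theorem LC.three {α β γ δ : Type} {a : ℝ → α} {b : ℝ → β} {c : ℝ → γ} (ha : LC a) (hb : LC b)
    (hc : LC c) (F : α → β → γ → δ) : LC fun x => F (a x) (b x) (c x) := by
  filter_upwards [ha, hb, hc] with N h1 h2 h3 x y e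
  rw [h1 x y e, h2 x y e, h3 x y e]

theorem LC.pre {α : Type} {a : ℝ → α} (ha : LC a) (g : V) : LC fun x => a (g x) := by
  obtain ⟨N, hN⟩ := ha.exists
  filter_upwards [(vla g).uc le_rfl N, eventually_ge_atTop N] with M h1 h2 x y e
  by_cases hx : x ∈ I
  · exact hN _ _ (h1 x hx y e)
  · rw [vout g hx, vout g fun h => hx (fl_I e.symm h)]; exact hN _ _ (fl_lev h2 e)

theorem Clo.lc {A : Set ℝ} (hA : Clo A) : LC fun x => x ∈ A := by
  filter_upwards [hA.2] with N h x y e using propext ⟨h y x e.symm, h x y e⟩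

theorem LC.clo {α : Type} {a : ℝ → α} (ha : LC a) {A : Set ℝ} (p : α → Prop)
    (h : ∀ x, x ∈ A ↔ x ∈ I ∧ p (a x)) : Clo A :=
  ⟨fun x hx => ((h x).1 hx).1, by
    filter_upwards [ha] with N hN x y e hx
    rw [h] at hx ⊢
    exact ⟨fl_I e hx.1, by rw [hN x y e]; exact hx.2⟩⟩

def lev (lab : ℝ → ℕ) (i : ℕ) : Set ℝ := {x | x ∈ I ∧ lab x = i % 27}

theorem part_lev {lab : ℝ → ℕ} (h : LC lab) (h' : ∀ x, lab x < 27) : Part (lev lab) 27 :=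
  ⟨fun i _ => h.clo (fun a => a = i % 27) fun _ => Iff.rfl,
    fun i j x _ _ a b => by have := a.2; have := b.2; omega,
    fun x hx => ⟨lab x, h' x, hx, by have := h' x; omega⟩, rfl⟩

theorem tw_lev {lab : ℝ → ℕ} (h' : ∀ x, lab x < 27) {r : V}
    (h : ∀ x ∈ I, lab (r x) = (lab x + 1) % 27) : Tw (lev lab) 27 r := fun i hi x => by
  simp only [lev, mem_setOf_eq, vI]
  refine and_congr_right fun hx => ?_
  have := h' x
  rw [h x hx]; omega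

theorem exists_ht {S : Set ℝ} (hS : Clo S) (hn : S.Nonempty) (hp : (I \ S).Nonempty) :
    ∃ (ht : ℝ → ℕ) (ρ : V), LC ht ∧ (∀ x, ht x < 26 → x ∈ S) ∧ (∃ x ∈ S, 26 ≤ ht x) ∧
      (∀ i, i < 26 → ∃ x, ht x = i) ∧ ∀ i, i < 25 → ∀ x, ht x = i ↔ ht (ρ x) = i + 1 := by
  obtain ⟨B, B1, B2, ⟨p, B3⟩, B4⟩ := hS.split hn
  obtain ⟨ρ, hρ⟩ := trans1 hS (hS.diff B1) hn B4 hp ⟨p, B1.1 B3, fun h => h.2 B3⟩
  let P : ℕ → Set ℝ := fun i => {x | (ρ ^ i)⁻¹ x ∈ S}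
  have P0 : ∀ i x, ρ x ∈ P (i + 1) ↔ x ∈ P i := fun i x => by
    simp only [P, mem_setOf_eq, pow_succ', mul_inv_rev, vmul, vinv]
  have P1 : Antitone P := antitone_nat_of_succ_le fun i x (h : (ρ ^ (i + 1))⁻¹ x ∈ S) => by
    rw [pow_succ, mul_inv_rev, vmul] at h
    exact ((hρ.inv _).2 h).1
  have P2 : P 0 = S := by ext x; simp [P]
  have key : ∀ x, ∃ h, h ≤ 26 ∧ ∀ i, i < 26 → (h = i ↔ x ∈ P i ∧ x ∉ P (i + 1)) := fun x => by
    by_cases e : ∃ i, i < 26 ∧ x ∈ P i ∧ x ∉ P (i + 1)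
    · obtain ⟨j, a, b, c⟩ := e
      refine ⟨j, a.le, fun i _ => ⟨fun e => e ▸ ⟨b, c⟩, fun ⟨d, e⟩ => ?_⟩⟩
      rcases lt_trichotomy i j with h | h | h
      exacts [absurd (P1 h b) e, h.symm, absurd (P1 h d) c]
    · exact ⟨26, le_rfl, fun i hi => ⟨fun e => by omega, fun h => absurd ⟨i, hi, h⟩ e⟩⟩
  choose ht h1 h2 using key
  refine ⟨ht, ρ, ?_, fun x h => P2 ▸ P1 (Nat.zero_le _) ((h2 x _ h).1 rfl).1, ?_, fun i hi => ?_,
    fun i hi x => by rw [h2 x i (by omega), h2 _ (i + 1) (by omega), P0, P0]⟩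
  · have : ∀ i ∈ Finset.range 27, LC fun x => x ∈ P i := fun i _ => (hS.pre _).lc
    filter_upwards [(eventually_all_finset _).2 this] with N hN x y e
    have k : ∀ i, i < 26 → (ht y = i ↔ ht x = i) := fun i hi => by
      rw [h2 y i hi, h2 x i hi, hN i (by simp; omega) x y e, hN (i + 1) (by simp; omega) x y e]
    have := h1 x
    have := h1 y
    have := k (ht x)
    have := k (ht y)
    omega
  · obtain ⟨x, hx⟩ := hn
    have : (ρ ^ 26) x ∈ P 26 := by simpa [P] using hx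
    refine ⟨_, P2 ▸ P1 (Nat.zero_le _) this, not_lt.1 fun h => ?_⟩
    exact ((h2 _ _ h).1 rfl).2 (P1 h this)
  · refine ⟨(ρ ^ i) p, (h2 _ i hi).2 ⟨by simpa [P] using B2 B3, fun h => ?_⟩⟩
    simp only [P, mem_setOf_eq, pow_succ, mul_inv_rev, vmul, vinv] at h
    exact ((hρ.inv _).2 h).2 B3

theorem trans2 {A A' B B' : Set ℝ} (hA : Clo A) (hA' : Clo A') (hB : Clo B) (hB' : Clo B')
    (n1 : A.Nonempty) (n2 : A'.Nonempty) (n3 : B.Nonempty) (n4 : B'.Nonempty)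
    (d1 : ∀ x ∈ A, x ∉ A') (d2 : ∀ x ∈ B, x ∉ B') (m1 : (I \ (A ∪ A')).Nonempty)
    (m2 : (I \ (B ∪ B')).Nonempty) : ∃ g : V, Mp g A B ∧ Mp g A' B' := by
  obtain ⟨g1, h1⟩ := trans1 hA hB n1 n3 (m1.imp fun x h => ⟨h.1, fun e => h.2 (Or.inl e)⟩)
    (m2.imp fun x h => ⟨h.1, fun e => h.2 (Or.inl e)⟩)
  obtain ⟨g2, h2⟩ := trans1 hA' hB' n2 n4 (m1.imp fun x h => ⟨h.1, fun e => h.2 (Or.inr e)⟩)
    (m2.imp fun x h => ⟨h.1, fun e => h.2 (Or.inr e)⟩)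
  obtain ⟨g3, h3⟩ := trans1 (Clo.I.diff (hA.union hA')) (Clo.I.diff (hB.union hB')) m1 m2
    (n1.imp fun x h => ⟨hA.1 h, fun e => e.2 (Or.inl h)⟩)
    (n3.imp fun x h => ⟨hB.1 h, fun e => e.2 (Or.inl h)⟩)
  obtain ⟨k, hk⟩ := glueF (ι := Fin 3) (fun _ => True) (toFinite _) ![A, A', I \ (A ∪ A')]
    ![B, B', I \ (B ∪ B')] ![g1, g2, g3]
    (fun i _ => by fin_cases i; exacts [hA, hA', Clo.I.diff (hA.union hA')])
    (fun i _ => by fin_cases i; exacts [h1, h2, h3])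
    (fun i j x _ _ => by have := d1 x; fin_cases i <;> fin_cases j <;> simp <;> tauto)
    (fun i j x _ _ => by have := d2 x; fin_cases i <;> fin_cases j <;> simp <;> tauto)
    (fun x hx => by simp [Fin.exists_fin_succ]; tauto)
    (fun x hx => by simp [Fin.exists_fin_succ]; tauto)
  exact ⟨k, h1.congr (hk 0 trivial), h2.congr (hk 1 trivial)⟩

theorem exists_inv {A : Set ℝ} (hA : Clo A) (hn : A.Nonempty) :
    ∃ τ : V, τ * τ = 1 ∧ Sp A τ ∧ τ ≠ 1 := by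
  obtain ⟨B, B1, B2, ⟨p, B3⟩, B4⟩ := hA.split hn
  obtain ⟨g, hg⟩ := trans_d B1 (hA.diff B1) ⟨p, B3⟩ B4 fun x a b => b.2 a
  obtain ⟨τ, a1, a2, a3, -⟩ := swap B1 (hA.diff B1) hg fun x a b => b.2 a
  refine ⟨τ, a1, a2.mono (union_subset B2 diff_subset), fun e => ?_⟩
  have := (hg p).1 B3
  rw [← a3 p B3, e] at this
  exact this.2 B3

open Classical in
noncomputable def labF (a b : ℕ) (y : Prop) : ℕ :=
  if a < 26 then (if a ≤ 10 then 2 * a else if a ≤ 24 then 22 else 24) else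
  if b < 26 then (if b ≤ 9 then 2 * b + 1 else if b ≤ 23 then 21 else if y then 23 else 25) else 26

theorem labF_spec (a b : ℕ) (y : Prop) : (a ≤ 10 ∧ labF a b y = 2 * a) ∨
    (11 ≤ a ∧ a ≤ 24 ∧ labF a b y = 22) ∨ (a = 25 ∧ labF a b y = 24) ∨ (26 ≤ a ∧
    ((b ≤ 9 ∧ labF a b y = 2 * b + 1) ∨ (10 ≤ b ∧ b ≤ 23 ∧ labF a b y = 21) ∨
    (24 ≤ b ∧ b < 26 ∧ y ∧ labF a b y = 23) ∨ (24 ≤ b ∧ b < 26 ∧ ¬ y ∧ labF a b y = 25) ∨
    (26 ≤ b ∧ labF a b y = 26))) := by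
  unfold labF
  split_ifs <;> simp [*] <;> omega

theorem exists_b {f ρ : V} {ht : ℝ → ℕ} {Y : Set ℝ} (lc : LC ht) (hI : ∀ x, ht x < 26 → x ∈ I)
    (h1 : ∀ x, ht x < 26 → 26 ≤ ht (f x)) (h2 : ∀ x, ht x < 26 → 26 ≤ ht (f (f x)))
    (h3 : ∃ x ∈ I, 26 ≤ ht x ∧ 26 ≤ ht (f⁻¹ x) ∧ 26 ≤ ht (f x)) (h4 : ∀ i, i < 26 → ∃ x, ht x = i)
    (h5 : ∀ i, i < 25 → ∀ x, ht x = i ↔ ht (ρ x) = i + 1) (y1 : Clo Y) (y2 : ∀ x ∈ Y, ht x = 24)
    (y3 : Y.Nonempty) (y4 : ∃ x, ht x = 24 ∧ x ∉ Y) :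
    ∃ (b : V) (L : ℕ → Set ℝ), Part L 27 ∧ Tw L 27 b ∧ (∀ x ∈ L 0, (b ^ 27) x = x) ∧
      (∀ x, x ∈ L 0 ↔ ht x = 0) ∧ (∀ x, ht x ≤ 9 → b x = f x) ∧ (∀ x, ht x ≤ 23 → b (f x) = ρ x) ∧
      (∀ x ∈ Y, ht (b (f x)) = 25) ∧ (∀ x, ht x = 24 → x ∉ Y → ht (f (b (f x))) < 26) ∧
      (∀ x, ht x = 25 → 26 ≤ ht (b (f x)) ∧ 26 ≤ ht (f (b (f x)))) ∧
      (∀ x, ht x < 26 → ht (f⁻¹ (b x)) < 26) ∧
      ∀ x ∈ I, 26 ≤ ht x → 26 ≤ ht (f x) → ht (b (f x)) = 0 := by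
  let lab : ℝ → ℕ := fun x => labF (ht x) (ht (f⁻¹ x)) (f⁻¹ x ∈ Y)
  have sp : ∀ x, _ := fun x => labF_spec (ht x) (ht (f⁻¹ x)) (f⁻¹ x ∈ Y)
  have hL : Part (lev lab) 27 := part_lev (lc.three (lc.pre _) (y1.lc.pre _) _) fun x => by
    have := sp x; simp only [lab]; omega
  have mem : ∀ i x, x ∈ lev lab i ↔ x ∈ I ∧ labF (ht x) (ht (f⁻¹ x)) (f⁻¹ x ∈ Y) = i % 27 :=
    fun _ _ => Iff.rfl
  have hI' : ∀ x, ht (f⁻¹ x) < 26 → x ∈ I := fun x h => (vI _).1 (hI _ h)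
  have h1' : ∀ x, ht (f⁻¹ x) < 26 → 26 ≤ ht x := fun x h => by simpa using h1 _ h
  have E1 : ∀ j, j ≤ 10 → ∀ x, x ∈ lev lab (2 * j) ↔ ht x = j := fun j hj x => by
    have := sp x; have := hI x; rw [mem]; grind
  have E2 : ∀ x, x ∈ lev lab 22 ↔ 11 ≤ ht x ∧ ht x ≤ 24 := fun x => by
    have := sp x; have := hI x; rw [mem]; grind
  have E3 : ∀ x, x ∈ lev lab 24 ↔ ht x = 25 := fun x => by
    have := sp x; have := hI x; rw [mem]; grind
  have E4 : ∀ x, x ∈ lev lab 26 ↔ x ∈ I ∧ 26 ≤ ht x ∧ 26 ≤ ht (f⁻¹ x) := fun x => by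
    have := sp x; rw [mem]; grind
  have O1 : ∀ j, j ≤ 9 → ∀ x, x ∈ lev lab (2 * j + 1) ↔ ht (f⁻¹ x) = j := fun j hj x => by
    have := sp x; have := hI' x; have := h1' x; rw [mem]; grind
  have O2 : ∀ x, x ∈ lev lab 21 ↔ 10 ≤ ht (f⁻¹ x) ∧ ht (f⁻¹ x) ≤ 23 := fun x => by
    have := sp x; have := hI' x; have := h1' x; rw [mem]; grind
  have O3 : ∀ x, x ∈ lev lab 23 ↔ f⁻¹ x ∈ Y := fun x => by
    have := sp x; have := hI' x; have := h1' x; have := y2 (f⁻¹ x); rw [mem]; grind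
  have O4 : ∀ x, x ∈ lev lab 25 ↔ x ∈ {x | ht (f⁻¹ x) = 24 ∧ f⁻¹ x ∉ Y} ∪ {x | ht (f⁻¹ x) = 25} :=
    fun x => by
      have := sp x; have := hI' x; have := h1' x; have := y2 (f⁻¹ x); rw [mem]
      simp only [mem_union, mem_setOf_eq]; grind
  have E5 : ∀ x, x ∈ lev lab 26 ↔ x ∈ {x | ht (f x) < 26} ∪
      {x | x ∈ I ∧ 26 ≤ ht x ∧ 26 ≤ ht (f⁻¹ x) ∧ 26 ≤ ht (f x)} := fun x => by
    have a := h1 x
    have b := h2 (f⁻¹ x)
    have c := hI (f x)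
    rw [vinv'] at b
    rw [vI] at c
    rw [E4]; simp only [mem_union, mem_setOf_eq]; grind
  obtain ⟨p0, hp0⟩ := h4 0 (by omega)
  obtain ⟨p10, hp10⟩ := h4 10 (by omega)
  obtain ⟨p11, hp11⟩ := h4 11 (by omega)
  obtain ⟨p25, hp25⟩ := h4 25 (by omega)
  obtain ⟨q1, hq1⟩ := y3
  obtain ⟨q2, hq2⟩ := y4
  obtain ⟨g25, a25, b25⟩ := trans2 (A := {x | ht (f⁻¹ x) = 24 ∧ f⁻¹ x ∉ Y})
    (A' := {x | ht (f⁻¹ x) = 25}) (B := {x | ht (f x) < 26})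
    (B' := {x | x ∈ I ∧ 26 ≤ ht x ∧ 26 ≤ ht (f⁻¹ x) ∧ 26 ≤ ht (f x)})
    ((lc.three y1.lc lc (fun a y _ => a = 24 ∧ ¬ y)).pre f⁻¹ |>.clo id fun x => by
      have := hI' x; simp only [mem_setOf_eq, id]; grind)
    ((lc.pre f⁻¹).clo (· = 25) fun x => by have := hI' x; simp only [mem_setOf_eq]; grind)
    ((lc.pre f).clo (· < 26) fun x => by
      have := hI (f x); rw [vI] at this; simp only [mem_setOf_eq]; grind)
    ((lc.three (lc.pre f⁻¹) (lc.pre f) (fun a b c => 26 ≤ a ∧ 26 ≤ b ∧ 26 ≤ c)).clo id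
      fun x => Iff.rfl)
    ⟨f q2, by simpa using hq2⟩ ⟨f p25, by simpa using hp25⟩ ⟨f⁻¹ p0, by simp [hp0]⟩ h3
    (fun x a b => by simp only [mem_setOf_eq] at a b; omega)
    (fun x a b => by simp only [mem_setOf_eq] at a b; omega)
    ⟨p0, hI _ (by omega), by have := h1' p0; simp only [mem_union, mem_setOf_eq]; omega⟩
    ⟨p0, hI _ (by omega), by have := h1 p0; simp only [mem_union, mem_setOf_eq]; omega⟩
  have td : ∀ i, i < 26 → (lev lab i).Nonempty → (lev lab (i + 1)).Nonempty →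
      ∃ g : V, Mp g (lev lab i) (lev lab (i + 1)) := fun i hi a b =>
    trans_d (hL.clo _ (by omega)) (hL.clo _ (by omega)) a b fun x c d => by
      have := hL.dis _ _ x (by omega) (by omega) c d; omega
  have n20 : (lev lab 20).Nonempty := ⟨p10, (E1 10 le_rfl _).2 hp10⟩
  have n21 : (lev lab 21).Nonempty := ⟨f p10, (O2 _).2 (by simp [hp10])⟩
  have n22 : (lev lab 22).Nonempty := ⟨p11, (E2 _).2 (by omega)⟩
  have n23 : (lev lab 23).Nonempty := ⟨f q1, (O3 _).2 (by simpa using hq1)⟩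
  have n24 : (lev lab 24).Nonempty := ⟨p25, (E3 _).2 hp25⟩
  have n25 : (lev lab 25).Nonempty := ⟨f p25, (O4 _).2 (Or.inr (by simpa using hp25))⟩
  have key : ∀ i, ∃ g : V, (i < 26 → Mp g (lev lab i) (lev lab (i + 1))) ∧
      (∀ j, j ≤ 9 → i = 2 * j → g = f) ∧ (∀ j, j ≤ 10 → i = 2 * j + 1 → g = ρ * f⁻¹) ∧
      (i = 25 → g = g25) := by
    intro i
    by_cases c1 : ∃ j, j ≤ 9 ∧ i = 2 * j
    · obtain ⟨j, hj, rfl⟩ := c1
      exact ⟨f, fun _ x => by rw [E1 j (by omega), O1 j hj, vinv], fun _ _ _ => rfl,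
        fun _ _ _ => by omega, fun _ => by omega⟩
    by_cases c2 : ∃ j, j ≤ 10 ∧ i = 2 * j + 1
    · obtain ⟨j, hj, rfl⟩ := c2
      refine ⟨ρ * f⁻¹, fun _ x => ?_, fun _ _ _ => by omega, fun _ _ _ => rfl, fun _ => by omega⟩
      rcases hj.eq_or_lt with rfl | hj
      · rw [O2, E2, vmul]
        have := h5 (ht (f⁻¹ x))
        have := h5 (ht (ρ (f⁻¹ x)) - 1)
        grind
      · rw [O1 j (by omega), show 2 * j + 1 + 1 = 2 * (j + 1) by ring, E1 _ (by omega), vmul,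
          h5 j (by omega)]
    by_cases c3 : i = 25
    · subst c3
      exact ⟨g25, fun _ x => by rw [O4, E5]; exact (a25.union b25) x, fun _ _ _ => by omega,
        fun _ _ _ => by omega, fun _ => rfl⟩
    by_cases c4 : i < 26
    · have : ∃ g : V, Mp g (lev lab i) (lev lab (i + 1)) := by
        have : i = 20 ∨ i = 22 ∨ i = 23 ∨ i = 24 := by
          have := not_exists.1 c1 (i / 2)
          have := not_exists.1 c2 (i / 2)
          omega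
        rcases this with rfl | rfl | rfl | rfl
        exacts [td _ c4 n20 n21, td _ c4 n22 n23, td _ c4 n23 n24, td _ c4 n24 n25]
      obtain ⟨g, hg⟩ := this
      exact ⟨g, fun _ => hg, fun j a b => absurd ⟨j, a, b⟩ c1, fun j a b => absurd ⟨j, a, b⟩ c2,
        fun h => absurd h c3⟩
    · exact ⟨1, fun h => absurd h c4, fun j a b => absurd ⟨j, a, b⟩ c1,
        fun j a b => absurd ⟨j, a, b⟩ c2, fun h => absurd h c3⟩
  choose g g1 g2 g3 g4 using key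
  obtain ⟨b, b1, b2, b3⟩ := tw_mk hL g g1
  refine ⟨b, _, hL, b1, b3, E1 0 (by omega), fun x h => ?_, fun x h => ?_, fun x h => ?_,
    fun x h h' => ?_, fun x h => ?_, fun x h => ?_, fun x h c d => ?_⟩
  · rw [b2 _ (by omega) x ((E1 _ (by omega) x).2 rfl), g2 _ _ h rfl]
  · rcases le_or_gt (ht x) 9 with e | e
    · rw [b2 _ (by omega) _ ((O1 _ e _).2 (by rw [vinv])), g3 _ (ht x) (by omega) rfl, vmul, vinv]
    · rw [b2 _ (by omega) _ ((O2 _).2 (by rw [vinv]; omega)), g3 _ 10 le_rfl rfl, vmul, vinv]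
  · exact (E3 _).1 ((b1 23 (by omega) _).1 ((O3 _).2 (by simpa using h)))
  · rw [b2 25 (by omega) _ ((O4 _).2 (Or.inl (by simp [h, h']))), g4 _ rfl]
    exact (a25 _).1 (by simp [h, h'])
  · rw [b2 25 (by omega) _ ((O4 _).2 (Or.inr (by simp [h]))), g4 _ rfl]
    have := (b25 (f x)).1 (by simp [h])
    exact ⟨this.2.1, this.2.2.2⟩
  · have a := sp x
    have c := (b1 (lab x) (by simp only [lab]; omega) x).1 ⟨hI x h, by simp only [lab]; omega⟩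
    have d := sp (b x)
    rw [mem] at c
    simp only [lab] at c
    omega
  · have := (b1 26 (by omega) _).1 ((E4 (f x)).2 ⟨(vI f).2 h, d, by rwa [vinv]⟩)
    rw [hL.top] at this
    exact (E1 0 (by omega) _).1 this

theorem comm_of_S {f : V} {S : Set ℝ} (hS : Clo S) (hn : S.Nonempty) (s1 : ∀ x ∈ S, f x ∉ S)
    (s2 : ∀ x ∈ S, f (f x) ∉ S) : ∃ a b : V, f = ⁅a, b⁆ := by
  obtain ⟨ht, ρ, lc, h0, ⟨x0, x1, x2⟩, h4, h5⟩ := exists_ht hS hn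
    (by obtain ⟨x, hx⟩ := hn; exact ⟨f x, (vI f).2 (hS.1 hx), s1 x hx⟩)
  have hI : ∀ x, ht x < 26 → x ∈ I := fun x h => hS.1 (h0 x h)
  have h1 : ∀ x, ht x < 26 → 26 ≤ ht (f x) := fun x h => not_lt.1 fun e => s1 x (h0 x h) (h0 _ e)
  have h2 : ∀ x, ht x < 26 → 26 ≤ ht (f (f x)) := fun x h =>
    not_lt.1 fun e => s2 x (h0 x h) (h0 _ e)
  have cl : ∀ p : ℕ → Prop, (∀ i, p i → i < 26) → Clo {x | p (ht x)} := fun p hp =>
    lc.clo p fun x => ⟨fun h => ⟨hI x (hp _ h), h⟩, fun h => h.2⟩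
  obtain ⟨Y, y1, y2, y3, y4⟩ := (cl (· = 24) (by omega)).split (h4 24 (by omega))
  obtain ⟨b, L, hL, hb, b0, L0, b1, b2, b3, b4, b5, b6, b7⟩ := exists_b lc hI h1 h2
    ⟨x0, hS.1 x1, x2, not_lt.1 fun e => s1 _ (h0 _ e) (by rwa [vinv']),
      not_lt.1 fun e => s1 _ x1 (h0 _ e)⟩ h4 h5 y1 y2 y3 y4
  obtain ⟨τ, t1, t2, t3⟩ := exists_inv (cl (· = 1) (by omega)) (h4 1 (by omega))
  have t4 : ∀ x, ht (τ x) = ht x := fun x => by
    by_cases h : ht x = 1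
    · rw [h]; exact (t2.mp x).1 h
    · rw [t2 x h]
  let lab : ℝ → ℕ := fun x => if ht x < 26 then ht x else if ht (f x) < 26 then 25 else 26
  have sp : ∀ x, (ht x < 26 ∧ lab x = ht x) ∨ (26 ≤ ht x ∧ ht (f x) < 26 ∧ lab x = 25) ∨
      (26 ≤ ht x ∧ 26 ≤ ht (f x) ∧ lab x = 26) := fun x => by
    simp only [lab]; split_ifs <;> omega
  have l27 : ∀ x, lab x < 27 := fun x => by have := sp x; omega
  have hL' : Part (lev lab) 27 := part_lev (lc.three (lc.pre f) lc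
    fun a b _ => if a < 26 then a else if b < 26 then 25 else 26) l27
  have mem : ∀ i, i < 25 → ∀ x, x ∈ lev lab i ↔ ht x = i := fun i hi x => by
    have := sp x; have := hI x; simp only [lev, mem_setOf_eq]; grind
  have hr : Tw (lev lab) 27 (b * τ * f) := tw_lev l27 fun x hx => by
    rw [vmul, vmul]
    have a := sp x
    by_cases c : ht (f x) < 26
    · have e1 := b6 (τ (f x)) (by rwa [t4])
      have e2 := h1 _ e1
      have e3 := h2 _ e1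
      rw [vinv'] at e2 e3
      have := sp (b (τ (f x)))
      have := h1 x
      omega
    rw [t2 _ (by simp only [mem_setOf_eq]; omega)]
    have := sp (b (f x))
    by_cases c1 : ht x ≤ 23
    · have := (h5 _ (by omega) x).1 rfl
      rw [← b2 x c1] at this
      omega
    by_cases c2 : ht x = 24
    · by_cases c3 : x ∈ Y
      · have := b3 x c3; omega
      · have := b4 x c2 c3
        have := h1 (b (f x))
        omega
    by_cases c3 : ht x = 25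
    · have := b5 x c3; omega
    · have := b7 x hx (by omega) (by omega); omega
  have c0 := hL'.clo 0 (by omega)
  have n0 : (lev lab 0).Nonempty := (h4 0 (by omega)).imp fun x h => (mem 0 (by omega) x).2 h
  obtain ⟨θ, θ1, θ2⟩ := cutV c0 (hL'.top ▸ hr.pow 27 le_rfl)
  obtain ⟨l, l1, l2, l3⟩ := seven c0 n0 θ1.inv
  obtain ⟨ι, i1, i2, i3⟩ := exists_inv c0 n0
  obtain ⟨z, z1, z2, z3, z4, z5⟩ := tw_list hL' (ι :: ι :: l) _ hr (by simp [l1]) (by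
    simp only [List.mem_cons, forall_eq_or_imp]; exact ⟨⟨i1, i2⟩, ⟨i1, i2⟩, l2⟩)
  obtain ⟨w, hw⟩ := tw_conj (φ := 1) hL hL' hb z3 b0 (fun x hx => by
    rw [z4 x hx, List.prod_cons, List.prod_cons, ← mul_assoc, i1, one_mul, l3,
      ← θ2 _ ((θ1.inv.mp x).1 hx), vinv']) fun x => by rw [L0, vone, mem 0 (by omega)]
  have z6 : Sp {x | 1 ≤ ht x ∧ ht x ≤ 9} z := z2.mono (by
    rintro x ⟨i, a, b, c⟩
    simp only [List.length_cons, l1] at b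
    rw [mem i (by omega)] at c
    exact ⟨by omega, by omega⟩)
  obtain ⟨p0, hp0⟩ := h4 0 (by omega)
  have z7 : Sp {x | ht x ≤ 9} z := z6.mono fun x h => h.2
  obtain ⟨c, c1, c2⟩ := inv_conj (cl (· ≤ 9) (by omega)) z1 t1 z7
    (t2.mono fun x (h : ht x = 1) => show ht x ≤ 9 by omega) (fun e => i3 (z5 e ι (by simp))) t3
    ⟨p0, show ht p0 ≤ 9 by omega, z6 _ fun h => by have := h.1; omega⟩
    ⟨p0, show ht p0 ≤ 9 by omega, t2 _ fun h : ht p0 = 1 => by omega⟩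
  have c3 : Sp {x | ht (f⁻¹ x) ≤ 9} (f * c * f⁻¹) := c1.conj fun x hx => by simpa using hx
  have c4 := (c1.mul z7).comm c3 fun x (a : ht x ≤ 9) (e : ht (f⁻¹ x) ≤ 9) => by
    have := h1 (f⁻¹ x); rw [vinv'] at this; omega
  have c5 : f * c * f⁻¹ * b = b * c := vext fun x => by
    by_cases h : ht x ≤ 9
    · rw [vmul, vmul b, b1 x h, b1 _ ((c1.mp x).1 h)]; simp
    · rw [vmul, vmul b, c1 x h, c3]
      intro (e : ht (f⁻¹ (b x)) ≤ 9)
      have := b1 _ e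
      rw [vinv', vinj] at this
      exact h (this ▸ e)
  have zi : z⁻¹ = z := inv_eq_of_mul_eq_one_right z1
  refine ⟨c * z * (f * c * f⁻¹) * b⁻¹ * (c * z * (f * c * f⁻¹))⁻¹,
    c * w * (c * z * (f * c * f⁻¹))⁻¹, ?_⟩
  have e1 : c * z * (f * c * f⁻¹) * b * (c * z * (f * c * f⁻¹))⁻¹ * f = c * (z * (b * τ * f)) * c⁻¹ := by
    rw [mul_assoc _ _ b, c5, c4, ← c2]
    nth_rw 4 [← zi]
    group
  rw [commutatorElement_def]
  generalize c * z * (f * c * f⁻¹) = u at *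
  calc f = u * b⁻¹ * u⁻¹ * (u * b * u⁻¹ * f) := by group
    _ = u * b⁻¹ * u⁻¹ * (c * (z * (b * τ * f) * w) * w⁻¹ * c⁻¹) := by rw [e1]; group
    _ = _ := by rw [← hw]; group

theorem V_comm (f : V) : ∃ a b : V, f = ⁅a, b⁆ := by
  by_cases h : f * f = 1
  · exact inv_comm h
  obtain ⟨x, hx⟩ : ∃ x, f (f x) ≠ x := by
    by_contra e
    push Not at e
    exact h (vext e)
  have h1 : f x ≠ x := fun e => hx (by rw [e, e])
  have hI : x ∈ I := by_contra fun e => h1 (vout f e)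
  obtain ⟨A, A1, A2, A3⟩ := sep hI h1
  obtain ⟨B, B1, B2, B3⟩ := sep hI hx
  exact comm_of_S (S := (A \ {y | f y ∈ A}) ∩ (B \ {y | (f * f) y ∈ B}))
    ((A1.diff (A1.pre f)).inter (B1.diff (B1.pre _))) ⟨x, ⟨A2, A3⟩, B2, B3⟩
    (fun y a b => a.1.2 b.1.1) fun y a b => a.2.2 b.2.1

end Pool.Agent.H.MP_3d8b4c_al
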